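import Pool.Agent.Work.MP_814647_an.Statement

/-!
# Projective circle extensions of Anosov diffeomorphisms: the notions in the statement

`E` and `E'` are finite-dimensional real vector spaces, `B` and `M` closed smooth manifolds
modelled on `E` and `E'`.
-/

open Set Filter Topology
open scoped Manifold ContDiff ComplexConjugate

noncomputable section

namespace Pool.Agent.OmegaStability

section

variable (E E' : Type*) [NormedAddCommGroup E] [NormedSpace ℝ E] [NormedAddCommGroup E']
  [NormedSpace ℝ E'] {B M : Type*} [MetricSpace B] [ChartedSpace E B]
  [MetricSpace M] [ChartedSpace E' M] [MulAction Circle M]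

/-- The circle acts smoothly on `M`. -/
def SmoothCircleAction (M : Type*) [MetricSpace M] [ChartedSpace E' M] [MulAction Circle M] :
    Prop :=
  ContMDiff ((𝓡 1).prod 𝓘(ℝ, E')) 𝓘(ℝ, E') ∞ (fun p : Circle × M => p.1 • p.2)

/-- `π : M → B` is a smooth principal circle bundle: the circle acts smoothly and freely on `M`,
and `π` is a surjective smooth submersion whose fibres are the orbits of the action. -/
structure PrincipalCircleBundle (π : M → B) : Prop where
  smooth_action : SmoothCircleAction E' M
  free : ∀ (z : Circle) (y : M), z • y = y → z = 1
  smooth_proj : ContMDiff 𝓘(ℝ, E') 𝓘(ℝ, E) ∞ π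
  submersion : ∀ y, Function.Surjective (mfderiv 𝓘(ℝ, E') 𝓘(ℝ, E) π y)
  surjective : Function.Surjective π
  fibre : ∀ y y' : M, π y = π y' ↔ ∃ z : Circle, z • y = y'

/-- The map `f` acts on the circle fibres by orientation-preserving projective (Moebius) maps:
for each `y` there are complex numbers `a`, `b` with `|b| < |a|` such that `f (z • y) = w • f y`
only if `w = (a z + b) / (conj b z + conj a)`. -/
def ActsProjectively {M : Type*} [MulAction Circle M] (f : M → M) : Prop :=
  ∀ y : M, ∃ a b : ℂ, ‖b‖ < ‖a‖ ∧ ∀ z w : Circle, f (z • y) = w • f y →
    (w : ℂ) * (conj b * z + conj a) = a * z + b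

variable {E E'}

/-- The diffeomorphism `f` of the total space of the principal circle bundle `π` covers the
diffeomorphism `A` of the base and acts on the fibres by projective maps. -/
structure IsProjectiveExtension {r : ℕ∞} (π : M → B) (A : Diffeo E B r) (f : Diffeo E' M r) :
    Prop where
  bundle : PrincipalCircleBundle E E' π
  covers : ∀ y, π (f y) = A (π y)
  projective : ActsProjectively f

/-- `A` is an Anosov diffeomorphism with dense periodic points. -/
def AnosovWithDensePeriodicPoints [IsManifold 𝓘(ℝ, E) ∞ B] {r : ℕ∞} (A : Diffeo E B r) : Prop :=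
  HyperbolicStructure E A A.symm univ ∧ Dense (Function.periodicPts A)

end

end Pool.Agent.OmegaStability
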