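import Pool.Agent.Work.MP_814647_an.Defs

/-!
# Auxiliary definitions for the proof (not used in the statement of the result)
-/

open Set Filter Topology Function
open scoped Manifold ContDiff

noncomputable section

namespace Pool.Agent.OmegaStab

/-- The system `f` has a cycle of length `m` of periodic orbits joined by non-periodic points. -/
def HasCycle {M : Type*} [TopologicalSpace M] (f : M ≃ₜ M) (m : ℕ) : Prop :=
  ∃ p x : ℕ → M, (∀ i, p i ∈ periodicPts f) ∧ Orb f (p m) = Orb f (p 0) ∧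
    ∀ i < m, x i ∉ periodicPts f ∧
      Tendsto (fun n : ℕ => f.symm^[n] (x i)) atTop (𝓝ˢ (Orb f (p i))) ∧
      Tendsto (fun n : ℕ => f^[n] (x i)) atTop (𝓝ˢ (Orb f (p (i + 1))))

section Local

variable {Xs Xu : Type*} [NormedAddCommGroup Xs] [NormedSpace ℝ Xs]
  [NormedAddCommGroup Xu] [NormedSpace ℝ Xu]

/-- `G` is, on the closed ball of radius `ρ`, Lipschitz close to a strongly hyperbolic product
map, and fixes `0`. -/
structure LocHyp (G : Xs × Xu → Xs × Xu) (As : Xs →L[ℝ] Xs) (Au : Xu ≃L[ℝ] Xu) (ρ : ℝ) :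
    Prop where
  rho_pos : 0 < ρ
  zero : G 0 = 0
  norm_As : ‖As‖ ≤ 1 / 8
  norm_Au : ‖(Au.symm : Xu →L[ℝ] Xu)‖ ≤ 1 / 8
  lip : ∀ x y, ‖x‖ ≤ ρ → ‖y‖ ≤ ρ →
    ‖G x - G y - (As (x.1 - y.1), Au (x.2 - y.2))‖ ≤ 1 / 8 * ‖x - y‖

/-- The vectors whose forward images under the derivative cocycle of `G` along `b` stay bounded. -/
def fwdBdd (G : Xs × Xu → Xs × Xu) (b : ℕ → Xs × Xu) : Submodule ℝ (Xs × Xu) where
  carrier := {v | ∃ w : ℕ → Xs × Xu, w 0 = v ∧ (∀ n, fderiv ℝ G (b n) (w n) = w (n + 1)) ∧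
    ∃ C, ∀ n, ‖w n‖ ≤ C}
  add_mem' := by
    rintro v v' ⟨w, h0, h1, C, h2⟩ ⟨w', h0', h1', C', h2'⟩
    refine ⟨w + w', by simp [h0, h0'], fun n => by simp [h1, h1'], C + C', fun n => ?_⟩
    exact (norm_add_le _ _).trans (add_le_add (h2 n) (h2' n))
  zero_mem' := ⟨0, rfl, fun n => by simp, 0, fun n => by simp⟩
  smul_mem' := by
    rintro c v ⟨w, h0, h1, C, h2⟩
    refine ⟨c • w, by simp [h0], fun n => by simp [h1], ‖c‖ * C, fun n => ?_⟩
    simp only [Pi.smul_apply, norm_smul]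
    exact mul_le_mul_of_nonneg_left (h2 n) (norm_nonneg _)

/-- The vectors with a bounded sequence of preimages under the derivative cocycle of `G` along the
backward orbit `a`. -/
def bwdBdd (G : Xs × Xu → Xs × Xu) (a : ℕ → Xs × Xu) : Submodule ℝ (Xs × Xu) where
  carrier := {v | ∃ w : ℕ → Xs × Xu, w 0 = v ∧ (∀ n, fderiv ℝ G (a (n + 1)) (w (n + 1)) = w n) ∧
    ∃ C, ∀ n, ‖w n‖ ≤ C}
  add_mem' := by
    rintro v v' ⟨w, h0, h1, C, h2⟩ ⟨w', h0', h1', C', h2'⟩
    refine ⟨w + w', by simp [h0, h0'], fun n => by simp [h1, h1'], C + C', fun n => ?_⟩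
    exact (norm_add_le _ _).trans (add_le_add (h2 n) (h2' n))
  zero_mem' := ⟨0, rfl, fun n => by simp, 0, fun n => by simp⟩
  smul_mem' := by
    rintro c v ⟨w, h0, h1, C, h2⟩
    refine ⟨c • w, by simp [h0], fun n => by simp [h1], ‖c‖ * C, fun n => ?_⟩
    simp only [Pi.smul_apply, norm_smul]
    exact mul_le_mul_of_nonneg_left (h2 n) (norm_nonneg _)

end Local

section Linear

variable {E : Type*} [NormedAddCommGroup E] [NormedSpace ℝ E]

/-- `D` has no complex eigenvalue of modulus one: there are no `θ` and no `v + i w ≠ 0` with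
`D (v + i w) = e^{iθ} (v + i w)`. -/
def HypLin (D : E →L[ℝ] E) : Prop :=
  ∀ (θ : ℝ) (v w : E), D v = Real.cos θ • v - Real.sin θ • w →
    D w = Real.sin θ • v + Real.cos θ • w → v = 0 ∧ w = 0

/-- The derivative at `L = 0` of `L ↦ ((1 + L) D)^b e`. -/
def resMap (D : E →L[ℝ] E) (b : ℕ) (e : E) (L : E →L[ℝ] E) : E :=
  ∑ j ∈ Finset.range b, (D ^ j) (L ((D ^ (b - j)) e))

end Linear

section Man

variable {d : ℕ} {M : Type*} [MetricSpace M] [ChartedSpace (EE d) M] {r : ℕ∞}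

/-- `p` is a periodic point of `g` whose multiplier (the derivative of the first return map, in the
chart at `p`) has no eigenvalue of modulus one. -/
def HypAt (g : M → M) (p : M) : Prop :=
  p ∈ periodicPts g ∧
    HypLin (fderiv ℝ (inCharts (d := d) p p (g^[minimalPeriod g p])) (extChartAt (𝓡 d) p p))

/-- A family of diffeomorphisms, jointly `C^r` near parameter `0`, which is the identity at
parameter `0`. -/
def IsFam {V : Type*} [NormedAddCommGroup V] [NormedSpace ℝ V] (h : V → Dyn d M r) : Prop :=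
  h 0 = Diffeomorph.refl (𝓡 d) M r ∧ ∃ U ∈ 𝓝 (0 : V),
    ContMDiffOn (𝓘(ℝ, V).prod (𝓡 d)) (𝓡 d) r (fun q : V × M => h q.1 q.2) (U ×ˢ univ)

/-- The parameter space of local affine perturbations. -/
abbrev PP (d : ℕ) : Type := EE d × (EE d →L[ℝ] EE d)

/-- The diffeomorphisms in `N` are all conjugate on their nonwandering sets. -/
def ConjClass (N : Set (Dyn d M r)) : Prop :=
  ∀ f ∈ N, ∀ g ∈ N, ∃ h : nonwandering f ≃ₜ nonwandering g,
      ∀ x y : nonwandering f, (y : M) = f x → (h y : M) = g (h x)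

end Man

end Pool.Agent.OmegaStab
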