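import Pool.Agent.Work.MP_814647_an.Basic

/-!
# Toolbox: expressions of diffeomorphisms in charts
-/

open Set Filter Topology Function
open scoped Manifold ContDiff

noncomputable section

namespace Pool.Agent.OmegaStab

variable {d : ℕ} {M : Type*} [MetricSpace M] [ChartedSpace (EE d) M] {r : ℕ∞}

/-- The open set on which the expression in charts makes sense. -/
def chartDom (x y : M) (g : M → M) : Set (EE d) :=
  (extChartAt (𝓡 d) x).target ∩ (extChartAt (𝓡 d) x).symm ⁻¹' (g ⁻¹' (extChartAt (𝓡 d) y).source)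

theorem isOpen_chartDom (x y : M) {g : M → M} (hg : Continuous g) :
    IsOpen (chartDom (d := d) x y g) :=
  (continuousOn_extChartAt_symm x).isOpen_inter_preimage (isOpen_extChartAt_target x)
    ((isOpen_extChartAt_source (I := 𝓡 d) y).preimage hg)

theorem mem_chartDom {x y z : M} {g : M → M} (hz : z ∈ (extChartAt (𝓡 d) x).source)
    (hgz : g z ∈ (extChartAt (𝓡 d) y).source) : extChartAt (𝓡 d) x z ∈ chartDom x y g := by
  refine ⟨(extChartAt (𝓡 d) x).map_source hz, ?_⟩
  simpa only [mem_preimage, (extChartAt (𝓡 d) x).left_inv hz] using hgz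

theorem contMDiff_iterate [IsManifold (𝓡 d) ∞ M] {g : M → M} {n : ℕ∞ω} (hg : ContMDiff (𝓡 d) (𝓡 d) n g) (m : ℕ) :
    ContMDiff (𝓡 d) (𝓡 d) n (g^[m]) := by
  induction m with
  | zero => exact contMDiff_id
  | succ m ih => rw [Function.iterate_succ]; exact ih.comp hg

theorem contDiffOn_inCharts [IsManifold (𝓡 d) ∞ M] {g : M → M} (hg : ContMDiff (𝓡 d) (𝓡 d) (r : ℕ∞ω) g) (x y : M) :
    ContDiffOn ℝ r (inCharts (d := d) x y g) (chartDom x y g) := by
  have : IsManifold (𝓡 d) (r : ℕ∞ω) M := IsManifold.of_le (n := ∞) (by exact_mod_cast le_top)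
  exact ((contMDiff_iff).1 hg).2 x y

theorem inCharts_apply {x y z : M} {g : M → M} (hz : z ∈ (extChartAt (𝓡 d) x).source) :
    inCharts (d := d) x y g (extChartAt (𝓡 d) x z) = extChartAt (𝓡 d) y (g z) := by
  simp only [inCharts, (extChartAt (𝓡 d) x).left_inv hz]

/-- composition in charts -/
theorem inCharts_comp {x y z : M} {f g : M → M} {u : EE d} (hu : u ∈ chartDom x y f) :
    inCharts (d := d) y z g (inCharts x y f u) = inCharts x z (g ∘ f) u := by
  simp only [inCharts, Function.comp_apply]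
  rw [(extChartAt (𝓡 d) y).left_inv hu.2]

theorem inCharts_mem_target {x y : M} {f : M → M} {u : EE d} (hu : u ∈ chartDom x y f) :
    inCharts (d := d) x y f u ∈ (extChartAt (𝓡 d) y).target :=
  (extChartAt (𝓡 d) y).map_source hu.2

end Pool.Agent.OmegaStab
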