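import Pool.Agent.Work.MP_814647_an.Basic

/-!
# Hyperbolic linear maps: splitting, scalar perturbation, small transverse perturbation
-/

open Set Filter Topology Function
open scoped Manifold ContDiff

noncomputable section

namespace Pool.Agent.OmegaStab

namespace LinAux

open Polynomial

/-! ### Complex eigenvalues of real operators -/

section Alg

variable {E : Type*} [AddCommGroup E] [Module ℝ E]

/-- The real linear map `ℂ → E`, `x + i y ↦ x v - y w`. -/
def pairMap (v w : E) : ℂ →ₗ[ℝ] E :=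
  LinearMap.smulRight Complex.reLm v - LinearMap.smulRight Complex.imLm w

lemma pairMap_apply (v w : E) (u : ℂ) : pairMap v w u = u.re • v - u.im • w := rfl

lemma pairMap_intertw (T : Module.End ℝ E) (v w : E) (z : ℂ) (hv : T v = z.re • v - z.im • w)
    (hw : T w = z.im • v + z.re • w) (u : ℂ) : T (pairMap v w u) = pairMap v w (z * u) := by
  rw [pairMap_apply, pairMap_apply, map_sub, map_smul, map_smul, hv, hw, Complex.mul_re,
    Complex.mul_im]
  module

lemma aeval_intertw (T : Module.End ℝ E) (φ : ℂ →ₗ[ℝ] E) (z : ℂ)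
    (h : ∀ u, T (φ u) = φ (z * u)) (P : ℝ[X]) :
    ∀ u, aeval T P (φ u) = φ (aeval z P * u) := by
  induction P using Polynomial.induction_on with
  | C a =>
    intro u
    rw [aeval_C, aeval_C, Module.algebraMap_end_apply, ← map_smul, Algebra.smul_def]
  | add p q hp hq =>
    intro u
    rw [map_add, map_add, LinearMap.add_apply, hp, hq, ← map_add, add_mul]
  | monomial n a ih =>
    intro u
    have e : (C a * X ^ (n + 1) : ℝ[X]) = C a * X ^ n * X := by ring
    rw [e, map_mul (aeval T) (C a * X ^ n), map_mul (aeval z) (C a * X ^ n), aeval_X, aeval_X,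
      Module.End.mul_apply, h, ih, mul_assoc]

lemma root_of_eig (T : Module.End ℝ E) (P : ℝ[X]) (hP : aeval T P = 0) (φ : ℂ →ₗ[ℝ] E)
    (hφ : φ ≠ 0) (z : ℂ) (h : ∀ u, T (φ u) = φ (z * u)) : aeval z P = 0 := by
  by_contra hne
  apply hφ
  ext u
  have h1 := aeval_intertw T φ z h P ((aeval z P)⁻¹ * u)
  rw [hP, LinearMap.zero_apply, ← mul_assoc, mul_inv_cancel₀ hne, one_mul] at h1
  rw [LinearMap.zero_apply]
  exact h1.symm

lemma eig_of_root [FiniteDimensional ℝ E] (T : Module.End ℝ E) (z : ℂ)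
    (hz : aeval z (minpoly ℝ T) = 0) :
    ∃ v w : E, (v ≠ 0 ∨ w ≠ 0) ∧ T v = z.re • v - z.im • w ∧ T w = z.im • v + z.re • w := by
  have hint : IsIntegral ℝ T := Algebra.IsIntegral.isIntegral T
  have hP0 : minpoly ℝ T ≠ 0 := minpoly.ne_zero hint
  -- a proper factor does not annihilate
  have hmin : ∀ q r : ℝ[X], minpoly ℝ T = q * r → 0 < q.natDegree → ∃ x, aeval T r x ≠ 0 := by
    intro q r hqr hq
    by_contra hcon
    push Not at hcon
    have h1 : aeval T r = 0 := LinearMap.ext hcon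
    have h2 := minpoly.dvd ℝ T h1
    have hr0 : r ≠ 0 := by
      rintro rfl
      rw [mul_zero] at hqr
      exact hP0 hqr
    have hq0 : q ≠ 0 := by
      rintro rfl
      rw [zero_mul] at hqr
      exact hP0 hqr
    have h3 := natDegree_le_of_dvd h2 hr0
    rw [hqr, natDegree_mul hq0 hr0] at h3
    omega
  have hann : ∀ q r : ℝ[X], minpoly ℝ T = q * r → ∀ x, aeval T q (aeval T r x) = 0 := by
    intro q r hqr x
    rw [← Module.End.mul_apply, ← map_mul, ← hqr, minpoly.aeval, LinearMap.zero_apply]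
  by_cases him : z.im = 0
  · have hzr : z = (z.re : ℂ) := by
      apply Complex.ext <;> simp [him]
    have h1 : (minpoly ℝ T).eval z.re = 0 := by
      rw [hzr] at hz
      have h2 : aeval ((z.re : ℝ) : ℂ) (minpoly ℝ T) = (((minpoly ℝ T).eval z.re : ℝ) : ℂ) := by
        have := aeval_algebraMap_apply ℂ z.re (minpoly ℝ T)
        rw [coe_aeval_eq_eval] at this
        exact this
      rw [h2] at hz
      exact_mod_cast hz
    obtain ⟨r, hr⟩ := dvd_iff_isRoot.2 h1
    obtain ⟨x, hx⟩ := hmin _ _ hr (by rw [natDegree_X_sub_C]; exact one_pos)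
    have h3 := hann _ _ hr x
    rw [map_sub, aeval_X, aeval_C, LinearMap.sub_apply, Module.algebraMap_end_apply,
      sub_eq_zero] at h3
    refine ⟨aeval T r x, 0, Or.inl hx, ?_, ?_⟩
    · rw [h3, him]; simp
    · rw [him]; simp
  · obtain ⟨r, hr⟩ := quadratic_dvd_of_aeval_eq_zero_im_ne_zero (minpoly ℝ T) hz him
    have hdeg : 0 < (X ^ 2 - C (2 * z.re) * X + C (‖z‖ ^ 2) : ℝ[X]).natDegree := by
      have : (X ^ 2 - C (2 * z.re) * X + C (‖z‖ ^ 2) : ℝ[X]).natDegree = 2 := by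
        compute_degree!
      rw [this]; exact two_pos
    obtain ⟨x, hx⟩ := hmin _ _ hr hdeg
    have h3 := hann _ _ hr x
    set v := aeval T r x with hv
    have h4 : T (T v) = (2 * z.re) • T v - (‖z‖ ^ 2) • v := by
      rw [map_add, map_sub, map_mul, map_pow, aeval_X, aeval_C, aeval_C, LinearMap.add_apply,
        LinearMap.sub_apply, pow_two, Module.End.mul_apply, Module.End.mul_apply,
        Module.algebraMap_end_apply, Module.algebraMap_end_apply] at h3
      rw [← sub_eq_zero]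
      rw [← h3]
      abel
    have h5 : ‖z‖ ^ 2 = z.re ^ 2 + z.im ^ 2 := by
      rw [Complex.sq_norm, Complex.normSq_apply]; ring
    refine ⟨v, z.im⁻¹ • (z.re • v - T v), Or.inl hx, ?_, ?_⟩
    · rw [smul_smul, mul_inv_cancel₀ him, one_smul]
      abel
    · rw [map_smul, map_sub, map_smul, h4, h5]
      have h6 : z.im • v = z.im⁻¹ • (z.im ^ 2 • v) := by
        rw [smul_smul]
        congr 1
        field_simp
      rw [h6, smul_comm z.re z.im⁻¹, ← smul_add]
      congr 1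
      module

end Alg

/-! ### Factorization of a real polynomial by the moduli of its roots -/

lemma norm_eq_of_irreducible {i : ℝ[X]} (hi : Irreducible i) {z z' : ℂ} (hz : aeval z i = 0)
    (hz' : aeval z' i = 0) : ‖z'‖ = ‖z‖ := by
  have key : ∀ q : ℝ[X], q ∣ i → 0 < q.natDegree → aeval z' q = 0 := by
    rintro q ⟨r, hr⟩ hq
    have hru : IsUnit r := by
      rcases hi.isUnit_or_isUnit hr with h | h
      · rw [natDegree_eq_zero_of_isUnit h] at hq
        exact absurd hq (lt_irrefl 0)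
      · exact h
    rw [hr, map_mul] at hz'
    rcases mul_eq_zero.1 hz' with h | h
    · exact h
    · have := hru.map (aeval z')
      rw [h] at this
      exact absurd this not_isUnit_zero
  by_cases him : z.im = 0
  · have hzr : z = (z.re : ℂ) := by
      apply Complex.ext <;> simp [him]
    have h1 : i.eval z.re = 0 := by
      rw [hzr] at hz
      have h2 : aeval ((z.re : ℝ) : ℂ) i = ((i.eval z.re : ℝ) : ℂ) := by
        have := aeval_algebraMap_apply ℂ z.re i
        rw [coe_aeval_eq_eval] at this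
        exact this
      rw [h2] at hz
      exact_mod_cast hz
    have h3 := key _ (dvd_iff_isRoot.2 h1) (by rw [natDegree_X_sub_C]; exact one_pos)
    rw [map_sub, aeval_X, aeval_C, sub_eq_zero] at h3
    rw [h3, hzr]
    simp
  · have hdeg : 0 < (X ^ 2 - C (2 * z.re) * X + C (‖z‖ ^ 2) : ℝ[X]).natDegree := by
      have : (X ^ 2 - C (2 * z.re) * X + C (‖z‖ ^ 2) : ℝ[X]).natDegree = 2 := by
        compute_degree!
      rw [this]; exact two_pos
    have h3 := key _ (quadratic_dvd_of_aeval_eq_zero_im_ne_zero i hz him) hdeg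
    have h4 : (z' - z) * (z' - (starRingEnd ℂ) z) = 0 := by
      rw [← h3]
      simp only [map_add, map_sub, map_mul, map_pow, aeval_X, aeval_C]
      have h5 := Complex.add_conj z
      have h6 := Complex.mul_conj' z
      have h7 : algebraMap ℝ ℂ 2 * algebraMap ℝ ℂ z.re = z + (starRingEnd ℂ) z := by
        rw [h5, ← map_mul]; rfl
      have h8 : algebraMap ℝ ℂ ‖z‖ ^ 2 = z * (starRingEnd ℂ) z := by
        rw [h6]; rfl
      rw [h7, h8]
      ring
    rcases mul_eq_zero.1 h4 with h | h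
    · rw [sub_eq_zero.1 h]
    · rw [sub_eq_zero.1 h, Complex.norm_conj]

lemma exists_factor (P : ℝ[X]) (hP : ∀ z : ℂ, aeval z P = 0 → ‖z‖ ≠ 1) :
    ∃ Q R : ℝ[X], P = Q * R ∧ (∀ z : ℂ, aeval z Q = 0 → ‖z‖ < 1) ∧
      (∀ z : ℂ, aeval z R = 0 → 1 < ‖z‖) := by
  induction P using WfDvdMonoid.induction_on_irreducible with
  | zero =>
    exact absurd norm_one (hP 1 (map_zero _))
  | unit u hu =>
    have h1 : ∀ z : ℂ, aeval z u ≠ 0 := by
      intro z hz
      have := hu.map (aeval z)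
      rw [hz] at this
      exact not_isUnit_zero this
    refine ⟨u, 1, (mul_one u).symm, fun z hz => absurd hz (h1 z), fun z hz => ?_⟩
    rw [map_one] at hz
    exact absurd hz one_ne_zero
  | mul a i _ hi ih =>
    obtain ⟨Q, R, hQR, hQ, hR⟩ := ih (fun z hz => hP z (by rw [map_mul, hz, mul_zero]))
    have hi1 : ∀ z : ℂ, aeval z i = 0 → ‖z‖ ≠ 1 := fun z hz => hP z (by rw [map_mul, hz, zero_mul])
    by_cases h : ∃ z : ℂ, aeval z i = 0 ∧ ‖z‖ < 1
    · obtain ⟨z, hz, hz1⟩ := h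
      refine ⟨i * Q, R, by rw [hQR, mul_assoc], fun z' hz' => ?_, hR⟩
      rw [map_mul] at hz'
      rcases mul_eq_zero.1 hz' with h | h
      · rw [norm_eq_of_irreducible hi hz h]
        exact hz1
      · exact hQ z' h
    · push Not at h
      refine ⟨Q, i * R, by rw [hQR]; ring, hQ, fun z' hz' => ?_⟩
      rw [map_mul] at hz'
      rcases mul_eq_zero.1 hz' with h2 | h2
      · exact lt_of_le_of_ne (h z' h2) (hi1 z' h2).symm
      · exact hR z' h2

/-! ### Decay -/

/-- The shift on sequences. -/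
def shift (F : Type*) [AddCommGroup F] [Module ℂ F] : Module.End ℂ (ℕ → F) where
  toFun u := fun n => u (n + 1)
  map_add' _ _ := rfl
  map_smul' _ _ := rfl

lemma decay_seq {F : Type*} [NormedAddCommGroup F] [NormedSpace ℂ F] (μ : ℝ) (hμ : 0 < μ) :
    ∀ (n : ℕ) (Q : ℂ[X]), Q.natDegree = n → Q ≠ 0 → (∀ z, Q.eval z = 0 → ‖z‖ < μ) →
      ∀ u : ℕ → F, aeval (shift F) Q u = 0 → ∃ C, ∀ n, ‖u n‖ ≤ C * μ ^ n := by
  intro n
  induction n with
  | zero =>
    intro Q hQ hQ0 _ u hu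
    rw [eq_C_of_natDegree_eq_zero hQ] at hu hQ0
    rw [aeval_C, Module.algebraMap_end_apply] at hu
    have h1 : Q.coeff 0 ≠ 0 := fun h => hQ0 (by rw [h, C_0])
    have h2 : u = 0 := (smul_eq_zero.1 hu).resolve_left h1
    refine ⟨0, fun n => ?_⟩
    rw [h2]; simp
  | succ k ih =>
    intro Q hQ hQ0 hroots u hu
    obtain ⟨z, hz⟩ := IsAlgClosed.exists_root Q (by
      rw [degree_eq_natDegree hQ0, hQ]
      exact_mod_cast Nat.succ_ne_zero k)
    obtain ⟨Q', hQ'⟩ := dvd_iff_isRoot.2 hz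
    have hQ'0 : Q' ≠ 0 := by
      rintro rfl
      rw [mul_zero] at hQ'
      exact hQ0 hQ'
    have hdeg : Q'.natDegree = k := by
      have := hQ
      rw [hQ', natDegree_mul (X_sub_C_ne_zero z) hQ'0, natDegree_X_sub_C] at this
      omega
    set w : ℕ → F := aeval (shift F) (X - C z) u with hw
    have hwn : ∀ n, w n = u (n + 1) - z • u n := by
      intro n
      rw [hw, map_sub, aeval_X, aeval_C, LinearMap.sub_apply, Module.algebraMap_end_apply]
      rfl
    obtain ⟨C, hC⟩ := ih Q' hdeg hQ'0 (fun z' hz' => hroots z' (by rw [hQ', eval_mul, hz', mul_zero]))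
      w (by rw [hw, ← Module.End.mul_apply, ← map_mul, mul_comm, ← hQ', hu])
    have hzμ : ‖z‖ < μ := hroots z hz
    have hzμ' : 0 < μ - ‖z‖ := sub_pos.2 hzμ
    refine ⟨max ‖u 0‖ (C / (μ - ‖z‖)), fun n => ?_⟩
    set C' := max ‖u 0‖ (C / (μ - ‖z‖)) with hC'
    have h1 : C ≤ C' * (μ - ‖z‖) := by
      rw [← div_le_iff₀ hzμ']
      exact le_max_right _ _
    induction n with
    | zero => rw [pow_zero, mul_one]; exact le_max_left _ _
    | succ n ihn =>
      have h2 : u (n + 1) = w n + z • u n := by rw [hwn]; abel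
      calc ‖u (n + 1)‖ ≤ ‖w n‖ + ‖z • u n‖ := by rw [h2]; exact norm_add_le _ _
        _ ≤ C * μ ^ n + ‖z‖ * (C' * μ ^ n) := by
            rw [norm_smul]
            exact add_le_add (hC n) (mul_le_mul_of_nonneg_left ihn (norm_nonneg _))
        _ = (C + ‖z‖ * C') * μ ^ n := by ring
        _ ≤ (C' * (μ - ‖z‖) + ‖z‖ * C') * μ ^ n := by
            apply mul_le_mul_of_nonneg_right _ (pow_nonneg hμ.le n)
            linarith
        _ = C' * μ ^ (n + 1) := by ring

lemma aeval_intertw' {E G : Type*} [AddCommGroup E] [Module ℝ E] [AddCommGroup G] [Module ℂ G]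
    [Module ℝ G] [IsScalarTower ℝ ℂ G] (T : Module.End ℝ E) (S : Module.End ℂ G) (Ψ : E →ₗ[ℝ] G)
    (h : ∀ v, S (Ψ v) = Ψ (T v)) (P : ℝ[X]) :
    ∀ v, aeval S (P.map (algebraMap ℝ ℂ)) (Ψ v) = Ψ (aeval T P v) := by
  induction P using Polynomial.induction_on with
  | C a =>
    intro v
    rw [map_C, aeval_C, aeval_C, Module.algebraMap_end_apply, Module.algebraMap_end_apply,
      map_smul, algebraMap_smul]
  | add p q hp hq =>
    intro v
    rw [Polynomial.map_add, map_add, map_add, LinearMap.add_apply, LinearMap.add_apply, hp, hq,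
      ← map_add]
  | monomial n a ih =>
    intro v
    have e : (C a * X ^ (n + 1) : ℝ[X]) = C a * X ^ n * X := by ring
    rw [e, Polynomial.map_mul, map_X, map_mul (aeval T) (C a * X ^ n),
      map_mul (aeval S) ((C a * X ^ n : ℝ[X]).map (algebraMap ℝ ℂ)), aeval_X, aeval_X,
      Module.End.mul_apply, Module.End.mul_apply, h, ih]

lemma exists_bound_roots (Q : ℝ[X]) (hQ0 : Q ≠ 0) (hQ : ∀ z : ℂ, aeval z Q = 0 → ‖z‖ < 1) :
    ∃ μ : ℝ, 0 < μ ∧ μ < 1 ∧ ∀ z : ℂ, aeval z Q = 0 → ‖z‖ < μ := by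
  have hfin : {z : ℂ | aeval z Q = 0}.Finite := by
    have h1 := (Q.map (algebraMap ℝ ℂ)).roots.toFinset.finite_toSet
    refine h1.subset fun z hz => ?_
    have h2 : Q.map (algebraMap ℝ ℂ) ≠ 0 := (Polynomial.map_ne_zero_iff
      (algebraMap ℝ ℂ).injective).2 hQ0
    rw [Finset.mem_coe, Multiset.mem_toFinset, mem_roots h2, IsRoot.def, eval_map_algebraMap]
    exact hz
  have h1 : ∀ᶠ μ : ℝ in 𝓝[<] 1, ∀ z ∈ {z : ℂ | aeval z Q = 0}, ‖z‖ < μ := by
    rw [eventually_all_finite hfin]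
    intro z hz
    exact Ioo_mem_nhdsLT (hQ z hz) |> fun h => Filter.mem_of_superset h fun x hx => hx.1
  have h2 : ∀ᶠ μ : ℝ in 𝓝[<] 1, μ ∈ Ioo (0 : ℝ) 1 := Ioo_mem_nhdsLT one_pos
  obtain ⟨μ, h3, h4⟩ := (h1.and h2).exists
  exact ⟨μ, h4.1, h4.2, h3⟩

section Norm

variable {E : Type*} [NormedAddCommGroup E] [NormedSpace ℝ E] [FiniteDimensional ℝ E]

omit [FiniteDimensional ℝ E] in
lemma coe_pow_apply (D : E →L[ℝ] E) (n : ℕ) (v : E) :
    (D ^ n) v = ((D : Module.End ℝ E) ^ n) v := by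
  rw [← ContinuousLinearMap.coe_coe, ContinuousLinearMap.toLinearMap_pow]

lemma decay (D : E →L[ℝ] E) (Q : ℝ[X]) (hQ0 : Q ≠ 0)
    (hQ : ∀ z : ℂ, aeval z Q = 0 → ‖z‖ < 1) :
    ∃ C μ : ℝ, 0 < C ∧ 0 < μ ∧ μ < 1 ∧
      ∀ v ∈ LinearMap.ker (aeval (D : Module.End ℝ E) Q), ∀ n : ℕ, ‖(D ^ n) v‖ ≤ C * μ ^ n * ‖v‖ := by
  obtain ⟨μ, hμ0, hμ1, hμ⟩ := exists_bound_roots Q hQ0 hQ
  -- coordinates
  let N := Module.finrank ℝ E
  let e : E ≃ₗ[ℝ] (Fin N → ℝ) := (Module.finBasis ℝ E).equivFun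
  let c : (Fin N → ℝ) →ₗ[ℝ] (Fin N → ℂ) := LinearMap.compLeft Complex.ofRealCLM.toLinearMap (Fin N)
  let J : E →ₗ[ℝ] (Fin N → ℂ) := c ∘ₗ e.toLinearMap
  have hJinj : LinearMap.ker J = ⊥ := by
    rw [LinearMap.ker_eq_bot]
    intro x y hxy
    apply e.injective
    funext i
    have := congrFun hxy i
    exact Complex.ofReal_injective this
  obtain ⟨K, hK0, hK⟩ := J.exists_antilipschitzWith hJinj
  have hJ : ∀ v, ‖v‖ ≤ K * ‖J v‖ := by
    intro v
    have := hK.le_mul_dist v 0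
    rwa [dist_zero_right, map_zero, dist_zero_right] at this
  let T : Module.End ℝ E := D
  let Ψ : E →ₗ[ℝ] (ℕ → Fin N → ℂ) := LinearMap.pi fun n => J ∘ₗ (T ^ n)
  have hΨ : ∀ v, shift (Fin N → ℂ) (Ψ v) = Ψ (T v) := by
    intro v
    funext n
    change J ((T ^ (n + 1)) v) = J ((T ^ n) (T v))
    rw [pow_succ]
    rfl
  have hpt : ∀ v ∈ LinearMap.ker (aeval T Q), ∃ C, ∀ n, ‖(T ^ n) v‖ ≤ C * μ ^ n := by
    intro v hv
    have h1 := aeval_intertw' T (shift (Fin N → ℂ)) Ψ hΨ Q v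
    rw [LinearMap.mem_ker.1 hv, map_zero] at h1
    have hmap0 : Q.map (algebraMap ℝ ℂ) ≠ 0 := (Polynomial.map_ne_zero_iff
      (algebraMap ℝ ℂ).injective).2 hQ0
    obtain ⟨C, hC⟩ := decay_seq μ hμ0 _ (Q.map (algebraMap ℝ ℂ)) rfl hmap0
      (fun z hz => hμ z (by rwa [eval_map_algebraMap] at hz)) _ h1
    refine ⟨K * C, fun n => ?_⟩
    refine (hJ _).trans ?_
    rw [mul_assoc]
    exact mul_le_mul_of_nonneg_left (hC n) K.coe_nonneg
  -- uniform bound
  let V := LinearMap.ker (aeval T Q)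
  let g : ℕ → V →L[ℝ] E := fun n => (μ ^ n)⁻¹ • ((D ^ n).comp V.subtypeL)
  obtain ⟨C', hC'⟩ := banach_steinhaus (g := g) (by
    rintro ⟨v, hv⟩
    obtain ⟨C, hC⟩ := hpt v hv
    refine ⟨C, fun n => ?_⟩
    change ‖(μ ^ n)⁻¹ • ((D ^ n) v)‖ ≤ C
    rw [norm_smul, norm_inv, norm_pow, Real.norm_of_nonneg hμ0.le, inv_mul_le_iff₀ (pow_pos hμ0 n),
      mul_comm, coe_pow_apply]
    exact hC n)
  refine ⟨max C' 1, μ, lt_max_of_lt_right one_pos, hμ0, hμ1, fun v hv n => ?_⟩
  have h1 := (g n).le_opNorm ⟨v, hv⟩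
  have h2 : ‖(g n) ⟨v, hv⟩‖ = (μ ^ n)⁻¹ * ‖(D ^ n) v‖ := by
    change ‖(μ ^ n)⁻¹ • ((D ^ n) v)‖ = _
    rw [norm_smul, norm_inv, norm_pow, Real.norm_of_nonneg hμ0.le]
  rw [h2, inv_mul_le_iff₀ (pow_pos hμ0 n)] at h1
  refine h1.trans ?_
  have h3 : ‖g n‖ ≤ max C' 1 := (hC' n).trans (le_max_left _ _)
  have h4 : ‖(⟨v, hv⟩ : V)‖ = ‖v‖ := rfl
  rw [h4]
  calc μ ^ n * (‖g n‖ * ‖v‖) ≤ μ ^ n * (max C' 1 * ‖v‖) := by
        apply mul_le_mul_of_nonneg_left _ (pow_nonneg hμ0.le n)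
        exact mul_le_mul_of_nonneg_right h3 (norm_nonneg _)
    _ = max C' 1 * μ ^ n * ‖v‖ := by ring

lemma hyp_root {D : E →L[ℝ] E} (h : HypLin D) (z : ℂ)
    (hz : aeval z (minpoly ℝ (D : Module.End ℝ E)) = 0) : ‖z‖ ≠ 1 := by
  intro hz1
  obtain ⟨v, w, hvw, hv, hw⟩ := eig_of_root _ z hz
  have h1 := Complex.norm_mul_cos_arg z
  have h2 := Complex.norm_mul_sin_arg z
  rw [hz1, one_mul] at h1 h2
  rw [← h1, ← h2] at hv hw
  obtain ⟨h3, h4⟩ := h (Complex.arg z) v w hv hw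
  rcases hvw with h5 | h5
  · exact h5 h3
  · exact h5 h4

omit [FiniteDimensional ℝ E] in
lemma not_hyp_root {D : E →L[ℝ] E} (h : ¬ HypLin D) :
    ∃ z : ℂ, aeval z (minpoly ℝ (D : Module.End ℝ E)) = 0 ∧ ‖z‖ = 1 := by
  unfold HypLin at h
  push Not at h
  obtain ⟨θ, v, w, hv, hw, hvw⟩ := h
  refine ⟨Complex.exp (θ * Complex.I), ?_, Complex.norm_exp_ofReal_mul_I θ⟩
  refine root_of_eig (D : Module.End ℝ E) _ (minpoly.aeval _ _) (pairMap v w) ?_ _
    (pairMap_intertw _ v w _ ?_ ?_)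
  · intro h0
    have h1 : pairMap v w 1 = 0 := by rw [h0]; rfl
    have h2 : pairMap v w Complex.I = 0 := by rw [h0]; rfl
    rw [pairMap_apply] at h1 h2
    simp only [Complex.one_re, one_smul, Complex.one_im, zero_smul, sub_zero, Complex.I_re,
      Complex.I_im, zero_sub, neg_eq_zero] at h1 h2
    exact hvw h1 h2
  · rw [Complex.exp_ofReal_mul_I_re, Complex.exp_ofReal_mul_I_im]
    exact hv
  · rw [Complex.exp_ofReal_mul_I_re, Complex.exp_ofReal_mul_I_im]
    exact hw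

end Norm

end LinAux

section Main

variable {E : Type*} [NormedAddCommGroup E] [NormedSpace ℝ E] [FiniteDimensional ℝ E]

open LinAux Polynomial in
theorem HypLin.split {D : E →L[ℝ] E} (h : HypLin D) :
    ∃ (Es Eu : Submodule ℝ E) (C μ : ℝ), IsCompl Es Eu ∧ (∀ v ∈ Es, D v ∈ Es) ∧
      (∀ v ∈ Eu, D v ∈ Eu) ∧ 0 < C ∧ 0 < μ ∧ μ < 1 ∧
      (∀ v ∈ Es, ∀ n : ℕ, ‖(D ^ n) v‖ ≤ C * μ ^ n * ‖v‖) ∧
      (∀ v ∈ Eu, ∀ n : ℕ, ‖v‖ ≤ C * μ ^ n * ‖(D ^ n) v‖) := by
  set T : Module.End ℝ E := (D : E →ₗ[ℝ] E) with hT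
  have hint : IsIntegral ℝ T := Algebra.IsIntegral.isIntegral T
  have hP0 : minpoly ℝ T ≠ 0 := minpoly.ne_zero hint
  obtain ⟨Q, R, hQR, hQ, hR⟩ := exists_factor (minpoly ℝ T) (hyp_root h)
  have hQ0 : Q ≠ 0 := by
    rintro rfl
    rw [zero_mul] at hQR
    exact hP0 hQR
  have hR0 : R ≠ 0 := by
    rintro rfl
    rw [mul_zero] at hQR
    exact hP0 hQR
  have hcop : IsCoprime Q R := by
    refine (isCoprime_iff_aeval_ne_zero_of_isAlgClosed ℝ ℂ Q R).2 ?_
    intro z
    by_contra hcon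
    push Not at hcon
    exact absurd (hQ z hcon.1) (not_lt.2 (hR z hcon.2).le)
  set Es : Submodule ℝ E := LinearMap.ker (aeval T Q) with hEs
  set Eu : Submodule ℝ E := LinearMap.ker (aeval T R) with hEu
  have hinv : ∀ (P : ℝ[X]) (v : E), v ∈ LinearMap.ker (aeval T P) →
      T v ∈ LinearMap.ker (aeval T P) := by
    intro P v hv
    rw [LinearMap.mem_ker] at hv ⊢
    have : aeval T P (T v) = T (aeval T P v) := by
      have e1 : aeval T P (T v) = aeval T (P * X) v := by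
        rw [map_mul, aeval_X]; rfl
      have e2 : T (aeval T P v) = aeval T (X * P) v := by
        rw [map_mul, aeval_X]; rfl
      rw [e1, e2, mul_comm]
    rw [this, hv, map_zero]
  have hcompl : IsCompl Es Eu := by
    refine ⟨disjoint_ker_aeval_of_isCoprime T hcop, ?_⟩
    rw [codisjoint_iff, hEs, hEu, sup_ker_aeval_eq_ker_aeval_mul_of_coprime T hcop, ← hQR,
      minpoly.aeval]
    exact LinearMap.ker_zero
  obtain ⟨C₁, μ₁, hC₁, hμ₁, hμ₁', hdec⟩ := decay D Q hQ0 hQ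
  -- the unstable part
  let Tu : Eu →ₗ[ℝ] Eu := T.restrict (hinv R)
  have hTu : Function.Injective Tu := by
    rw [injective_iff_map_eq_zero]
    rintro ⟨v, hv⟩ h0
    have h1 : T v = 0 := congrArg Subtype.val h0
    -- `R(0) ≠ 0`
    by_contra hne
    have hv0 : v ≠ 0 := fun hv0 => hne (Subtype.ext hv0)
    have h2 : ∀ P : ℝ[X], aeval T P v = P.eval 0 • v := by
      intro P
      induction P using Polynomial.induction_on with
      | C a => rw [aeval_C, Module.algebraMap_end_apply, eval_C]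
      | add p q hp hq => rw [map_add, LinearMap.add_apply, hp, hq, eval_add, add_smul]
      | monomial n a ih =>
        have e : (C a * X ^ (n + 1) : ℝ[X]) = C a * X ^ n * X := by ring
        rw [e, map_mul (aeval T) (C a * X ^ n), aeval_X, Module.End.mul_apply, h1, map_zero,
          eval_mul, eval_X, mul_zero, zero_smul]
    have h3 := h2 R
    rw [LinearMap.mem_ker.1 hv] at h3
    have h4 : R.eval 0 = 0 := (smul_eq_zero.1 h3.symm).resolve_right hv0
    have h5 : aeval (0 : ℂ) R = 0 := by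
      have := aeval_algebraMap_apply ℂ (0 : ℝ) R
      rw [coe_aeval_eq_eval, h4, map_zero] at this
      exact this
    have h6 := hR 0 h5
    rw [norm_zero] at h6
    linarith
  let Se : Eu ≃ₗ[ℝ] Eu := LinearEquiv.ofInjectiveEndo Tu hTu
  let S : Module.End ℝ Eu := Se.symm.toLinearMap
  have hST : ∀ v, S (Tu v) = v := fun v => Se.symm_apply_apply v
  have hTS : ∀ v, Tu (S v) = v := fun v => Se.apply_symm_apply v
  have hintS : IsIntegral ℝ S := Algebra.IsIntegral.isIntegral S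
  have hRu : aeval (Tu : Module.End ℝ Eu) R = 0 := by
    ext v
    have h1 : ∀ P : ℝ[X], ∀ v : Eu, ((aeval (Tu : Module.End ℝ Eu) P v : Eu) : E) = aeval T P v := by
      intro P
      induction P using Polynomial.induction_on with
      | C a =>
        intro v
        rw [aeval_C, aeval_C, Module.algebraMap_end_apply, Module.algebraMap_end_apply]; rfl
      | add p q hp hq =>
        intro v
        rw [map_add, map_add, LinearMap.add_apply, LinearMap.add_apply, Submodule.coe_add, hp, hq]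
      | monomial n a ih =>
        intro v
        have e : (C a * X ^ (n + 1) : ℝ[X]) = C a * X ^ n * X := by ring
        rw [e, map_mul (aeval T) (C a * X ^ n), map_mul (aeval (Tu : Module.End ℝ Eu)) (C a * X ^ n),
          aeval_X, aeval_X, Module.End.mul_apply, Module.End.mul_apply, ih]
        rfl
    rw [h1, LinearMap.mem_ker.1 v.2]
    rfl
  have hSroots : ∀ z : ℂ, aeval z (minpoly ℝ S) = 0 → ‖z‖ < 1 := by
    intro z hz
    obtain ⟨v, w, hvw, hv, hw⟩ := eig_of_root S z hz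
    have hint := pairMap_intertw S v w z hv hw
    have hφ : pairMap v w ≠ 0 := by
      intro h0
      have h1 : pairMap v w 1 = 0 := by rw [h0]; rfl
      have h2 : pairMap v w Complex.I = 0 := by rw [h0]; rfl
      rw [pairMap_apply] at h1 h2
      simp only [Complex.one_re, one_smul, Complex.one_im, zero_smul, sub_zero, Complex.I_re,
        Complex.I_im, zero_sub, neg_eq_zero] at h1 h2
      exact hvw.elim (fun h => h h1) (fun h => h h2)
    have hz0 : z ≠ 0 := by
      rintro rfl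
      apply hφ
      ext u
      have h1 := hint u
      rw [zero_mul, map_zero] at h1
      have h2 := congrArg Tu h1
      rw [hTS, map_zero] at h2
      rw [h2]; rfl
    have h1 : ∀ u, (Tu : Module.End ℝ Eu) (pairMap v w u) = pairMap v w (z⁻¹ * u) := by
      intro u
      have h2 := hint (z⁻¹ * u)
      rw [← mul_assoc, mul_inv_cancel₀ hz0, one_mul] at h2
      rw [← h2]
      exact hTS _
    have h3 := root_of_eig (Tu : Module.End ℝ Eu) R hRu (pairMap v w) hφ z⁻¹ h1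
    have h4 := hR _ h3
    rw [norm_inv] at h4
    exact (one_lt_inv₀ (norm_pos_iff.2 hz0)).1 h4
  obtain ⟨C₂, μ₂, hC₂, hμ₂, hμ₂', hdec₂⟩ := decay (LinearMap.toContinuousLinearMap S)
    (minpoly ℝ S) (minpoly.ne_zero hintS) hSroots
  have hSn : ∀ (n : ℕ) (v : Eu), (S ^ n) ((Tu ^ n) v) = v := by
    intro n
    induction n with
    | zero => intro v; rfl
    | succ n ih =>
      intro v
      rw [pow_succ', pow_succ, Module.End.mul_apply, Module.End.mul_apply]
      have h1 : (S ^ n) ((Tu ^ n) (Tu v)) = Tu v := ih (Tu v)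
      rw [h1, hST]
  have hTn : ∀ (n : ℕ) (v : Eu), ((Tu ^ n) v : E) = (D ^ n) (v : E) := by
    intro n
    induction n with
    | zero => intro v; rfl
    | succ n ih =>
      intro v
      rw [pow_succ, pow_succ, Module.End.mul_apply, ih]
      rfl
  set C := max C₁ C₂ with hC
  set μ := max μ₁ μ₂ with hμ
  have hCpos : 0 < C := lt_max_of_lt_left hC₁
  have hμpos : 0 < μ := lt_max_of_lt_left hμ₁
  refine ⟨Es, Eu, C, μ, hcompl, hinv Q, hinv R, hCpos, hμpos, max_lt hμ₁' hμ₂', ?_, ?_⟩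
  · intro v hv n
    refine (hdec v hv n).trans ?_
    apply mul_le_mul_of_nonneg_right _ (norm_nonneg _)
    exact mul_le_mul (le_max_left _ _) (pow_le_pow_left₀ hμ₁.le (le_max_left _ _) n)
      (pow_nonneg hμ₁.le n) hCpos.le
  · intro v hv n
    have hker : (Tu ^ n) ⟨v, hv⟩ ∈ LinearMap.ker (aeval
        ((LinearMap.toContinuousLinearMap S : Eu →L[ℝ] Eu) : Module.End ℝ Eu) (minpoly ℝ S)) := by
      rw [LinearMap.mem_ker]
      have : ((LinearMap.toContinuousLinearMap S : Eu →L[ℝ] Eu) : Module.End ℝ Eu) = S :=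
        LinearMap.coe_toContinuousLinearMap S
      rw [this, minpoly.aeval]; rfl
    have h1 := hdec₂ _ hker n
    rw [coe_pow_apply] at h1
    have h2 : ((LinearMap.toContinuousLinearMap S : Eu →L[ℝ] Eu) : Module.End ℝ Eu) = S :=
      LinearMap.coe_toContinuousLinearMap S
    rw [h2, hSn] at h1
    have h3 : ‖(Tu ^ n) ⟨v, hv⟩‖ = ‖(D ^ n) v‖ := by
      rw [← hTn n ⟨v, hv⟩]; rfl
    rw [h3] at h1
    have h4 : ‖(⟨v, hv⟩ : Eu)‖ = ‖v‖ := rfl
    rw [h4] at h1
    refine h1.trans ?_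
    apply mul_le_mul_of_nonneg_right _ (norm_nonneg _)
    exact mul_le_mul (le_max_right _ _) (pow_le_pow_left₀ hμ₂.le (le_max_right _ _) n)
      (pow_nonneg hμ₂.le n) hCpos.le

open LinAux Polynomial in
theorem eventually_hypLin_smul (D : E →L[ℝ] E) :
    ∀ᶠ t : ℝ in 𝓝[≠] 0, HypLin ((1 + t) • D) := by
  set T : Module.End ℝ E := (D : E →ₗ[ℝ] E) with hT
  have hint : IsIntegral ℝ T := Algebra.IsIntegral.isIntegral T
  have hP0 : minpoly ℝ T ≠ 0 := minpoly.ne_zero hint
  have hfin : {z : ℂ | aeval z (minpoly ℝ T) = 0}.Finite := by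
    have h1 := ((minpoly ℝ T).map (algebraMap ℝ ℂ)).roots.toFinset.finite_toSet
    refine h1.subset fun z hz => ?_
    have h2 : (minpoly ℝ T).map (algebraMap ℝ ℂ) ≠ 0 := (Polynomial.map_ne_zero_iff
      (algebraMap ℝ ℂ).injective).2 hP0
    rw [Finset.mem_coe, Multiset.mem_toFinset, mem_roots h2, IsRoot.def, eval_map_algebraMap]
    exact hz
  have hbad : ∀ z ∈ {z : ℂ | aeval z (minpoly ℝ T) = 0},
      ∀ᶠ t : ℝ in 𝓝[≠] 0, |1 + t| * ‖z‖ ≠ 1 := by
    intro z _
    by_cases hz : ‖z‖ = 1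
    · have h1 : ∀ᶠ t : ℝ in 𝓝[≠] 0, t ≠ 0 := eventually_mem_nhdsWithin
      have h2 : ∀ᶠ t : ℝ in 𝓝[≠] 0, -1 < t :=
        (eventually_gt_nhds (by norm_num : (-1 : ℝ) < 0)).filter_mono nhdsWithin_le_nhds
      filter_upwards [h1, h2] with t ht1 ht2
      rw [hz, mul_one, abs_of_pos (by linarith)]
      intro h3
      exact ht1 (by linarith)
    · have h1 : ContinuousAt (fun t : ℝ => |1 + t| * ‖z‖) 0 := by fun_prop
      have h2 : ∀ᶠ t : ℝ in 𝓝 0, |1 + t| * ‖z‖ ≠ 1 := by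
        apply h1.eventually_ne
        simpa using hz
      exact h2.filter_mono nhdsWithin_le_nhds
  rw [← eventually_all_finite hfin] at hbad
  have h2 : ∀ᶠ t : ℝ in 𝓝[≠] 0, -1 < t :=
    (eventually_gt_nhds (by norm_num : (-1 : ℝ) < 0)).filter_mono nhdsWithin_le_nhds
  filter_upwards [hbad, h2] with t ht1 ht2
  intro θ v w hv hw
  by_contra hcon
  have ht0 : (1 + t) ≠ 0 := by linarith
  set c : ℝ := (1 + t)⁻¹ with hc
  have hv' : T v = (c * Real.cos θ) • v - (c * Real.sin θ) • w := by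
    have h3 : c • (((1 + t) • D) v) = T v := by
      rw [smul_apply, smul_smul, hc, inv_mul_cancel₀ ht0, one_smul]
      rfl
    rw [← h3, hv, smul_sub, smul_smul, smul_smul]
  have hw' : T w = (c * Real.sin θ) • v + (c * Real.cos θ) • w := by
    have h3 : c • (((1 + t) • D) w) = T w := by
      rw [smul_apply, smul_smul, hc, inv_mul_cancel₀ ht0, one_smul]
      rfl
    rw [← h3, hw, smul_add, smul_smul, smul_smul]
  set z : ℂ := (c : ℂ) * Complex.exp (θ * Complex.I) with hz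
  have hre : z.re = c * Real.cos θ := by
    rw [hz, Complex.re_ofReal_mul, Complex.exp_ofReal_mul_I_re]
  have him : z.im = c * Real.sin θ := by
    rw [hz, Complex.im_ofReal_mul, Complex.exp_ofReal_mul_I_im]
  rw [← hre, ← him] at hv' hw'
  have h4 : aeval z (minpoly ℝ T) = 0 := by
    refine root_of_eig T _ (minpoly.aeval _ _) (pairMap v w) ?_ _
      (pairMap_intertw _ v w _ hv' hw')
    intro h0
    have h1 : pairMap v w 1 = 0 := by rw [h0]; rfl
    have h2 : pairMap v w Complex.I = 0 := by rw [h0]; rfl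
    rw [pairMap_apply] at h1 h2
    simp only [Complex.one_re, one_smul, Complex.one_im, zero_smul, sub_zero, Complex.I_re,
      Complex.I_im, zero_sub, neg_eq_zero] at h1 h2
    exact hcon ⟨h1, h2⟩
  apply ht1 z h4
  rw [hz, norm_mul, Complex.norm_exp_ofReal_mul_I, mul_one, Complex.norm_real, Real.norm_eq_abs,
    ← abs_mul, hc, mul_inv_cancel₀ ht0, abs_one]

theorem exists_small_transverse (V W : Submodule ℝ E)
    (hVW : Module.finrank ℝ V + Module.finrank ℝ W ≤ Module.finrank ℝ E) (ε : ℝ) (hε : 0 < ε) :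
    ∃ L : E →L[ℝ] E, ‖L‖ < ε ∧ ∀ v ∈ V, v + L v ∈ W → v = 0 := by
  obtain ⟨W', hW'⟩ := Submodule.exists_isCompl W
  have hdim := Submodule.finrank_add_eq_of_isCompl hW'
  obtain ⟨j, hj⟩ := (finrank_le_iff_exists_linearMap (R := ℝ) (M := V) (M' := W')).1 (by omega)
  obtain ⟨K, hK⟩ := LinearMap.exists_extend (W'.subtype ∘ₗ j)
  have hKV : ∀ v : V, K v = j v := fun v => LinearMap.congr_fun hK v
  let A0 : V →ₗ[ℝ] E ⧸ W := W.mkQ ∘ₗ V.subtype
  let A1 : V →ₗ[ℝ] E ⧸ W := W.mkQ ∘ₗ W'.subtype ∘ₗ j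
  have hA1 : LinearMap.ker A1 = ⊥ := by
    rw [LinearMap.ker_eq_bot, injective_iff_map_eq_zero]
    intro v hv
    have h1 : ((j v : W') : E) ∈ W := (Submodule.Quotient.mk_eq_zero W).1 hv
    have h2 : ((j v : W') : E) = 0 := by
      have := Submodule.disjoint_def.1 hW'.disjoint _ h1 (j v).2
      exact this
    have h3 : j v = 0 := Subtype.ext h2
    exact hj (by rw [h3, map_zero])
  obtain ⟨B, hB⟩ := A1.exists_leftInverse_of_injective hA1
  have hfin := Module.End.finite_hasEigenvalue (R := ℝ) (M := V) (B ∘ₗ A0)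
  have h1 : ∀ᶠ t : ℝ in 𝓝[≠] 0, ¬ Module.End.HasEigenvalue (B ∘ₗ A0 : Module.End ℝ V) (-t) := by
    have h2 : {t : ℝ | Module.End.HasEigenvalue (B ∘ₗ A0 : Module.End ℝ V) (-t)}.Finite :=
      hfin.preimage neg_injective.injOn
    have h3 := nhdsNE_le_cofinite (0 : ℝ) h2.compl_mem_cofinite
    exact h3
  have h2 : ∀ᶠ t : ℝ in 𝓝[≠] 0, ‖t • LinearMap.toContinuousLinearMap K‖ < ε := by
    have h3 : ContinuousAt (fun t : ℝ => ‖t • LinearMap.toContinuousLinearMap K‖) 0 := by fun_prop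
    have h4 : ∀ᶠ t : ℝ in 𝓝 0, ‖t • LinearMap.toContinuousLinearMap K‖ < ε := by
      apply h3.eventually_lt continuousAt_const
      simpa using hε
    exact h4.filter_mono nhdsWithin_le_nhds
  obtain ⟨t, ht1, ht2⟩ := (h1.and h2).exists
  refine ⟨t • LinearMap.toContinuousLinearMap K, ht2, fun v hv hvW => ?_⟩
  by_contra hv0
  apply ht1
  have h5 : A0 ⟨v, hv⟩ + t • A1 ⟨v, hv⟩ = 0 := by
    have h6 : W.mkQ (v + (t • LinearMap.toContinuousLinearMap K) v) = 0 :=
      (Submodule.Quotient.mk_eq_zero W).2 hvW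
    rw [map_add] at h6
    have h7 : (t • LinearMap.toContinuousLinearMap K) v = t • ((j ⟨v, hv⟩ : W') : E) := by
      rw [← hKV ⟨v, hv⟩]; rfl
    rw [h7, map_smul] at h6
    exact h6
  have h8 : (B ∘ₗ A0) ⟨v, hv⟩ = (-t) • (⟨v, hv⟩ : V) := by
    have h9 := congrArg B h5
    rw [map_add, map_smul, map_zero] at h9
    have h10 : B (A1 ⟨v, hv⟩) = ⟨v, hv⟩ := LinearMap.congr_fun hB ⟨v, hv⟩
    rw [h10] at h9
    rw [neg_smul, eq_neg_iff_add_eq_zero]
    exact h9
  apply Module.End.hasEigenvalue_of_hasEigenvector (x := ⟨v, hv⟩)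
  rw [Module.End.hasEigenvector_iff, Module.End.mem_eigenspace_iff]
  exact ⟨h8, fun h => hv0 (congrArg Subtype.val h)⟩

end Main

end Pool.Agent.OmegaStab
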