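import Mathlib

/-!
# Omega-stability, Axiom A and the no-cycle property: the notions in the statement of the result

`E` is a finite-dimensional real vector space, `M` a closed smooth manifold modelled on `E` (with
a metric inducing its topology), and `r` a natural number or infinity.
-/

open Set Filter Topology
open scoped Manifold ContDiff

noncomputable section

namespace Pool.Agent.OmegaStability

section Topological

variable {M : Type*}

/-- The nonwandering set of `f`. -/
def Omega [TopologicalSpace M] (f : M → M) : Set M :=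
  {x | ∀ U ∈ 𝓝 x, ∃ n : ℕ, 0 < n ∧ (f^[n] '' U ∩ U).Nonempty}

/-- All recurrent points of `f` (the limit points of their own forward orbits) are periodic. -/
def TrivialRecurrence [TopologicalSpace M] (f : M → M) : Prop :=
  ∀ x : M, MapClusterPt x atTop (fun n : ℕ => f^[n] x) → x ∈ Function.periodicPts f

/-- `f` and `g` are conjugate on their nonwandering sets. -/
def OmegaConjugate [TopologicalSpace M] (f g : M → M) : Prop :=
  ∃ h : Omega f ≃ₜ Omega g, ∀ x y : Omega f, (y : M) = f x → (h y : M) = g (h x)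

/-- A piece of the spectral decomposition: a closed invariant subset of the nonwandering
set which is open in the nonwandering set and contains a dense orbit. -/
def IsPiece [TopologicalSpace M] (f : M → M) (S : Set M) : Prop :=
  S ⊆ Omega f ∧ IsClosed S ∧ f '' S = S ∧ (∃ U, IsOpen U ∧ S = U ∩ Omega f) ∧
    ∃ x ∈ S, S ⊆ closure (range fun n : ℕ => f^[n] x)

/-- The stable set of `A`: the union of the stable sets of its points. -/
def StableSet [MetricSpace M] (f : M → M) (A : Set M) : Set M :=
  {y | ∃ x ∈ A, Tendsto (fun n : ℕ => dist (f^[n] x) (f^[n] y)) atTop (𝓝 0)}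

/-- The homeomorphism `f`, with inverse `f'`, has no cycles: there are no distinct pieces
`S 0, ..., S (k-1)`, `k > 1`, with `W^s(S (i+1)) ∩ W^u(S i)` nonempty for all `i` cyclically. -/
def NoCycleProperty [MetricSpace M] (f f' : M → M) : Prop :=
  ∀ k : ℕ, 1 < k → ∀ S : ZMod k → Set M, (∀ i, IsPiece f (S i)) → Function.Injective S →
    ∃ i : ZMod k, StableSet f (S (i + 1)) ∩ StableSet f' (S i) = ∅

end Topological

section Cr

variable {E : Type*} [NormedAddCommGroup E] [NormedSpace ℝ E]
  {M : Type*} [MetricSpace M] [ChartedSpace E M]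

/-- The expression of `g : M → M` in the charts of `M` at `x` and at `y`. -/
def chartExpr (x y : M) (g : M → M) : E → E :=
  fun u => extChartAt 𝓘(ℝ, E) y (g ((extChartAt 𝓘(ℝ, E) x).symm u))

variable (E) in
/-- `g` maps the points of `K` into the chart domain at `y` and the `k`-th derivative of `g`, in
the charts at `x` and `y`, is on `K` less than `ε` away from that of `f`. -/
def CrClose (x y : M) (K : Set M) (k : ℕ) (ε : ℝ) (f g : M → M) : Prop :=
  ∀ z ∈ K, g z ∈ (extChartAt 𝓘(ℝ, E) y).source ∧
    ‖iteratedFDeriv ℝ k (chartExpr x y g) (extChartAt 𝓘(ℝ, E) x z) -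
      iteratedFDeriv ℝ k (chartExpr x y f) (extChartAt 𝓘(ℝ, E) x z)‖ < ε

variable (E M) in
/-- The `C^r` diffeomorphisms of `M`. -/
abbrev Diffeo (r : ℕ∞) : Type _ := Diffeomorph 𝓘(ℝ, E) 𝓘(ℝ, E) M M (r : ℕ∞ω)

/-- The subbasic open sets of the `C^r` topology. -/
def crSubbasis (r : ℕ∞) : Set (Set (Diffeo E M r)) :=
  {S | ∃ (f : Diffeo E M r) (x y : M) (K : Set M) (k : ℕ) (ε : ℝ),
      IsCompact K ∧ K ⊆ (extChartAt 𝓘(ℝ, E) x).source ∧
      MapsTo f K (extChartAt 𝓘(ℝ, E) y).source ∧ (k : ℕ∞) ≤ r ∧ 0 < ε ∧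
      S = {g : Diffeo E M r | CrClose E x y K k ε f g}}

/-- The open sets of the `C^r` topology (uniform convergence of all derivatives of order at
most `r`). -/
def CrOpen (r : ℕ∞) (N : Set (Diffeo E M r)) : Prop :=
  TopologicalSpace.GenerateOpen (crSubbasis r) N

/-- `f` is `C^r` Omega-stable: all `g` in some `C^r` neighbourhood of `f` are conjugate to `f` on
the nonwandering sets. -/
def OmegaStable {r : ℕ∞} (f : Diffeo E M r) : Prop :=
  ∃ N, CrOpen r N ∧ f ∈ N ∧ ∀ g ∈ N, OmegaConjugate f g

/-- `f` is a `C^r` limit of diffeomorphisms with trivial recurrence: every `C^r` neighbourhood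
of `f` contains one. -/
def LimitOfTrivialRecurrence {r : ℕ∞} (f : Diffeo E M r) : Prop :=
  ∀ N, CrOpen r N → f ∈ N → ∃ g ∈ N, TrivialRecurrence g

/-- The nonwandering set of `f` is finite. -/
def FiniteOmega {r : ℕ∞} (f : Diffeo E M r) : Prop := (Omega f).Finite

/-- `f` has the no-cycle property. -/
def HasNoCycles {r : ℕ∞} (f : Diffeo E M r) : Prop := NoCycleProperty f f.symm

end Cr

section Hyperbolic

variable (E : Type*) [NormedAddCommGroup E] [NormedSpace ℝ E]
  (M : Type*) [MetricSpace M] [ChartedSpace E M] [IsManifold 𝓘(ℝ, E) ∞ M]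

/-- The continuous Riemannian metrics on `M`. -/
abbrev RMetric : Type _ :=
  Bundle.ContinuousRiemannianMetric E (fun x : M => TangentSpace 𝓘(ℝ, E) x)

omit [IsManifold 𝓘(ℝ, E) ∞ M] in
/-- The families of linear subspaces of the tangent spaces of `M`. -/
abbrev TFamily : Type _ := (x : M) → Submodule ℝ (TangentSpace 𝓘(ℝ, E) x)

variable {E M}

/-- The norm of a tangent vector. -/
def rnorm (γ : RMetric E M) (x : M) (v : TangentSpace 𝓘(ℝ, E) x) : ℝ := √(γ.inner x v v)

/-- The family `V` of subspaces is closed over `Λ`. -/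
def ClosedOver (V : TFamily E M) (Λ : Set M) : Prop :=
  IsClosed {v : TangentBundle 𝓘(ℝ, E) M | v.1 ∈ Λ ∧ v.2 ∈ V v.1}

/-- The derivative of `g` maps `V` into itself over `Λ`. -/
def InvariantOver (g : M → M) (V : TFamily E M) (Λ : Set M) : Prop :=
  ∀ x ∈ Λ, ∀ v ∈ V x, mfderiv 𝓘(ℝ, E) 𝓘(ℝ, E) g x v ∈ V (g x)

/-- The derivatives of the iterates of `g` contract `V` over `Λ`, with constants `c` and `μ`. -/
def ContractedOver (g : M → M) (γ : RMetric E M) (V : TFamily E M) (Λ : Set M) (c μ : ℝ) :
    Prop :=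
  ∀ x ∈ Λ, ∀ v ∈ V x, ∀ n : ℕ,
    rnorm γ (g^[n] x) (mfderiv 𝓘(ℝ, E) 𝓘(ℝ, E) g^[n] x v) ≤ c * μ ^ n * rnorm γ x v

variable (E) in
/-- A hyperbolic structure for `f`, with inverse `f'`, on the closed invariant set `Λ`: a
continuous invariant splitting `T_Λ M = E^s ⊕ E^u` into a uniformly contracted and a uniformly
expanded bundle, for some continuous Riemannian metric. The continuity of the splitting is the
closedness of the two complementary subbundles over `Λ`. -/
def HyperbolicStructure (f f' : M → M) (Λ : Set M) : Prop :=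
  ∃ Es Eu : TFamily E M, ClosedOver Es Λ ∧ ClosedOver Eu Λ ∧ (∀ x ∈ Λ, IsCompl (Es x) (Eu x)) ∧
    InvariantOver f Es Λ ∧ InvariantOver f Eu Λ ∧
    ∃ (γ : RMetric E M) (c μ : ℝ), 0 < c ∧ 0 < μ ∧ μ < 1 ∧
      ContractedOver f γ Es Λ c μ ∧ ContractedOver f' γ Eu Λ c μ

/-- `f` satisfies Axiom A: its nonwandering set has a hyperbolic structure and the periodic points
are dense in it. -/
def SatisfiesAxiomA {r : ℕ∞} (f : Diffeo E M r) : Prop :=
  HyperbolicStructure E f f.symm (Omega f) ∧ Omega f ⊆ closure (Function.periodicPts f)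

end Hyperbolic

end Pool.Agent.OmegaStability
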