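import Mathlib

/-!
# Lifts of Moebius maps of the circle, their perturbed orbits, and chords: definitions
-/

open Set Filter Topology

noncomputable section

namespace Pool.Agent.OmegaStability

/-- `L` is a lift to the real line of a projective map of the circle, with derivative `D`. -/
structure MLift (L D : ℝ → ℝ) : Prop where
  deriv : ∀ θ, HasDerivAt L (D θ) θ
  pos : ∀ θ, 0 < D θ
  per : ∀ θ, L (θ + 2 * Real.pi) = L θ + 2 * Real.pi
  chord : ∀ θ η, Real.sin ((L θ - L η) / 2) ^ 2 = D θ * D η * Real.sin ((θ - η) / 2) ^ 2

/-- The orbit of `θ` under the maps `L 0 + t`, `L 1 + t`, ... -/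
def orb (L : ℕ → ℝ → ℝ) (t : ℝ) : ℕ → ℝ → ℝ
  | 0, θ => θ
  | j + 1, θ => L j (orb L t j θ) + t

open Classical in
/-- The length of the chord of the circle between two points of a fibre of a free circle action
(zero for points of different fibres). -/
def chord {M : Type*} [MulAction Circle M] (y y' : M) : ℝ :=
  if h : ∃ z : Circle, z • y = y' then ‖((Classical.choose h : Circle) : ℂ) - 1‖ else 0

end Pool.Agent.OmegaStability
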