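import Pool.Agent.Work.MP_814647_an.Basic

/-!
# Local affine families of diffeomorphisms
-/

open Set Filter Topology Function
open scoped Manifold ContDiff

noncomputable section

namespace Pool.Agent.OmegaStab

namespace Fam

section Transport

variable {d : ℕ} {M : Type*} [MetricSpace M] [ChartedSpace (EE d) M]

open Classical in
/-- Transport of a self-map of the model space to the manifold, by the chart at `q`. -/
def T (q : M) (H : EE d → EE d) (x : M) : M :=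
  if x ∈ (extChartAt (𝓡 d) q).source then
    (extChartAt (𝓡 d) q).symm (H (extChartAt (𝓡 d) q x)) else x

theorem T_of_mem {q : M} {H : EE d → EE d} {x : M} (hx : x ∈ (extChartAt (𝓡 d) q).source) :
    T q H x = (extChartAt (𝓡 d) q).symm (H (extChartAt (𝓡 d) q x)) :=
  if_pos hx

theorem T_of_notMem {q : M} {H : EE d → EE d} {x : M}
    (hx : x ∉ (extChartAt (𝓡 d) q).source) : T q H x = x :=
  if_neg hx

/-- `H` is the identity outside `K` and maps `K` into itself. -/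
def Supp (K : Set (EE d)) (H : EE d → EE d) : Prop :=
  (∀ x ∉ K, H x = x) ∧ ∀ x ∈ K, H x ∈ K

theorem Supp.mapsTo_target {K : Set (EE d)} {H : EE d → EE d} (h : Supp K H) {q : M}
    (hK : K ⊆ (extChartAt (𝓡 d) q).target) {x : EE d} (hx : x ∈ (extChartAt (𝓡 d) q).target) :
    H x ∈ (extChartAt (𝓡 d) q).target := by
  by_cases hxK : x ∈ K
  · exact hK (h.2 x hxK)
  · rwa [h.1 x hxK]

theorem T_comp {K : Set (EE d)} {H G : EE d → EE d} (hG : Supp K G) {q : M}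
    (hK : K ⊆ (extChartAt (𝓡 d) q).target) (hinv : ∀ x, H (G x) = x) (x : M) :
    T q H (T q G x) = x := by
  by_cases hx : x ∈ (extChartAt (𝓡 d) q).source
  · rw [T_of_mem hx]
    have h1 : G (extChartAt (𝓡 d) q x) ∈ (extChartAt (𝓡 d) q).target :=
      hG.mapsTo_target hK ((extChartAt (𝓡 d) q).map_source hx)
    rw [T_of_mem ((extChartAt (𝓡 d) q).map_target h1), (extChartAt (𝓡 d) q).right_inv h1, hinv,
      (extChartAt (𝓡 d) q).left_inv hx]
  · rw [T_of_notMem hx, T_of_notMem hx]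

theorem T_eq_self {K : Set (EE d)} {H : EE d → EE d} (hH : Supp K H) {q : M} {x : M}
    (hx : x ∉ (extChartAt (𝓡 d) q).symm '' K) : T q H x = x := by
  by_cases hxs : x ∈ (extChartAt (𝓡 d) q).source
  · rw [T_of_mem hxs]
    have : extChartAt (𝓡 d) q x ∉ K := fun h => hx ⟨_, h, (extChartAt (𝓡 d) q).left_inv hxs⟩
    rw [hH.1 _ this, (extChartAt (𝓡 d) q).left_inv hxs]
  · exact T_of_notMem hxs

theorem T_contMDiffOn [IsManifold (𝓡 d) ∞ M] {V : Type*} [NormedAddCommGroup V]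
    [NormedSpace ℝ V] {r : ℕ∞} {K : Set (EE d)} (hKc : IsCompact K) {q : M}
    (hK : K ⊆ (extChartAt (𝓡 d) q).target) {U₀ : Set V} (hU₀ : IsOpen U₀)
    {H : V → EE d → EE d} (hH : ∀ v ∈ U₀, Supp K (H v))
    (hs : ContDiffOn ℝ r (fun p : V × EE d => H p.1 p.2) (U₀ ×ˢ univ)) :
    ContMDiffOn (𝓘(ℝ, V).prod (𝓡 d)) (𝓡 d) r (fun p : V × M => T q (H p.1) p.2)
      (U₀ ×ˢ univ) := by
  have : IsManifold (𝓡 d) (r : ℕ∞ω) M := IsManifold.of_le (n := ∞) (by exact_mod_cast le_top)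
  rintro ⟨v, x⟩ ⟨hv, -⟩
  by_cases hx : x ∈ (extChartAt (𝓡 d) q).source
  · -- in the chart
    have hopen : IsOpen (U₀ ×ˢ (extChartAt (𝓡 d) q).source) :=
      hU₀.prod (isOpen_extChartAt_source q)
    have hfst : ContMDiff (𝓘(ℝ, V).prod (𝓡 d)) 𝓘(ℝ, V) r (Prod.fst : V × M → V) :=
      contMDiff_fst
    have hsnd : ContMDiff (𝓘(ℝ, V).prod (𝓡 d)) (𝓡 d) r (Prod.snd : V × M → M) :=
      contMDiff_snd
    have h1 : ContMDiffOn (𝓘(ℝ, V).prod (𝓡 d)) 𝓘(ℝ, EE d) r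
        (fun p : V × M => extChartAt (𝓡 d) q p.2) (U₀ ×ˢ (extChartAt (𝓡 d) q).source) := by
      refine (contMDiffOn_extChartAt (I := 𝓡 d) (x := q) (n := (r : ℕ∞ω))).comp
        hsnd.contMDiffOn ?_
      rintro ⟨w, y⟩ ⟨hw, hy⟩
      rw [extChartAt_source] at hy
      exact hy
    have h2 : ContMDiffOn (𝓘(ℝ, V).prod (𝓡 d)) 𝓘(ℝ, V × EE d) r
        (fun p : V × M => (p.1, extChartAt (𝓡 d) q p.2))
        (U₀ ×ˢ (extChartAt (𝓡 d) q).source) :=
      hfst.contMDiffOn.prodMk_space h1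
    have h3 : ContMDiffOn (𝓘(ℝ, V).prod (𝓡 d)) 𝓘(ℝ, EE d) r
        (fun p : V × M => H p.1 (extChartAt (𝓡 d) q p.2))
        (U₀ ×ˢ (extChartAt (𝓡 d) q).source) := by
      refine hs.contMDiffOn.comp h2 ?_
      rintro ⟨w, y⟩ ⟨hw, hy⟩
      exact ⟨hw, mem_univ _⟩
    have h4 : ContMDiffOn (𝓘(ℝ, V).prod (𝓡 d)) (𝓡 d) r
        (fun p : V × M => (extChartAt (𝓡 d) q).symm (H p.1 (extChartAt (𝓡 d) q p.2)))
        (U₀ ×ˢ (extChartAt (𝓡 d) q).source) := by
      refine (contMDiffOn_extChartAt_symm (I := 𝓡 d) (n := (r : ℕ∞ω)) q).comp h3 ?_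
      rintro ⟨w, y⟩ ⟨hw, hy⟩
      exact (hH w hw).mapsTo_target hK ((extChartAt (𝓡 d) q).map_source hy)
    have h5 := h4.contMDiffAt (hopen.mem_nhds (show (v, x) ∈ _ from ⟨hv, hx⟩))
    refine (h5.congr_of_eventuallyEq ?_).contMDiffWithinAt
    filter_upwards [hopen.mem_nhds (show (v, x) ∈ _ from ⟨hv, hx⟩)] with p hp
    exact T_of_mem hp.2
  · -- outside the support
    have hcl : IsClosed ((extChartAt (𝓡 d) q).symm '' K) :=
      (hKc.image_of_continuousOn ((continuousOn_extChartAt_symm q).mono hK)).isClosed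
    have hxK : x ∉ (extChartAt (𝓡 d) q).symm '' K := by
      rintro ⟨y, hy, rfl⟩
      exact hx ((extChartAt (𝓡 d) q).map_target (hK hy))
    have hopen : IsOpen (U₀ ×ˢ ((extChartAt (𝓡 d) q).symm '' K)ᶜ) := hU₀.prod hcl.isOpen_compl
    have hsnd : ContMDiff (𝓘(ℝ, V).prod (𝓡 d)) (𝓡 d) r (Prod.snd : V × M → M) :=
      contMDiff_snd
    refine (hsnd.contMDiffAt.congr_of_eventuallyEq ?_).contMDiffWithinAt
    filter_upwards [hopen.mem_nhds (show (v, x) ∈ _ from ⟨hv, hxK⟩)] with p hp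
    exact T_eq_self (hH p.1 hp.1) hp.2

theorem T_contMDiff [IsManifold (𝓡 d) ∞ M] {r : ℕ∞} {K : Set (EE d)} (hKc : IsCompact K) {q : M}
    (hK : K ⊆ (extChartAt (𝓡 d) q).target) {H : EE d → EE d} (hH : Supp K H)
    (hs : ContDiff ℝ r H) : ContMDiff (𝓡 d) (𝓡 d) r (T q H) := by
  have h1 := T_contMDiffOn (V := ℝ) (r := r) hKc hK isOpen_univ (H := fun _ => H)
    (fun _ _ => hH) ((hs.comp contDiff_snd).contDiffOn)
  have h2 : ContMDiff (𝓡 d) (𝓘(ℝ, ℝ).prod (𝓡 d)) r (fun x : M => ((0 : ℝ), x)) :=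
    contMDiff_const.prodMk contMDiff_id
  rw [univ_prod_univ, contMDiffOn_univ] at h1
  exact h1.comp h2

/-- The transported diffeomorphism. -/
def TD [IsManifold (𝓡 d) ∞ M] {r : ℕ∞} {K : Set (EE d)} (hKc : IsCompact K) {q : M}
    (hK : K ⊆ (extChartAt (𝓡 d) q).target) (H G : EE d → EE d) (hH : Supp K H)
    (hG : Supp K G) (hHs : ContDiff ℝ r H) (hGs : ContDiff ℝ r G)
    (hHG : ∀ x, H (G x) = x) (hGH : ∀ x, G (H x) = x) : Dyn d M r where
  toFun := T q H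
  invFun := T q G
  left_inv := T_comp hH hK hGH
  right_inv := T_comp hG hK hHG
  contMDiff_toFun := T_contMDiff hKc hK hH hHs
  contMDiff_invFun := T_contMDiff hKc hK hG hGs

theorem exists_TD [IsManifold (𝓡 d) ∞ M] {r : ℕ∞} {K : Set (EE d)} (hKc : IsCompact K) {q : M}
    (hK : K ⊆ (extChartAt (𝓡 d) q).target) (H G : EE d → EE d) (hH : Supp K H)
    (hG : Supp K G) (hHs : ContDiff ℝ r H) (hGs : ContDiff ℝ r G)
    (hHG : ∀ x, H (G x) = x) (hGH : ∀ x, G (H x) = x) : ∃ h : Dyn d M r, ∀ x, h x = T q H x :=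
  ⟨TD hKc hK H G hH hG hHs hGs hHG hGH, fun _ => rfl⟩

end Transport

section Euclid

variable {d : ℕ}

theorem exists_inv {g : EE d → EE d} {c : NNReal} (hc : c < 1) (hg : LipschitzWith c g)
    (hs : ContDiff ℝ ∞ g) :
    ∃ G : EE d → EE d, ContDiff ℝ ∞ G ∧ (∀ x, G (x + g x) = x) ∧ ∀ x, G x + g (G x) = x := by
  have happ : ApproximatesLinearOn (fun x => x + g x)
      ((ContinuousLinearEquiv.refl ℝ (EE d) : EE d ≃L[ℝ] EE d) : EE d →L[ℝ] EE d) univ c := by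
    intro x _ y _
    have h1 := hg.norm_sub_le x y
    have h2 : x + g x - (y + g y) -
        ((ContinuousLinearEquiv.refl ℝ (EE d) : EE d ≃L[ℝ] EE d) : EE d →L[ℝ] EE d) (x - y) =
        g x - g y := by
      simp only [ContinuousLinearEquiv.coe_coe, ContinuousLinearEquiv.coe_refl', id_eq]
      abel
    rw [h2]
    exact h1
  have hcc : Subsingleton (EE d) ∨
      c < ‖((ContinuousLinearEquiv.refl ℝ (EE d)).symm : EE d →L[ℝ] EE d)‖₊⁻¹ := by
    rcases subsingleton_or_nontrivial (EE d) with h | h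
    · exact Or.inl h
    · right
      have : ‖((ContinuousLinearEquiv.refl ℝ (EE d)).symm : EE d →L[ℝ] EE d)‖₊ = 1 := by
        have h3 : ((ContinuousLinearEquiv.refl ℝ (EE d)).symm : EE d →L[ℝ] EE d) =
          ContinuousLinearMap.id ℝ (EE d) := rfl
        rw [h3]
        exact ContinuousLinearMap.nnnorm_id
      rw [this, inv_one]
      exact hc
  set Φ := happ.toHomeomorph _ hcc with hΦ
  have hΦc : ∀ x, Φ x = x + g x := fun x => rfl
  have hder : ∀ x, ∃ A : EE d ≃L[ℝ] EE d, HasFDerivAt Φ (A : EE d →L[ℝ] EE d) x := by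
    intro x
    have h1 : HasFDerivAt g (fderiv ℝ g x) x := (hs.differentiable (by simp)).differentiableAt.hasFDerivAt
    have h2 : ‖fderiv ℝ g x‖ ≤ c := norm_fderiv_le_of_lipschitz ℝ hg
    have h3 : ‖-fderiv ℝ g x‖ < 1 := by
      rw [norm_neg]
      exact h2.trans_lt (by exact_mod_cast hc)
    refine ⟨ContinuousLinearEquiv.unitsEquiv ℝ (EE d) (Units.oneSub (-fderiv ℝ g x) h3), ?_⟩
    have h4 : HasFDerivAt (fun x => x + g x) (ContinuousLinearMap.id ℝ (EE d) + fderiv ℝ g x) x :=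
      (hasFDerivAt_id x).add h1
    have h5 : ((ContinuousLinearEquiv.unitsEquiv ℝ (EE d) (Units.oneSub (-fderiv ℝ g x) h3) :
        EE d ≃L[ℝ] EE d) : EE d →L[ℝ] EE d) = ContinuousLinearMap.id ℝ (EE d) + fderiv ℝ g x := by
      ext v
      simp
    rw [h5]
    exact h4
  choose A hA using hder
  refine ⟨Φ.symm, Φ.contDiff_symm hA ?_, fun x => ?_, fun x => ?_⟩
  · exact contDiff_id.add hs
  · rw [← hΦc]; exact Φ.symm_apply_apply x
  · rw [← hΦc]; exact Φ.apply_symm_apply x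

theorem supp_of {a : EE d} {R : ℝ} {g G : EE d → EE d}
    (hg : ∀ x ∉ Metric.closedBall a R, g x = 0)
    (h1 : ∀ x, G (x + g x) = x) (h2 : ∀ x, G x + g (G x) = x) :
    Supp (Metric.closedBall a R) (fun x => x + g x) ∧ Supp (Metric.closedBall a R) G := by
  refine ⟨⟨fun x hx => by simp [hg x hx], fun x hx => ?_⟩, ⟨fun x hx => ?_, fun x hx => ?_⟩⟩
  · by_contra h
    have h3 := h1 (x + g x)
    rw [hg _ h, add_zero, h1 x] at h3
    exact h (by simpa only [← h3] using hx)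
  · have h3 := h1 x
    rwa [hg x hx, add_zero] at h3
  · by_contra h
    have h3 := h2 x
    rw [hg _ h, add_zero] at h3
    exact h (h3.symm ▸ hx)

end Euclid

end Fam

variable {d : ℕ} {M : Type*} [MetricSpace M] [ChartedSpace (EE d) M] {r : ℕ∞}
  [IsManifold (𝓡 d) ∞ M]

namespace Fam

omit [MetricSpace M] [ChartedSpace (EE d) M] [IsManifold (𝓡 d) ∞ M] in
/-- The affine perturbation, cut off by `χ`. -/
def gg {a : EE d} (χ : ContDiffBump a) (π : PP d) (x : EE d) : EE d :=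
  χ x • π.1 + π.2 (χ x • (x - a))

theorem gg_contDiff {a : EE d} (χ : ContDiffBump a) :
    ContDiff ℝ ∞ (fun p : PP d × EE d => gg χ p.1 p.2) := by
  have h0 : ContDiff ℝ ∞ (fun p : PP d × EE d => χ p.2) := χ.contDiff.comp contDiff_snd
  have h1 : ContDiff ℝ ∞ (fun p : PP d × EE d => p.1.1) := contDiff_fst.comp contDiff_fst
  have h2 : ContDiff ℝ ∞ (fun p : PP d × EE d => p.1.2) := contDiff_snd.comp contDiff_fst
  have h3 : ContDiff ℝ ∞ (fun p : PP d × EE d => p.2 - a) := contDiff_snd.sub contDiff_const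
  exact (h0.smul h1).add (h2.clm_apply (h0.smul h3))

theorem gg_contDiff' {a : EE d} (χ : ContDiffBump a) (π : PP d) :
    ContDiff ℝ ∞ (gg χ π) := by
  have h0 : ContDiff ℝ ∞ (fun x : EE d => χ x) := χ.contDiff
  have h3 : ContDiff ℝ ∞ (fun x : EE d => π.2 (χ x • (x - a))) :=
    π.2.contDiff.comp (h0.smul (contDiff_id.sub contDiff_const))
  exact (h0.smul contDiff_const).add h3

theorem gg_lip {a : EE d} (χ : ContDiffBump a) :
    ∃ C : NNReal, ∀ π : PP d, LipschitzWith (C * ‖π‖₊) (gg χ π) := by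
  have h0 : ContDiff ℝ ∞ (fun x : EE d => χ x) := χ.contDiff
  obtain ⟨C0, hC0⟩ := h0.lipschitzWith_of_hasCompactSupport χ.hasCompactSupport (by simp)
  have h1 : ContDiff ℝ ∞ (fun x : EE d => χ x • (x - a)) :=
    χ.contDiff.smul (contDiff_id.sub contDiff_const)
  obtain ⟨C1, hC1⟩ := h1.lipschitzWith_of_hasCompactSupport (χ.hasCompactSupport.smul_right)
    (by simp)
  refine ⟨C0 + C1, fun π => LipschitzWith.of_dist_le_mul fun x y => ?_⟩
  have h2 : gg χ π x - gg χ π y = (χ x - χ y) • π.1 + π.2 (χ x • (x - a) - χ y • (y - a)) := by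
    simp only [gg, map_sub, sub_smul]
    abel
  have h3 := hC0.norm_sub_le x y
  have h4 := hC1.norm_sub_le x y
  have h5 : ‖π.1‖ ≤ ‖π‖ := norm_fst_le π
  have h6 : ‖π.2‖ ≤ ‖π‖ := norm_snd_le π
  rw [dist_eq_norm, dist_eq_norm, h2]
  calc _ ≤ ‖(χ x - χ y) • π.1‖ + ‖π.2 (χ x • (x - a) - χ y • (y - a))‖ := norm_add_le _ _
    _ ≤ (C0 * ‖x - y‖) * ‖π‖ + ‖π‖ * (C1 * ‖x - y‖) := by
        gcongr
        · rw [norm_smul]
          gcongr
        · refine (π.2.le_opNorm _).trans ?_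
          gcongr
          exact h4
    _ = _ := by
        push_cast
        ring

end Fam

/-- W8 -/
theorem exists_fam (q : M) (U : Set M) (hU : U ∈ 𝓝 q) :
    ∃ h : PP d → Dyn d M r, IsFam h ∧ (∀ π, ∀ x ∉ U, h π x = x) ∧
      ∃ W ∈ 𝓝 q, ∀ᶠ π in 𝓝 (0 : PP d), ∀ x ∈ W,
        h π x ∈ (extChartAt (𝓡 d) q).source ∧
        extChartAt (𝓡 d) q (h π x) = extChartAt (𝓡 d) q x + π.1 +
          π.2 (extChartAt (𝓡 d) q x - extChartAt (𝓡 d) q q) := by
  classical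
  set a := extChartAt (𝓡 d) q q with ha
  have hT : (extChartAt (𝓡 d) q).target ∩ (extChartAt (𝓡 d) q).symm ⁻¹' (interior U) ∈ 𝓝 a := by
    refine ((continuousOn_extChartAt_symm q).isOpen_inter_preimage (isOpen_extChartAt_target q)
      isOpen_interior).mem_nhds ⟨mem_extChartAt_target q, ?_⟩
    rw [mem_preimage, ha, extChartAt_to_inv]
    exact mem_interior_iff_mem_nhds.2 hU
  obtain ⟨R, hR, hRT⟩ := Metric.nhds_basis_closedBall.mem_iff.1 hT
  obtain ⟨χ, hχi, hχo⟩ : ∃ χ : ContDiffBump a, χ.rIn = R / 2 ∧ χ.rOut = R :=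
    ⟨⟨R / 2, R, by positivity, by linarith⟩, rfl, rfl⟩
  have hKt : Metric.closedBall a R ⊆ (extChartAt (𝓡 d) q).target := fun x hx => (hRT hx).1
  obtain ⟨C, hC⟩ := Fam.gg_lip χ
  -- the good parameters
  obtain ⟨U₀, hU₀d⟩ : ∃ U₀ : Set (PP d), U₀ = {π | C * ‖π‖₊ < 1} := ⟨_, rfl⟩
  have hU₀ : IsOpen U₀ := by
    rw [hU₀d]
    exact isOpen_lt (continuous_const.mul continuous_nnnorm) continuous_const
  have h0 : (0 : PP d) ∈ U₀ := by simp [hU₀d]
  have hgsm : ∀ π : PP d, ContDiff ℝ ∞ (Fam.gg χ π) := Fam.gg_contDiff' χ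
  have hinv : ∀ π : PP d, ∃ G : EE d → EE d, π ∈ U₀ → ContDiff ℝ ∞ G ∧
      (∀ x, G (x + Fam.gg χ π x) = x) ∧ ∀ x, G x + Fam.gg χ π (G x) = x := by
    intro π
    by_cases hπ : π ∈ U₀
    · obtain ⟨G, hG⟩ := Fam.exists_inv (by rwa [hU₀d] at hπ) (hC π) (hgsm π)
      exact ⟨G, fun _ => hG⟩
    · exact ⟨id, fun h => absurd h hπ⟩
  choose G hG using hinv
  have hg0 : ∀ π : PP d, ∀ x ∉ Metric.closedBall a R, Fam.gg χ π x = 0 := by
    intro π x hx
    have : χ x = 0 := by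
      by_contra h
      have h1 : x ∈ support χ := h
      rw [χ.support_eq, hχo] at h1
      exact hx (Metric.ball_subset_closedBall h1)
    simp [Fam.gg, this]
  have hle : ((r : ℕ∞) : ℕ∞ω) ≤ ∞ := by exact_mod_cast le_top
  have hexh : ∀ π : PP d, ∃ h : Dyn d M r,
      (π ∈ U₀ → ∀ x, h x = Fam.T q (fun x => x + Fam.gg χ π x) x) ∧
      (π ∉ U₀ → ∀ x, h x = x) := by
    intro π
    by_cases hπ : π ∈ U₀
    · have hs1 := Fam.supp_of (hg0 π) (hG π hπ).2.1 (hG π hπ).2.2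
      have hs2 : ContDiff ℝ ∞ (fun x => x + Fam.gg χ π x) := contDiff_id.add (hgsm π)
      obtain ⟨h, hh⟩ := Fam.exists_TD (isCompact_closedBall a R) hKt
        (fun x => x + Fam.gg χ π x) (G π) hs1.1 hs1.2 (hs2.of_le hle)
        ((hG π hπ).1.of_le hle) (hG π hπ).2.2 (hG π hπ).2.1
      exact ⟨h, fun _ => hh, fun h => absurd hπ h⟩
    · exact ⟨Diffeomorph.refl (𝓡 d) M r, fun h => absurd h hπ, fun _ x => rfl⟩
  choose h hhh using hexh
  have hh := fun π hπ => (hhh π).1 hπ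
  have hh' := fun π hπ => (hhh π).2 hπ
  have hn : U₀ ∈ 𝓝 (0 : PP d) := hU₀.mem_nhds h0
  have hfam1 : h 0 = Diffeomorph.refl (𝓡 d) M r := by
    ext x
    rw [hh 0 h0]
    have h1 : (fun x => x + Fam.gg χ (0 : PP d) x) = id := by
      funext x
      simp [Fam.gg]
    rw [h1]
    by_cases hx : x ∈ (extChartAt (𝓡 d) q).source
    · rw [Fam.T_of_mem hx]
      exact (extChartAt (𝓡 d) q).left_inv hx
    · exact Fam.T_of_notMem hx
  have hfam2 : ContMDiffOn (𝓘(ℝ, PP d).prod (𝓡 d)) (𝓡 d) r (fun q : PP d × M => h q.1 q.2)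
      (U₀ ×ˢ univ) := by
    have h1 := Fam.T_contMDiffOn (r := r) (isCompact_closedBall a R) hKt hU₀
      (H := fun π x => x + Fam.gg χ π x)
      (fun π hπ => (Fam.supp_of (hg0 π) (hG π hπ).2.1 (hG π hπ).2.2).1)
      (((contDiff_snd.add (Fam.gg_contDiff χ)).of_le hle).contDiffOn)
    refine h1.congr ?_
    rintro ⟨π, x⟩ ⟨hπ, -⟩
    exact hh π hπ x
  have hfam : IsFam h := ⟨hfam1, U₀, hn, hfam2⟩
  have hout : ∀ π, ∀ x ∉ U, h π x = x := by
    intro π x hx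
    by_cases hπ : π ∈ U₀
    · rw [hh π hπ]
      refine Fam.T_eq_self (Fam.supp_of (hg0 π) (hG π hπ).2.1 (hG π hπ).2.2).1 ?_
      rintro ⟨y, hy, rfl⟩
      exact hx (interior_subset (hRT hy).2)
    · exact hh' π hπ x
  refine ⟨h, hfam, hout, ?_⟩
  · refine ⟨(extChartAt (𝓡 d) q).source ∩ extChartAt (𝓡 d) q ⁻¹' (Metric.ball a (R / 2)), ?_, ?_⟩
    · refine Filter.inter_mem (extChartAt_source_mem_nhds q) ?_
      exact (continuousAt_extChartAt q).preimage_mem_nhds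
        (Metric.ball_mem_nhds _ (by positivity))
    · filter_upwards [hU₀.mem_nhds h0] with π hπ x hx
      have h1 := (Fam.supp_of (hg0 π) (hG π hπ).2.1 (hG π hπ).2.2).1.mapsTo_target hKt
        ((extChartAt (𝓡 d) q).map_source hx.1)
      rw [hh π hπ, Fam.T_of_mem hx.1]
      have h3 := (extChartAt (𝓡 d) q).map_target h1
      have h4 := (extChartAt (𝓡 d) q).right_inv h1
      constructor
      · exact h3
      rw [h4]
      have h2 : χ (extChartAt (𝓡 d) q x) = 1 :=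
        χ.one_of_mem_closedBall (by rw [hχi]; exact Metric.ball_subset_closedBall hx.2)
      simp only [Fam.gg, h2, one_smul]
      rw [add_assoc]

omit [IsManifold (𝓡 d) ∞ M] in
theorem IsFam.comp {V W : Type*} [NormedAddCommGroup V] [NormedSpace ℝ V]
    [NormedAddCommGroup W] [NormedSpace ℝ W] {h : V → Dyn d M r} {k : W → Dyn d M r}
    (hh : IsFam h) (hk : IsFam k) : IsFam (fun q : V × W => (h q.1).trans (k q.2)) := by
  obtain ⟨h0, U, hU, hUs⟩ := hh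
  obtain ⟨k0, U', hU', hUs'⟩ := hk
  refine ⟨?_, U ×ˢ U', prod_mem_nhds hU hU', ?_⟩
  · ext x
    simp [h0, k0]
  · have e1 : ContMDiff (𝓘(ℝ, V × W).prod (𝓡 d)) 𝓘(ℝ, V) r
        (fun p : (V × W) × M => p.1.1) :=
      ((ContinuousLinearMap.fst ℝ V W).contMDiff).comp contMDiff_fst
    have e2 : ContMDiff (𝓘(ℝ, V × W).prod (𝓡 d)) 𝓘(ℝ, W) r
        (fun p : (V × W) × M => p.1.2) :=
      ((ContinuousLinearMap.snd ℝ V W).contMDiff).comp contMDiff_fst
    have e3 : ContMDiff (𝓘(ℝ, V × W).prod (𝓡 d)) (𝓡 d) r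
        (fun p : (V × W) × M => p.2) := contMDiff_snd
    have h1 : ContMDiff (𝓘(ℝ, V × W).prod (𝓡 d)) (𝓘(ℝ, V).prod (𝓡 d)) r
        (fun p : (V × W) × M => (p.1.1, p.2)) := e1.prodMk e3
    have h2 : ContMDiffOn (𝓘(ℝ, V × W).prod (𝓡 d)) (𝓡 d) r
        (fun p : (V × W) × M => h p.1.1 p.2) ((U ×ˢ U') ×ˢ univ) := by
      refine hUs.comp h1.contMDiffOn ?_
      rintro ⟨⟨v, w⟩, x⟩ ⟨⟨hv, hw⟩, -⟩
      exact ⟨hv, mem_univ _⟩
    have h3 : ContMDiffOn (𝓘(ℝ, V × W).prod (𝓡 d)) (𝓘(ℝ, W).prod (𝓡 d)) r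
        (fun p : (V × W) × M => (p.1.2, h p.1.1 p.2)) ((U ×ˢ U') ×ˢ univ) :=
      e2.contMDiffOn.prodMk h2
    have h4 : ContMDiffOn (𝓘(ℝ, V × W).prod (𝓡 d)) (𝓡 d) r
        (fun p : (V × W) × M => k p.1.2 (h p.1.1 p.2)) ((U ×ˢ U') ×ˢ univ) := by
      refine hUs'.comp h3 ?_
      rintro ⟨⟨v, w⟩, x⟩ ⟨⟨hv, hw⟩, -⟩
      exact ⟨hw, mem_univ _⟩
    exact h4

end Pool.Agent.OmegaStab
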