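import Pool.Agent.Work.MP_814647_an.Basic
import Pool.Agent.Work.MP_814647_an.Linear

/-!
# Finite hyperbolic nonwandering sets are hyperbolic
-/

open Set Filter Topology Function
open scoped Manifold ContDiff

noncomputable section

namespace Pool.Agent.OmegaStab

namespace FinHyp

section Lin

variable {E : Type*} [NormedAddCommGroup E] [NormedSpace ℝ E]

/-- What is used of the splitting of a hyperbolic linear map. -/
structure Split (D : E →L[ℝ] E) (Es Eu : Submodule ℝ E) (C μ : ℝ) : Prop where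
  compl : IsCompl Es Eu
  inv_s : ∀ v ∈ Es, D v ∈ Es
  inv_u : ∀ v ∈ Eu, D v ∈ Eu
  C_pos : 0 < C
  mu_pos : 0 < μ
  mu_lt : μ < 1
  con : ∀ v ∈ Es, ∀ n : ℕ, ‖(D ^ n) v‖ ≤ C * μ ^ n * ‖v‖
  exp : ∀ v ∈ Eu, ∀ n : ℕ, ‖v‖ ≤ C * μ ^ n * ‖(D ^ n) v‖

theorem pow_inv_apply {D D' : E →L[ℝ] E} (h : D' * D = 1) (n : ℕ) (v : E) :
    (D' ^ n) ((D ^ n) v) = v := by
  have := pow_mul_pow_eq_one n h
  exact congrArg (fun T : E →L[ℝ] E => T v) this

theorem inv_mem [FiniteDimensional ℝ E] {D D' : E →L[ℝ] E} (h : D' * D = 1) {S : Submodule ℝ E}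
    (hS : ∀ v ∈ S, D v ∈ S) {v : E} (hv : v ∈ S) : D' v ∈ S := by
  have hDv : ∀ w, D' (D w) = w := fun w => congrArg (fun T : E →L[ℝ] E => T w) h
  let T : S →ₗ[ℝ] S := (D : E →ₗ[ℝ] E).restrict hS
  have hinj : Function.Injective T := by
    intro a b hab
    have h1 : D a = D b := congrArg Subtype.val hab
    apply Subtype.ext
    rw [← hDv a, ← hDv b, h1]
  obtain ⟨t, ht⟩ := (LinearMap.injective_iff_surjective.1 hinj) ⟨v, hv⟩
  have h2 : D t = v := congrArg Subtype.val ht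
  rw [← h2, hDv]
  exact t.2

theorem inv_pow_mem [FiniteDimensional ℝ E] {D D' : E →L[ℝ] E} (h : D' * D = 1)
    {S : Submodule ℝ E} (hS : ∀ v ∈ S, D v ∈ S) {v : E} (hv : v ∈ S) (n : ℕ) :
    (D' ^ n) v ∈ S := by
  induction n with
  | zero => simpa using hv
  | succ n ih =>
    rw [pow_succ']
    exact inv_mem h hS ih

theorem pow_mem {D : E →L[ℝ] E} {S : Submodule ℝ E} (hS : ∀ v ∈ S, D v ∈ S) {v : E} (hv : v ∈ S)
    (n : ℕ) : (D ^ n) v ∈ S := by
  induction n with
  | zero => simpa using hv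
  | succ n ih =>
    rw [pow_succ']
    exact hS _ ih

omit [NormedSpace ℝ E] in
theorem eq_zero_of_bound {C μ B : ℝ} (hμ : 0 < μ) (hμ1 : μ < 1) (v : E)
    (h : ∀ n : ℕ, ‖v‖ ≤ C * μ ^ n * B) : v = 0 := by
  have h1 : Tendsto (fun n : ℕ => C * μ ^ n * B) atTop (𝓝 0) := by
    have := ((tendsto_pow_atTop_nhds_zero_of_lt_one hμ.le hμ1).const_mul C).mul_const B
    simpa using this
  exact norm_le_zero_iff.1 (ge_of_tendsto' h1 h)

namespace Split

variable {D D' : E →L[ℝ] E} {Es Eu : Submodule ℝ E} {C μ : ℝ}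

/-- The inverse has the splitting with exchanged roles. -/
theorem symm [FiniteDimensional ℝ E] (h : Split D Es Eu C μ) (h1 : D' * D = 1) (h2 : D * D' = 1) :
    Split D' Eu Es C μ where
  compl := h.compl.symm
  inv_s := fun v hv => inv_mem h1 h.inv_u hv
  inv_u := fun v hv => inv_mem h1 h.inv_s hv
  C_pos := h.C_pos
  mu_pos := h.mu_pos
  mu_lt := h.mu_lt
  con := fun v hv n => by
    have := h.exp _ (inv_pow_mem h1 h.inv_u hv n) n
    rwa [pow_inv_apply h2] at this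
  exp := fun v hv n => by
    have := h.con _ (inv_pow_mem h1 h.inv_s hv n) n
    rwa [pow_inv_apply h2] at this

theorem mem_iff (h : Split D Es Eu C μ) (v : E) : v ∈ Es ↔ ∃ B, ∀ n : ℕ, ‖(D ^ n) v‖ ≤ B := by
  constructor
  · intro hv
    refine ⟨C * ‖v‖, fun n => (h.con v hv n).trans ?_⟩
    have h1 : μ ^ n ≤ 1 := pow_le_one₀ h.mu_pos.le h.mu_lt.le
    have := h.C_pos
    calc C * μ ^ n * ‖v‖ ≤ C * 1 * ‖v‖ := by gcongr
      _ = C * ‖v‖ := by ring
  · rintro ⟨B, hB⟩
    obtain ⟨s, hs, u, hu, rfl⟩ : ∃ s ∈ Es, ∃ u ∈ Eu, s + u = v := by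
      have : v ∈ Es ⊔ Eu := by rw [h.compl.sup_eq_top]; trivial
      exact Submodule.mem_sup.1 this
    have hu0 : u = 0 := by
      refine eq_zero_of_bound (C := C) (μ := μ) (B := B + C * ‖s‖) h.mu_pos h.mu_lt u fun n => ?_
      refine (h.exp u hu n).trans ?_
      have h1 : ‖(D ^ n) u‖ ≤ B + C * ‖s‖ := by
        have h2 : (D ^ n) u = (D ^ n) (s + u) - (D ^ n) s := by rw [map_add]; abel
        rw [h2]
        refine (norm_sub_le _ _).trans (add_le_add (hB n) ((h.con s hs n).trans ?_))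
        have h1 : μ ^ n ≤ 1 := pow_le_one₀ h.mu_pos.le h.mu_lt.le
        have := h.C_pos
        calc C * μ ^ n * ‖s‖ ≤ C * 1 * ‖s‖ := by gcongr
          _ = C * ‖s‖ := by ring
      have := h.C_pos
      have := h.mu_pos
      gcongr
    rw [hu0, add_zero]
    exact hs

end Split

end Lin

section Der

variable {d : ℕ} {M : Type*} [MetricSpace M] [ChartedSpace (EE d) M]

/-- The derivative as an endomorphism of the model space. -/
def der (g : M → M) (x : M) : EE d →L[ℝ] EE d := mfderiv (𝓡 d) (𝓡 d) g x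

theorem der_comp {g h : M → M} (hg : MDifferentiable (𝓡 d) (𝓡 d) g)
    (hh : MDifferentiable (𝓡 d) (𝓡 d) h) (x : M) :
    der (d := d) (g ∘ h) x = der (d := d) g (h x) * der (d := d) h x :=
  mfderiv_comp x (hg (h x)) (hh x)

theorem der_id (x : M) : der (d := d) (id : M → M) x = 1 := mfderiv_id

theorem mdiff_iter {g : M → M} (hg : MDifferentiable (𝓡 d) (𝓡 d) g) (n : ℕ) :
    MDifferentiable (𝓡 d) (𝓡 d) g^[n] := by
  induction n with
  | zero => exact mdifferentiable_id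
  | succ n ih => rw [Function.iterate_succ]; exact ih.comp hg

omit [MetricSpace M] in
theorem iter_mul_fix {g : M → M} {x : M} {k : ℕ} (hx : g^[k] x = x) (m : ℕ) :
    g^[k * m] x = x := by
  induction m with
  | zero => rfl
  | succ m ih => rw [Nat.mul_succ, Function.iterate_add_apply, hx, ih]

theorem der_iter_mul {g : M → M} (hg : MDifferentiable (𝓡 d) (𝓡 d) g) {x : M} {k : ℕ}
    (hx : g^[k] x = x) (m : ℕ) : der (d := d) g^[k * m] x = der (d := d) g^[k] x ^ m := by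
  induction m with
  | zero => exact der_id x
  | succ m ih =>
    rw [Nat.mul_succ, Function.iterate_add, der_comp (mdiff_iter hg _) (mdiff_iter hg _), hx, ih,
      pow_succ]

theorem der_iter {g : M → M} (hg : MDifferentiable (𝓡 d) (𝓡 d) g) {x : M} {k : ℕ}
    (hx : g^[k] x = x) (n : ℕ) :
    der (d := d) g^[n] x = der (d := d) g^[n % k] x * der (d := d) g^[k] x ^ (n / k) := by
  conv_lhs => rw [← Nat.mod_add_div n k, Function.iterate_add,
    der_comp (mdiff_iter hg _) (mdiff_iter hg _), iter_mul_fix hx, der_iter_mul hg hx]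

/-- The vectors with bounded images under the derivatives of the iterates. -/
def bdd (g : M → M) (x : M) : Submodule ℝ (EE d) where
  carrier := {v | ∃ C : ℝ, ∀ n : ℕ, ‖der (d := d) g^[n] x v‖ ≤ C}
  add_mem' := by
    rintro a b ⟨C, hC⟩ ⟨C', hC'⟩
    refine ⟨C + C', fun n => ?_⟩
    rw [map_add]
    exact (norm_add_le _ _).trans (add_le_add (hC n) (hC' n))
  zero_mem' := ⟨0, fun n => by simp⟩
  smul_mem' := by
    rintro c v ⟨C, hC⟩
    refine ⟨‖c‖ * C, fun n => ?_⟩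
    rw [map_smul, norm_smul]
    exact mul_le_mul_of_nonneg_left (hC n) (norm_nonneg _)

theorem bdd_map {g : M → M} (hg : MDifferentiable (𝓡 d) (𝓡 d) g) {x : M} {v : EE d}
    (hv : v ∈ bdd (d := d) g x) : der (d := d) g x v ∈ bdd (d := d) g (g x) := by
  obtain ⟨C, hC⟩ := hv
  refine ⟨C, fun n => ?_⟩
  have := hC (n + 1)
  rw [Function.iterate_succ, der_comp (mdiff_iter hg n) hg] at this
  exact this

theorem exists_root {μ : ℝ} (h0 : 0 < μ) (h1 : μ < 1) {k : ℕ} (hk : 0 < k) :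
    ∃ ν : ℝ, 0 < ν ∧ ν < 1 ∧ μ ≤ ν ^ k := by
  have hk' : (1 : ℝ) ≤ k := by exact_mod_cast hk
  have hk0 : (0 : ℝ) < k := by linarith
  refine ⟨1 + (-((1 - μ) / k)), ?_, ?_, ?_⟩
  · have : (1 - μ) / k ≤ 1 - μ := div_le_self (by linarith) hk'
    linarith
  · have : 0 < (1 - μ) / k := div_pos (by linarith) hk0
    linarith
  · have h2 : (1 - μ) / k ≤ 1 - μ := div_le_self (by linarith) hk'
    have := one_add_mul_le_pow (a := -((1 - μ) / k)) (by linarith) k
    refine le_trans ?_ this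
    have h3 : (k : ℝ) * (-((1 - μ) / k)) = -(1 - μ) := by field_simp
    rw [h3]
    linarith

theorem core {g : M → M} (hg : MDifferentiable (𝓡 d) (𝓡 d) g) {x : M} {k : ℕ}
    (hk : 0 < k) (hx : g^[k] x = x) {Es Eu : Submodule ℝ (EE d)} {C μ : ℝ}
    (h : Split (der (d := d) g^[k] x) Es Eu C μ) :
    bdd (d := d) g x = Es ∧ ∃ c ν : ℝ, 0 < c ∧ 0 < ν ∧ ν < 1 ∧
      ∀ v ∈ bdd (d := d) g x, ∀ n : ℕ, ‖der (d := d) g^[n] x v‖ ≤ c * ν ^ n * ‖v‖ := by
  obtain ⟨ν, hν0, hν1, hν⟩ := exists_root h.mu_pos h.mu_lt hk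
  let A : ℝ := ∑ j ∈ Finset.range k, ‖der (d := d) g^[j] x‖ + 1
  have hA0 : 0 < A := by positivity
  have hA : ∀ j < k, ‖der (d := d) g^[j] x‖ ≤ A := by
    intro j hj
    have : ‖der (d := d) g^[j] x‖ ≤ ∑ j ∈ Finset.range k, ‖der (d := d) g^[j] x‖ :=
      Finset.single_le_sum (f := fun j => ‖der (d := d) g^[j] x‖) (fun i _ => norm_nonneg _)
        (Finset.mem_range.2 hj)
    linarith
  have hb : ∀ v ∈ Es, ∀ n : ℕ, ‖der (d := d) g^[n] x v‖ ≤ A * C / ν ^ k * ν ^ n * ‖v‖ := by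
    intro v hv n
    rw [der_iter hg hx]
    have h1 : ‖(der (d := d) g^[k] x ^ (n / k)) v‖ ≤ C * μ ^ (n / k) * ‖v‖ := h.con v hv _
    have h2 : μ ^ (n / k) ≤ ν ^ (k * (n / k)) := by
      rw [pow_mul]
      exact pow_le_pow_left₀ h.mu_pos.le hν _
    have h3 : ν ^ (k * (n / k)) ≤ ν ^ n / ν ^ k := by
      rw [le_div_iff₀ (by positivity), ← pow_add]
      apply pow_le_pow_of_le_one hν0.le hν1.le
      have := Nat.mod_add_div n k
      have := Nat.mod_lt n hk
      omega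
    have hC := h.C_pos
    calc ‖(der (d := d) g^[n % k] x * der (d := d) g^[k] x ^ (n / k)) v‖
        ≤ ‖der (d := d) g^[n % k] x‖ * ‖(der (d := d) g^[k] x ^ (n / k)) v‖ :=
          (der (d := d) g^[n % k] x).le_opNorm ((der (d := d) g^[k] x ^ (n / k)) v)
      _ ≤ A * (C * (ν ^ n / ν ^ k) * ‖v‖) := by
          refine mul_le_mul (hA _ (Nat.mod_lt _ hk)) (h1.trans ?_) (norm_nonneg _) hA0.le
          gcongr
          exact h2.trans h3
      _ = A * C / ν ^ k * ν ^ n * ‖v‖ := by ring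
  have heq : bdd (d := d) g x = Es := by
    apply le_antisymm
    · rintro v ⟨B, hB⟩
      rw [h.mem_iff]
      refine ⟨B, fun m => ?_⟩
      have := hB (k * m)
      rwa [der_iter_mul hg hx] at this
    · intro v hv
      refine ⟨A * C / ν ^ k * ‖v‖, fun n => (hb v hv n).trans ?_⟩
      have h1 : ν ^ n ≤ 1 := pow_le_one₀ hν0.le hν1.le
      have := h.C_pos
      calc A * C / ν ^ k * ν ^ n * ‖v‖ ≤ A * C / ν ^ k * 1 * ‖v‖ := by gcongr
        _ = A * C / ν ^ k * ‖v‖ := by ring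
  have := h.C_pos
  exact ⟨heq, A * C / ν ^ k, ν, by positivity, hν0, hν1, by rw [heq]; exact hb⟩

end Der

section Bundle

variable {d : ℕ} {M : Type*} [MetricSpace M] [ChartedSpace (EE d) M]

theorem isClosed_sub [IsManifold (𝓡 d) ∞ M] {Λ : Set M} (hΛ : Λ.Finite)
    (S : ∀ x : M, Submodule ℝ (TangentSpace (𝓡 d) x)) :
    IsClosed {v : TangentBundle (𝓡 d) M | v.1 ∈ Λ ∧ v.2 ∈ S v.1} := by
  have h1 : {v : TangentBundle (𝓡 d) M | v.1 ∈ Λ ∧ v.2 ∈ S v.1} =
      ⋃ x ∈ Λ, {v : TangentBundle (𝓡 d) M | v.1 = x ∧ v.2 ∈ S v.1} := by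
    ext v
    simp
  rw [h1]
  refine hΛ.isClosed_biUnion fun x _ => ?_
  have : IsManifold (𝓡 d) 1 M := IsManifold.of_le (n := ∞) (by simp)
  let e := trivializationAt (EE d) (TangentSpace (𝓡 d) : M → Type _) x
  have hx : x ∈ e.baseSet := FiberBundle.mem_baseSet_trivializationAt' x
  let L : TangentSpace (𝓡 d) x ≃L[ℝ] EE d := e.continuousLinearEquivAt ℝ x hx
  let T : Submodule ℝ (EE d) := (S x).map (L : TangentSpace (𝓡 d) x →ₗ[ℝ] EE d)
  have hTc : IsClosed (T : Set (EE d)) := T.closed_of_finiteDimensional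
  have hfib : IsClosed {v : TangentBundle (𝓡 d) M | v.1 = x} := by
    have hc : Continuous (fun v : TangentBundle (𝓡 d) M => v.1) :=
      FiberBundle.continuous_proj (EE d) (TangentSpace (𝓡 d) : M → Type _)
    exact isClosed_singleton.preimage hc
  have hcont : ContinuousOn (fun v : TangentBundle (𝓡 d) M => (e v).2)
      {v : TangentBundle (𝓡 d) M | v.1 = x} := by
    refine (continuous_snd.comp_continuousOn e.continuousOn).mono ?_
    intro v hv
    rw [e.mem_source]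
    have hv' : v.1 = x := hv
    rw [hv']
    exact hx
  have h2 : {v : TangentBundle (𝓡 d) M | v.1 = x ∧ v.2 ∈ S v.1} =
      {v : TangentBundle (𝓡 d) M | v.1 = x} ∩ (fun v : TangentBundle (𝓡 d) M => (e v).2) ⁻¹' T := by
    ext ⟨y, w⟩
    simp only [mem_ofPred_eq, mem_inter_iff, mem_preimage, SetLike.mem_coe]
    refine and_congr_right fun hy => ?_
    subst hy
    have h3 : (e ⟨y, w⟩).2 = L w := rfl
    rw [h3]
    constructor
    · intro hw
      exact ⟨w, hw, rfl⟩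
    · rintro ⟨w', hw', h4⟩
      have h5 : L w' = L w := h4
      rw [← L.injective h5]
      exact hw'
  rw [h2]
  exact hcont.preimage_isClosed_of_isClosed hfib hTc

theorem metric_comparison [IsManifold (𝓡 d) ∞ M]
    (γ : Bundle.ContinuousRiemannianMetric (EE d) (fun x : M => TangentSpace (𝓡 d) x)) (x : M) :
    ∃ β : ℝ, 0 < β ∧
      (∀ v : TangentSpace (𝓡 d) x, √(γ.inner x v v) ≤ β * ‖(show EE d from v)‖) ∧
      ∀ v : TangentSpace (𝓡 d) x, ‖(show EE d from v)‖ ≤ β * √(γ.inner x v v) := by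
  let B : EE d →L[ℝ] EE d →L[ℝ] ℝ := γ.inner x
  have hB : ∀ v : TangentSpace (𝓡 d) x, γ.inner x v v = B v v := fun _ => rfl
  have hpos : ∀ v : EE d, v ≠ 0 → 0 < B v v := fun v hv => γ.pos x v hv
  have hnn : ∀ v : EE d, 0 ≤ B v v := by
    intro v
    by_cases hv : v = 0
    · simp [hv]
    · exact (hpos v hv).le
  -- upper bound
  have hup : ∀ v : EE d, √(B v v) ≤ √‖B‖ * ‖v‖ := by
    intro v
    have h1 : B v v ≤ ‖B‖ * ‖v‖ ^ 2 := by
      have := (le_abs_self _).trans ((B v).le_opNorm v)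
      have h2 := B.le_opNorm v
      calc B v v ≤ ‖B v‖ * ‖v‖ := this
        _ ≤ ‖B‖ * ‖v‖ * ‖v‖ := by gcongr
        _ = ‖B‖ * ‖v‖ ^ 2 := by ring
    calc √(B v v) ≤ √(‖B‖ * ‖v‖ ^ 2) := Real.sqrt_le_sqrt h1
      _ = √‖B‖ * ‖v‖ := by
          have hBn : 0 ≤ ‖B‖ := norm_nonneg B
          rw [Real.sqrt_mul hBn, Real.sqrt_sq (norm_nonneg _)]
  -- lower bound
  obtain ⟨α, hα, hlow⟩ : ∃ α : ℝ, 0 < α ∧ ∀ v : EE d, ‖v‖ ≤ α * √(B v v) := by
    by_cases hne : (Metric.sphere (0 : EE d) 1).Nonempty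
    · obtain ⟨v0, hv0, hmin⟩ := (isCompact_sphere (0 : EE d) 1).exists_isMinOn hne
        (f := fun v => B v v) (by fun_prop)
      have hv0' : v0 ≠ 0 := by
        rintro rfl
        simp at hv0
      have hm := hpos v0 hv0'
      refine ⟨1 / √(B v0 v0), by positivity, fun v => ?_⟩
      by_cases hv : v = 0
      · simp [hv]
      have hvn : 0 < ‖v‖ := norm_pos_iff.2 hv
      have h1 : B v0 v0 ≤ B (‖v‖⁻¹ • v) (‖v‖⁻¹ • v) := by
        apply hmin
        rw [mem_sphere_zero_iff_norm, norm_smul, norm_inv, norm_norm, inv_mul_cancel₀ hvn.ne']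
      have h2 : B (‖v‖⁻¹ • v) (‖v‖⁻¹ • v) = (‖v‖⁻¹) ^ 2 * B v v := by
        simp only [map_smul, smul_apply, smul_eq_mul]
        ring
      rw [h2] at h1
      have h3 : ‖v‖ ^ 2 * B v0 v0 ≤ B v v := by
        calc ‖v‖ ^ 2 * B v0 v0 ≤ ‖v‖ ^ 2 * ((‖v‖⁻¹) ^ 2 * B v v) := by gcongr
          _ = B v v := by field_simp
      have h4 : ‖v‖ * √(B v0 v0) ≤ √(B v v) := by
        calc ‖v‖ * √(B v0 v0) = √(‖v‖ ^ 2 * B v0 v0) := by
              rw [Real.sqrt_mul (by positivity), Real.sqrt_sq (norm_nonneg _)]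
          _ ≤ √(B v v) := Real.sqrt_le_sqrt h3
      rw [one_div, inv_mul_eq_div, le_div_iff₀ (by positivity)]
      exact h4
    · refine ⟨1, one_pos, fun v => ?_⟩
      have : v = 0 := by
        by_contra hv
        apply hne
        refine ⟨‖v‖⁻¹ • v, ?_⟩
        rw [mem_sphere_zero_iff_norm, norm_smul, norm_inv, norm_norm,
          inv_mul_cancel₀ (norm_pos_iff.2 hv).ne']
      simp [this]
  refine ⟨√‖B‖ + α, by positivity, fun v => ?_, fun v => ?_⟩
  · rw [hB]
    refine (hup v).trans ?_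
    show √‖B‖ * ‖(show EE d from v)‖ ≤ _
    have : 0 ≤ ‖(show EE d from v)‖ := norm_nonneg _
    nlinarith
  · rw [hB]
    refine (hlow v).trans ?_
    have h1 : 0 ≤ √‖B‖ := Real.sqrt_nonneg _
    have h2 : 0 ≤ √(B v v) := Real.sqrt_nonneg _
    nlinarith

end Bundle

section Main

variable {d : ℕ} {M : Type*} [MetricSpace M] [ChartedSpace (EE d) M] {r : ℕ∞}

theorem mdiff (hr : 1 ≤ r) (f : Dyn d M r) : MDifferentiable (𝓡 d) (𝓡 d) f :=
  f.contMDiff.mdifferentiable (by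
    have : (0 : ℕ∞) < r := lt_of_lt_of_le one_pos hr
    exact_mod_cast this.ne')

theorem mdiff_symm (hr : 1 ≤ r) (f : Dyn d M r) : MDifferentiable (𝓡 d) (𝓡 d) f.symm :=
  mdiff hr f.symm

theorem nonwandering_apply (f : Dyn d M r) {x : M} (hx : x ∈ nonwandering f) :
    f x ∈ nonwandering f := by
  intro U hU
  obtain ⟨n, hn, w, ⟨z, hz, rfl⟩, hw⟩ := hx (f ⁻¹' U) (f.continuous.continuousAt hU)
  refine ⟨n, hn, f (f^[n] z), ⟨f z, hz, ?_⟩, hw⟩
  rw [← Function.iterate_succ_apply, Function.iterate_succ_apply']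

theorem nonwandering_symm_apply (f : Dyn d M r) {x : M} (hx : x ∈ nonwandering f) :
    f.symm x ∈ nonwandering f := by
  intro U hU
  have hU' : f.symm ⁻¹' U ∈ 𝓝 x := f.symm.continuous.continuousAt hU
  obtain ⟨n, hn, w, ⟨z, hz, rfl⟩, hw⟩ := hx _ hU'
  refine ⟨n, hn, f.symm (f^[n] z), ⟨f.symm z, hz, ?_⟩, hw⟩
  apply f.injective
  calc f (f^[n] (f.symm z)) = f^[n + 1] (f.symm z) := (Function.iterate_succ_apply' _ _ _).symm
    _ = f^[n] (f (f.symm z)) := Function.iterate_succ_apply _ _ _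
    _ = f^[n] z := by rw [f.apply_symm_apply]
    _ = f (f.symm (f^[n] z)) := (f.apply_symm_apply _).symm

theorem nonwandering_iter (f : Dyn d M r) {x : M} (hx : x ∈ nonwandering f) (n : ℕ) :
    f^[n] x ∈ nonwandering f := by
  induction n with
  | zero => exact hx
  | succ n ih =>
    rw [Function.iterate_succ_apply']
    exact nonwandering_apply f ih

theorem nonwandering_symm_iter (f : Dyn d M r) {x : M} (hx : x ∈ nonwandering f) (n : ℕ) :
    f.symm^[n] x ∈ nonwandering f := by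
  induction n with
  | zero => exact hx
  | succ n ih =>
    rw [Function.iterate_succ_apply']
    exact nonwandering_symm_apply f ih

theorem der_eq_fderiv {g : M → M} (hg : MDifferentiable (𝓡 d) (𝓡 d) g) {x : M} (hx : g x = x) :
    der (d := d) g x = fderiv ℝ (inCharts (d := d) x x g) (extChartAt (𝓡 d) x x) := by
  unfold der
  rw [(hg x).mfderiv]
  unfold writtenInExtChartAt inCharts
  rw [hx, ModelWithCorners.range_eq_univ, fderivWithin_univ]
  rfl

/-- The splitting at a periodic point. -/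
theorem local_data
    (hsplit : ∀ D : EE d →L[ℝ] EE d, HypLin D → ∃ (Es Eu : Submodule ℝ (EE d)) (C μ : ℝ),
      Split D Es Eu C μ)
    (hr : 1 ≤ r) (f : Dyn d M r) {x : M} (hx : HypAt (d := d) f x) :
    IsCompl (bdd (d := d) f x) (bdd (d := d) f.symm x) ∧
      ∃ c ν : ℝ, 0 < c ∧ 0 < ν ∧ ν < 1 ∧
        (∀ v ∈ bdd (d := d) f x, ∀ n : ℕ, ‖der (d := d) f^[n] x v‖ ≤ c * ν ^ n * ‖v‖) ∧
        (∀ v ∈ bdd (d := d) f.symm x, ∀ n : ℕ,
          ‖der (d := d) f.symm^[n] x v‖ ≤ c * ν ^ n * ‖v‖) := by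
  obtain ⟨hper, hlin⟩ := hx
  have hk : 0 < minimalPeriod f x := Function.minimalPeriod_pos_of_mem_periodicPts hper
  have hfx : f^[minimalPeriod f x] x = x := Function.iterate_minimalPeriod
  generalize hkdef : minimalPeriod f x = k at hk hfx hlin
  have hf := mdiff hr f
  have hf' := mdiff_symm hr f
  have hcomp1 : (f.symm^[k] : M → M) ∘ f^[k] = id := by
    funext y
    exact (Function.LeftInverse.iterate (fun z => f.symm_apply_apply z) k) y
  have hcomp2 : (f^[k] : M → M) ∘ f.symm^[k] = id := by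
    funext y
    exact (Function.LeftInverse.iterate (fun z => f.apply_symm_apply z) k) y
  have hfx' : f.symm^[k] x = x := by
    conv_lhs => rw [← hfx]
    exact congrFun hcomp1 x
  rw [← der_eq_fderiv (mdiff_iter hf k) hfx] at hlin
  obtain ⟨Es, Eu, C, μ, h⟩ := hsplit _ hlin
  have h1 : der (d := d) f.symm^[k] x * der (d := d) f^[k] x = 1 := by
    have := der_comp (mdiff_iter hf' k) (mdiff_iter hf k) x
    rw [hcomp1, hfx, der_id] at this
    exact this.symm
  have h2 : der (d := d) f^[k] x * der (d := d) f.symm^[k] x = 1 := by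
    have := der_comp (mdiff_iter hf k) (mdiff_iter hf' k) x
    rw [hcomp2, hfx', der_id] at this
    exact this.symm
  obtain ⟨e1, c, ν, hc, hν, hν1, hs⟩ := core hf hk hfx h
  obtain ⟨e2, c', ν', hc', hν', hν1', hu⟩ := core hf' hk hfx' (h.symm h1 h2)
  refine ⟨by rw [e1, e2]; exact h.compl, max c c', max ν ν', lt_max_of_lt_left hc,
    lt_max_of_lt_left hν, max_lt hν1 hν1', ?_, ?_⟩
  · intro v hv n
    refine (hs v hv n).trans ?_
    gcongr
    · exact le_max_left _ _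
    · exact le_max_left _ _
  · intro v hv n
    refine (hu v hv n).trans ?_
    gcongr
    · exact le_max_right _ _
    · exact le_max_right _ _

theorem main [IsManifold (𝓡 d) ∞ M]
    (hsplit : ∀ D : EE d →L[ℝ] EE d, HypLin D → ∃ (Es Eu : Submodule ℝ (EE d)) (C μ : ℝ),
      Split D Es Eu C μ)
    (hr : 1 ≤ r) (f : Dyn d M r) (hfin : (nonwandering f).Finite)
    (hper : nonwandering f ⊆ periodicPts f) (hhyp : ∀ p ∈ periodicPts f, HypAt (d := d) f p) :
    HyperbolicOn f (nonwandering f) := by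
  have hf := mdiff hr f
  have hf' := mdiff_symm hr f
  have hdata : ∀ x ∈ nonwandering f, _ := fun x hx =>
    local_data hsplit hr f (hhyp x (hper hx))
  refine ⟨fun x => bdd (d := d) f x, fun x => bdd (d := d) f.symm x, isClosed_sub hfin _,
    isClosed_sub hfin _, fun x hx => (hdata x hx).1, fun x _ v hv => bdd_map hf hv, ?_, ?_⟩
  · intro x _ v hv
    obtain ⟨C, hC⟩ := hv
    let w : EE d := der (d := d) f x v
    have h0 : der (d := d) f.symm (f x) w = v := by
      have h1 := der_comp hf' hf x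
      have h2 : (f.symm : M → M) ∘ f = id := by
        funext y
        exact f.symm_apply_apply y
      rw [h2, der_id] at h1
      exact (congrArg (fun T : EE d →L[ℝ] EE d => T v) h1).symm
    change w ∈ bdd (d := d) f.symm (f x)
    refine ⟨max ‖w‖ C, fun n => ?_⟩
    rcases n with _ | n
    · refine le_trans ?_ (le_max_left _ _)
      have : der (d := d) f.symm^[0] (f x) w = w := by
        rw [Function.iterate_zero, der_id]
        rfl
      rw [this]
    · refine le_trans ?_ (le_max_right _ _)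
      rw [Function.iterate_succ, der_comp (mdiff_iter hf' n) hf', f.symm_apply_apply]
      change ‖der (d := d) f.symm^[n] x (der (d := d) f.symm (f x) w)‖ ≤ C
      rw [h0]
      exact hC n
  · intro γ
    choose! β hβ0 hβ1 hβ2 using fun x => metric_comparison (d := d) γ x
    have hdata2 : ∀ x ∈ nonwandering f, _ := fun x hx => (hdata x hx).2
    choose! c ν hc hν hν1 hs hu using hdata2
    -- uniform constants
    obtain ⟨b, hb⟩ := (hfin.image β).bddAbove
    obtain ⟨c0, hc0⟩ := (hfin.image c).bddAbove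
    obtain ⟨ν0, hν0, hν01, hν02⟩ : ∃ ν0 : ℝ, 0 < ν0 ∧ ν0 < 1 ∧ ∀ x ∈ nonwandering f, ν x ≤ ν0 := by
      by_cases hne : (nonwandering f).Nonempty
      · obtain ⟨x0, hx0, hmax⟩ := hfin.exists_maximalFor ν _ hne
        refine ⟨ν x0, hν x0 hx0, hν1 x0 hx0, fun x hx => ?_⟩
        by_contra hlt
        push Not at hlt
        exact absurd (hmax hx hlt.le) (not_le.2 hlt)
      · refine ⟨1 / 2, by norm_num, by norm_num, fun x hx => absurd ⟨x, hx⟩ hne⟩
    have hb' : ∀ x ∈ nonwandering f, β x ≤ max b 1 := fun x hx =>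
      (hb (mem_image_of_mem β hx)).trans (le_max_left _ _)
    have hc' : ∀ x ∈ nonwandering f, c x ≤ max c0 1 := fun x hx =>
      (hc0 (mem_image_of_mem c hx)).trans (le_max_left _ _)
    set B := max b 1 with hBdef
    set C := max c0 1 with hCdef
    have hB0 : 0 < B := lt_max_of_lt_right one_pos
    have hC0 : 0 < C := lt_max_of_lt_right one_pos
    have key : ∀ x ∈ nonwandering f, ∀ y ∈ nonwandering f, ∀ (A : EE d →L[ℝ] EE d) (n : ℕ)
        (v : EE d), ‖A v‖ ≤ c x * ν x ^ n * ‖v‖ →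
        √(γ.inner y (A v) (A v)) ≤ B * C * B * ν0 ^ n * √(γ.inner x v v) := by
      intro x hx y hy A n v hA
      have h1 : √(γ.inner y (A v) (A v)) ≤ β y * ‖A v‖ := hβ1 y (A v)
      have h2 : ‖v‖ ≤ β x * √(γ.inner x v v) := hβ2 x v
      have h3 := hν x hx
      have h4 := hc x hx
      have h5 : 0 ≤ √(γ.inner x v v) := Real.sqrt_nonneg _
      have h6 : 0 ≤ ‖v‖ := norm_nonneg _
      calc √(γ.inner y (A v) (A v)) ≤ β y * ‖A v‖ := h1
        _ ≤ B * (c x * ν x ^ n * ‖v‖) :=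
          mul_le_mul (hb' y hy) hA (norm_nonneg _) hB0.le
        _ ≤ B * (C * ν0 ^ n * ‖v‖) := by
          gcongr
          · exact hc' x hx
          · exact hν02 x hx
        _ ≤ B * (C * ν0 ^ n * (B * √(γ.inner x v v))) := by
          have h7 : ‖v‖ ≤ B * √(γ.inner x v v) :=
            h2.trans (mul_le_mul_of_nonneg_right (hb' x hx) h5)
          have h8 : 0 ≤ C * ν0 ^ n := by positivity
          exact mul_le_mul_of_nonneg_left (mul_le_mul_of_nonneg_left h7 h8) hB0.le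
        _ = B * C * B * ν0 ^ n * √(γ.inner x v v) := by ring
    refine ⟨B * C * B, ν0, by positivity, hν0, hν01, ?_, ?_⟩
    · intro x hx v hv n
      exact key x hx (f^[n] x) (nonwandering_iter f hx n) (der (d := d) f^[n] x) n v (hs x hx v hv n)
    · intro x hx v hv n
      exact key x hx (f.symm^[n] x) (nonwandering_symm_iter f hx n) (der (d := d) f.symm^[n] x) n v
        (hu x hx v hv n)

end Main

end FinHyp

/-- W11, with the splitting of hyperbolic linear maps (`HypLin.split`) as a hypothesis. -/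
theorem hyperbolicOn_of_finite_aux {d : ℕ} {M : Type*} [MetricSpace M] [ChartedSpace (EE d) M]
    {r : ℕ∞} [IsManifold (𝓡 d) ∞ M]
    (hsplit : ∀ D : EE d →L[ℝ] EE d, HypLin D →
      ∃ (Es Eu : Submodule ℝ (EE d)) (C μ : ℝ), IsCompl Es Eu ∧ (∀ v ∈ Es, D v ∈ Es) ∧
      (∀ v ∈ Eu, D v ∈ Eu) ∧ 0 < C ∧ 0 < μ ∧ μ < 1 ∧
      (∀ v ∈ Es, ∀ n : ℕ, ‖(D ^ n) v‖ ≤ C * μ ^ n * ‖v‖) ∧
      (∀ v ∈ Eu, ∀ n : ℕ, ‖v‖ ≤ C * μ ^ n * ‖(D ^ n) v‖))
    (hr : 1 ≤ r) (f : Dyn d M r) (hfin : (nonwandering f).Finite)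
    (hper : nonwandering f ⊆ periodicPts f) (hhyp : ∀ p ∈ periodicPts f, HypAt (d := d) f p) :
    HyperbolicOn f (nonwandering f) := by
  refine FinHyp.main (fun D hD => ?_) hr f hfin hper hhyp
  obtain ⟨Es, Eu, C, μ, h1, h2, h3, h4, h5, h6, h7, h8⟩ := hsplit D hD
  exact ⟨Es, Eu, C, μ, ⟨h1, h2, h3, h4, h5, h6, h7, h8⟩⟩

/-- W11 -/
theorem hyperbolicOn_of_finite {d : ℕ} {M : Type*} [MetricSpace M] [ChartedSpace (EE d) M]
    {r : ℕ∞} [IsManifold (𝓡 d) ∞ M] (hr : 1 ≤ r) (f : Dyn d M r)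
    (hfin : (nonwandering f).Finite) (hper : nonwandering f ⊆ periodicPts f)
    (hhyp : ∀ p ∈ periodicPts f, HypAt (d := d) f p) :
    HyperbolicOn f (nonwandering f) :=
  hyperbolicOn_of_finite_aux (fun _ hD => hD.split) hr f hfin hper hhyp

end Pool.Agent.OmegaStab
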