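import Pool.Agent.Work.MP_814647_an.Bd.B05

/-!
# Assembly
-/

open Set Filter Topology Function
open scoped Manifold ContDiff

noncomputable section

namespace Pool.Agent.OmegaStab

section Top

variable {M : Type*} [MetricSpace M]

theorem tendsto_nhdsSet_of_dist {u v : ℕ → M} {A : Set M} (hA : IsCompact A)
    (hu : ∀ n, u n ∈ A) (hd : Tendsto (fun n => dist (u n) (v n)) atTop (𝓝 0)) :
    Tendsto v atTop (𝓝ˢ A) := by
  intro U hU
  rw [mem_nhdsSet_iff_exists] at hU
  obtain ⟨V, hV, hAV, hVU⟩ := hU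
  obtain ⟨δ, hδ, hsub⟩ := hA.exists_thickening_subset_open hV hAV
  have h1 : ∀ᶠ n in atTop, v n ∈ U := by
    filter_upwards [hd.eventually (gt_mem_nhds hδ)] with n hn
    refine hVU (hsub (Metric.mem_thickening_iff.2 ⟨u n, hu n, ?_⟩))
    rwa [dist_comm]
  exact h1

end Top

section Man

variable {d : ℕ} {M : Type*} [MetricSpace M] [ChartedSpace (EE d) M] {r : ℕ∞}

theorem conjClass_of_conj {f : Dyn d M r} {N : Set (Dyn d M r)}
    (h : ∀ g ∈ N, ∃ h : nonwandering f ≃ₜ nonwandering g,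
      ∀ x y : nonwandering f, (y : M) = f x → (h y : M) = g (h x)) : ConjClass N := by
  intro g₁ hg₁ g₂ hg₂
  obtain ⟨h₁, hh₁⟩ := h g₁ hg₁
  obtain ⟨h₂, hh₂⟩ := h g₂ hg₂
  refine ⟨h₁.symm.trans h₂, fun x y hy => ?_⟩
  change (h₂ (h₁.symm y) : M) = g₂ (h₂ (h₁.symm x))
  apply hh₂
  have h3 := hh₁ (h₁.symm x) ⟨f (h₁.symm x), nonwandering_map f (h₁.symm x).2⟩ rfl
  rw [h₁.apply_symm_apply, ← hy] at h3
  have h4 : h₁ ⟨f (h₁.symm x), nonwandering_map f (h₁.symm x).2⟩ = y := Subtype.ext h3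
  rw [← h4, h₁.symm_apply_apply]

theorem Recurrent.mem_nonwandering {f : Dyn d M r} {x : M} (hx : Recurrent f x) :
    x ∈ nonwandering f := by
  intro U hU
  have h1 := ((mapClusterPt_iff_frequently.1 hx) U hU).and_eventually (eventually_gt_atTop 0)
  obtain ⟨n, hn, hn0⟩ := h1.exists
  exact ⟨n, hn0, f^[n] x, ⟨x, mem_of_mem_nhds hU, rfl⟩, hn⟩

/-- The property that all recurrent points are periodic is invariant under conjugacy on the
nonwandering sets. -/
theorem recurrent_periodic_of_conj {f g : Dyn d M r}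
    (h : ∃ h : nonwandering g ≃ₜ nonwandering f,
      ∀ x y : nonwandering g, (y : M) = g x → (h y : M) = f (h x))
    (hrec : ∀ x : M, Recurrent f x → x ∈ periodicPts f) :
    ∀ x : M, Recurrent g x → x ∈ periodicPts g := by
  obtain ⟨h, hh⟩ := h
  intro x hx
  have hxΩ := hx.mem_nonwandering
  -- the orbit as a sequence in the nonwandering set
  have h1 : MapClusterPt (⟨x, hxΩ⟩ : nonwandering g) atTop
      (fun n : ℕ => (⟨g^[n] x, nonwandering_iterate g hxΩ n⟩ : nonwandering g)) := by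
    rw [mapClusterPt_iff_frequently]
    intro s hs
    obtain ⟨t, ht, hts⟩ := (mem_nhds_induced _ _ _).1 hs
    exact ((mapClusterPt_iff_frequently.1 hx) t ht).mono fun n hn => hts hn
  have h2 : MapClusterPt ((fun y => (h y : M)) (⟨x, hxΩ⟩ : nonwandering g)) atTop
      ((fun y => (h y : M)) ∘
        (fun n : ℕ => (⟨g^[n] x, nonwandering_iterate g hxΩ n⟩ : nonwandering g))) :=
    MapClusterPt.continuousAt_comp (f := fun y => (h y : M))
      (continuous_subtype_val.comp h.continuous).continuousAt h1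
  have h3 : ((fun y => (h y : M)) ∘
        (fun n : ℕ => (⟨g^[n] x, nonwandering_iterate g hxΩ n⟩ : nonwandering g))) =
      fun n : ℕ => f^[n] (h ⟨x, hxΩ⟩ : M) := by
    funext n
    exact conj_iterate h hh n ⟨x, hxΩ⟩ _ rfl
  rw [h3] at h2
  obtain ⟨n, hn, hn'⟩ := hrec _ h2
  have hn'' : f^[n] (h ⟨x, hxΩ⟩ : M) = h ⟨x, hxΩ⟩ := hn'
  refine ⟨n, hn, ?_⟩
  have h4 := conj_iterate h hh n ⟨x, hxΩ⟩ ⟨g^[n] x, nonwandering_iterate g hxΩ n⟩ rfl
  rw [hn''] at h4
  have h5 := h.injective (Subtype.ext h4)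
  exact congrArg Subtype.val h5

variable [CompactSpace M] [IsManifold (𝓡 d) ∞ M]

/-- In a class of mutually conjugate diffeomorphisms whose recurrent points are periodic there are
no cycles of periodic orbits. -/
theorem no_cycle_of_class (hr : 1 ≤ r) {N : Set (Dyn d M r)} (hN : IsOpen[crTopology d M r] N)
    (hconj : ConjClass N) (hrec : ∀ g ∈ N, ∀ x : M, Recurrent g x → x ∈ periodicPts g)
    {g : Dyn d M r} (hg : g ∈ N) (m : ℕ) (hm : 0 < m) : ¬ HasCycle g.toHomeomorph m := by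
  intro hcyc
  have hhyp := hypAt_of_conjClass hr hN hconj
  obtain ⟨g', hg', hcyc'⟩ := exists_homoclinic hN hr hhyp m g hg hm hcyc
  obtain ⟨g'', hg'', y, hy, hyper⟩ := exists_nonperiodic_recurrent hN hr hhyp g' hg' hcyc'
  exact hyper (hrec g'' hg'' y hy)

theorem finite_of_class (hr : 1 ≤ r) {N : Set (Dyn d M r)} (hN : IsOpen[crTopology d M r] N)
    (hconj : ConjClass N) (hrec : ∀ g ∈ N, ∀ x : M, Recurrent g x → x ∈ periodicPts g)
    {g : Dyn d M r} (hg : g ∈ N) :
    (nonwandering g).Finite ∧ nonwandering g ⊆ periodicPts g := by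
  have hhyp := hypAt_of_conjClass hr hN hconj
  rcases finite_or_cycle g.toHomeomorph (hrec g hg) (fun p hp => by
    obtain ⟨W⟩ := exists_locModel hr g p (hhyp g hg p hp)
    exact LocModel.isolated (h := g.toHomeomorph) W) with h | ⟨m, hm, hcyc⟩
  · exact h
  · exact (no_cycle_of_class hr hN hconj hrec hg m hm hcyc).elim

omit [CompactSpace M] [IsManifold (𝓡 d) ∞ M] in
/-- The pieces of a finite nonwandering set are periodic orbits. -/
theorem IsPiece.eq_Orb {f : Dyn d M r}
    (hper : nonwandering f ⊆ periodicPts f) {S : Set M} (hS : IsPiece f S) :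
    ∃ q ∈ periodicPts f, S = Orb f q := by
  obtain ⟨hSΩ, -, hfS, -, q, hqS, hdense⟩ := hS
  have hq : q ∈ periodicPts f := hper (hSΩ hqS)
  refine ⟨q, hq, Set.Subset.antisymm ?_ ?_⟩
  · rwa [(Orb_finite hq).isClosed.closure_eq] at hdense
  · rintro _ ⟨n, rfl⟩
    change f^[n] q ∈ S
    induction n with
    | zero => exact hqS
    | succ n ih =>
      rw [Function.iterate_succ_apply', ← hfS]
      exact mem_image_of_mem _ ih

omit [CompactSpace M] [IsManifold (𝓡 d) ∞ M] in
theorem noCycle_of_finite {f : Dyn d M r}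
    (hper : nonwandering f ⊆ periodicPts f)
    (hcyc : ∀ m, 0 < m → ¬ HasCycle f.toHomeomorph m) : NoCycle f := by
  intro k hk S hS hinj
  by_contra hnone
  push Not at hnone
  have hnone' : ∀ i : ZMod k, (stableSet f (S (i + 1)) ∩ stableSet f.symm (S i)).Nonempty := by
    exact hnone
  choose x hx using hnone'
  choose q hq hSq using fun i => (hS i).eq_Orb hper
  have hq' : ∀ i, q i ∈ periodicPts f.toHomeomorph := hq
  have hfwd : ∀ i, Tendsto (fun n : ℕ => f.toHomeomorph^[n] (x i)) atTop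
      (𝓝ˢ (Orb f.toHomeomorph (q (i + 1)))) := by
    intro i
    obtain ⟨y, hy, hd⟩ := (hx i).1
    rw [hSq] at hy
    exact tendsto_nhdsSet_of_dist (Orb_finite (hq (i + 1))).isCompact
      (fun n => mem_Orb_iterate hy n) hd
  have hbwd : ∀ i, Tendsto (fun n : ℕ => f.toHomeomorph.symm^[n] (x i)) atTop
      (𝓝ˢ (Orb f.toHomeomorph (q i))) := by
    intro i
    obtain ⟨y, hy, hd⟩ := (hx i).2
    rw [hSq] at hy
    refine tendsto_nhdsSet_of_dist (u := fun n => f.toHomeomorph.symm^[n] y)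
      (Orb_finite (hq i)).isCompact (fun n => ?_) hd
    have hy' : y ∈ Orb f.toHomeomorph (q i) := hy
    rw [← Orb_eq_of_mem (hq' i) hy']
    exact symm_iterate_mem_Orb f.toHomeomorph (periodic_of_mem_Orb (hq' i) hy') n
  have hk0 : 0 < k := by omega
  have : Fact (1 < k) := ⟨hk⟩
  apply hcyc k hk0
  refine ⟨fun n => q (n : ZMod k), fun n => x (n : ZMod k), fun n => hq' _, ?_, fun i _ => ?_⟩
  · simp
  · refine ⟨fun hxp => ?_, hbwd _, ?_⟩
    · have h1 := mem_Orb_of_tendsto f.toHomeomorph (hq' _) hxp (hfwd (i : ZMod k))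
      have h2 : x (i : ZMod k) ∈ Orb f.toHomeomorph (q (i : ZMod k)) := by
        have h3 : x (i : ZMod k) ∈ Orb f.toHomeomorph.symm (q (i : ZMod k)) := by
          refine mem_Orb_of_tendsto f.toHomeomorph.symm ?_ ?_ ?_
          · rw [symm_periodicPts]; exact hq' _
          · rw [symm_periodicPts]; exact hxp
          · rw [Orb_symm _ (hq' _)]; exact hbwd _
        rwa [Orb_symm _ (hq' _)] at h3
      have h4 : S ((i : ZMod k) + 1) = S (i : ZMod k) := by
        rw [hSq, hSq]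
        exact (Orb_eq_of_mem (hq' _) h1).symm.trans (Orb_eq_of_mem (hq' _) h2)
      have h5 := hinj h4
      exact one_ne_zero (add_eq_left.1 h5)
    · simp only [Nat.cast_add, Nat.cast_one]
      exact hfwd _

/-- The main result. -/
theorem omegaStable_main (hr : 1 ≤ r) (f : Dyn d M r) (hst : OmegaStable f)
    (hcl : f ∈ @closure _ (crTopology d M r)
      {g : Dyn d M r | ∀ x : M, Recurrent g x → x ∈ periodicPts g}) :
    (nonwandering f).Finite ∧ AxiomA f ∧ NoCycle f := by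
  obtain ⟨N, hN, hfN, hNconj⟩ := hst
  have hconj : ConjClass N := conjClass_of_conj hNconj
  obtain ⟨g₀, hg₀N, hg₀⟩ : ∃ g₀ ∈ N, ∀ x : M, Recurrent g₀ x → x ∈ periodicPts g₀ := by
    let _ := crTopology d M r
    obtain ⟨g₀, h1, h2⟩ := mem_closure_iff.1 hcl N hN hfN
    exact ⟨g₀, h1, h2⟩
  have hrec : ∀ g ∈ N, ∀ x : M, Recurrent g x → x ∈ periodicPts g := fun g hg =>
    recurrent_periodic_of_conj (hconj g hg g₀ hg₀N) hg₀
  obtain ⟨hfin, hper⟩ := finite_of_class hr hN hconj hrec hfN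
  refine ⟨hfin, ⟨?_, fun x hx => subset_closure (hper hx)⟩, ?_⟩
  · exact hyperbolicOn_of_finite hr f hfin hper (hypAt_of_conjClass hr hN hconj f hfN)
  · exact noCycle_of_finite hper fun m hm => no_cycle_of_class hr hN hconj hrec hfN m hm

end Man

end Pool.Agent.OmegaStab
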