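import Pool.Agent.Work.MP_814647_an.DensStatement

/-!
# Circle extensions: contracting and expanding periodic points, the hypotheses on the base
-/

open Set Filter Topology
open scoped Manifold ContDiff

noncomputable section

namespace Pool.Agent.OmegaStability

/-- The periodic shadowing property of `A`: every periodic pseudo-orbit of `A` with small jumps is
shadowed by a periodic orbit of the same length. -/
def PeriodicShadowing {B : Type*} [MetricSpace B] (A : B → B) : Prop :=
  ∀ ε > 0, ∃ δ > 0, ∀ (n : ℕ) (x : ℕ → B), 0 < n → x n = x 0 →
    (∀ j < n, dist (A (x j)) (x (j + 1)) < δ) →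
    ∃ p : B, A^[n] p = p ∧ ∀ j ≤ n, dist (A^[j] p) (x j) < ε

/-- `A` is expansive on the closure of its periodic points: two full orbits in this set which
stay close to each other for all times are equal. -/
def ExpansiveOnPeriodic {B : Type*} [MetricSpace B] (A : B → B) : Prop :=
  ∃ κ > 0, ∀ x y : ℤ → B, (∀ j, x j ∈ closure (Function.periodicPts A)) →
    (∀ j, y j ∈ closure (Function.periodicPts A)) → (∀ j, x (j + 1) = A (x j)) →
    (∀ j, y (j + 1) = A (y j)) → (∀ j, dist (x j) (y j) ≤ κ) → x 0 = y 0

section

variable (E : Type*) [NormedAddCommGroup E] [NormedSpace ℝ E]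
  {M : Type*} [MetricSpace M] [ChartedSpace E M] [MulAction Circle M]

/-- The velocity of the circle action at `y`. -/
def circleVector (y : M) : TangentSpace 𝓘(ℝ, E) y :=
  mfderiv 𝓘(ℝ, ℝ) 𝓘(ℝ, E) (fun θ : ℝ => Circle.exp θ • y) 0 (1 : ℝ)

/-- The periodic points of `f` at which the derivative of a return map multiplies the velocity of
the circle action by a number of modulus less than one. -/
def CircleContracting (f : M → M) : Set M :=
  {y | ∃ n > 0, f^[n] y = y ∧ ∃ c : ℝ, |c| < 1 ∧
    mfderiv 𝓘(ℝ, E) 𝓘(ℝ, E) f^[n] y (circleVector E y) = c • circleVector E y}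

/-- The periodic points of `f` at which the derivative of a return map multiplies the velocity of
the circle action by a number of modulus greater than one. -/
def CircleExpanding (f : M → M) : Set M :=
  {y | ∃ n > 0, f^[n] y = y ∧ ∃ c : ℝ, 1 < |c| ∧
    mfderiv 𝓘(ℝ, E) 𝓘(ℝ, E) f^[n] y (circleVector E y) = c • circleVector E y}

/-- The nonwandering set of `f` is the union of the closures of the sets of contracting and of
expanding periodic points, and these closures are disjoint. -/
def SplitsByCircleIndex (f : M → M) : Prop :=
  Omega f = closure (CircleContracting E f) ∪ closure (CircleExpanding E f) ∧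
    Disjoint (closure (CircleContracting E f)) (closure (CircleExpanding E f))

end

end Pool.Agent.OmegaStability
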