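import Pool.Agent.Work.MP_814647_an.Defs

/-!
# Existence of a continuous Riemannian metric on a closed manifold
-/

open Set Filter Topology Function
open scoped Manifold ContDiff

noncomputable section

namespace Pool.Agent.OmegaStab

/-- The inner product of the model space as a bilinear map. -/
def ip (d : ℕ) : EE d →L[ℝ] EE d →L[ℝ] ℝ := innerSL ℝ

theorem ip_apply {d : ℕ} (v w : EE d) : ip d v w = inner ℝ v w := rfl

theorem exists_lower_bound {d : ℕ} (B : EE d →L[ℝ] EE d →L[ℝ] ℝ)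
    (hpos : ∀ v : EE d, v ≠ 0 → 0 < B v v) :
    ∃ α : ℝ, 0 < α ∧ ∀ v : EE d, ‖v‖ ≤ α * √(B v v) := by
  by_cases hne : (Metric.sphere (0 : EE d) 1).Nonempty
  · obtain ⟨v0, hv0, hmin⟩ := (isCompact_sphere (0 : EE d) 1).exists_isMinOn hne
      (f := fun v => B v v) (by fun_prop)
    have hv0' : v0 ≠ 0 := by
      rintro rfl
      simp at hv0
    have hm := hpos v0 hv0'
    refine ⟨1 / √(B v0 v0), by positivity, fun v => ?_⟩
    by_cases hv : v = 0
    · simp [hv]
    have hvn : 0 < ‖v‖ := norm_pos_iff.2 hv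
    have h1 : B v0 v0 ≤ B (‖v‖⁻¹ • v) (‖v‖⁻¹ • v) := by
      apply hmin
      rw [mem_sphere_zero_iff_norm, norm_smul, norm_inv, norm_norm, inv_mul_cancel₀ hvn.ne']
    have h2 : B (‖v‖⁻¹ • v) (‖v‖⁻¹ • v) = (‖v‖⁻¹) ^ 2 * B v v := by
      simp only [map_smul, smul_apply, smul_eq_mul]
      ring
    rw [h2] at h1
    have h3 : ‖v‖ ^ 2 * B v0 v0 ≤ B v v := by
      calc ‖v‖ ^ 2 * B v0 v0 ≤ ‖v‖ ^ 2 * ((‖v‖⁻¹) ^ 2 * B v v) := by gcongr
        _ = B v v := by field_simp
    have h4 : ‖v‖ * √(B v0 v0) ≤ √(B v v) := by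
      calc ‖v‖ * √(B v0 v0) = √(‖v‖ ^ 2 * B v0 v0) := by
            rw [Real.sqrt_mul (by positivity), Real.sqrt_sq (norm_nonneg _)]
        _ ≤ √(B v v) := Real.sqrt_le_sqrt h3
    rw [one_div, inv_mul_eq_div, le_div_iff₀ (by positivity)]
    exact h4
  · refine ⟨1, one_pos, fun v => ?_⟩
    have : v = 0 := by
      by_contra hv
      apply hne
      refine ⟨‖v‖⁻¹ • v, ?_⟩
      rw [mem_sphere_zero_iff_norm, norm_smul, norm_inv, norm_norm,
        inv_mul_cancel₀ (norm_pos_iff.2 hv).ne']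
    simp [this]

theorem isVonNBounded_of_pos {d : ℕ} (B : EE d →L[ℝ] EE d →L[ℝ] ℝ)
    (hpos : ∀ v : EE d, v ≠ 0 → 0 < B v v) :
    Bornology.IsVonNBounded ℝ {v : EE d | B v v < 1} := by
  obtain ⟨α, hα, h⟩ := exists_lower_bound B hpos
  refine (NormedSpace.isVonNBounded_ball ℝ (EE d) (α + 1)).subset ?_
  intro v hv
  rw [mem_ball_zero_iff]
  have h1 : √(B v v) ≤ 1 := by
    rw [← Real.sqrt_one]
    exact Real.sqrt_le_sqrt (le_of_lt hv)
  have h2 := h v
  nlinarith

variable {d : ℕ} {M : Type*} [MetricSpace M] [ChartedSpace (EE d) M]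
  [CompactSpace M] [IsManifold (𝓡 d) ∞ M]

set_option synthInstance.maxHeartbeats 400000 in
variable (d M) in
theorem exists_metric :
    Nonempty (Bundle.ContinuousRiemannianMetric (EE d) (fun x : M => TangentSpace (𝓡 d) x)) := by
  have : IsManifold (𝓡 d) (∞ + 1) M := ‹IsManifold (𝓡 d) ∞ M›
  have hloc : ∀ x₀ : M, ∃ U ∈ 𝓝 x₀, ∃ (s : (x : M) → (TangentSpace (𝓡 d) x →L[ℝ]
      TangentSpace (𝓡 d) x →L[ℝ] ℝ)),
      ContMDiffOn (𝓡 d) ((𝓡 d).prod 𝓘(ℝ, EE d →L[ℝ] EE d →L[ℝ] ℝ)) ∞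
        (fun x => Bundle.TotalSpace.mk' (EE d →L[ℝ] EE d →L[ℝ] ℝ)
          (E := fun x : M => TangentSpace (𝓡 d) x →L[ℝ] TangentSpace (𝓡 d) x →L[ℝ] ℝ) x (s x)) U ∧
      ∀ y ∈ U, (∀ v w, s y v w = s y w v) ∧ ∀ v, v ≠ 0 → 0 < s y v v := by
    intro x₀
    set e := trivializationAt (EE d →L[ℝ] EE d →L[ℝ] ℝ)
      (fun x : M => TangentSpace (𝓡 d) x →L[ℝ] TangentSpace (𝓡 d) x →L[ℝ] ℝ) x₀ with he
    refine ⟨e.baseSet, e.open_baseSet.mem_nhds (FiberBundle.mem_baseSet_trivializationAt' x₀),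
      fun x => e.symm x (ip d), ?_, ?_⟩
    · have h1 := (Bundle.Trivialization.contMDiffOn_section_baseSet_iff (𝕜 := ℝ) (B := M)
        (F := EE d →L[ℝ] EE d →L[ℝ] ℝ)
        (E := fun x : M => TangentSpace (𝓡 d) x →L[ℝ] TangentSpace (𝓡 d) x →L[ℝ] ℝ) (IB := 𝓡 d)
        (n := ∞) (s := fun x => e.symm x (ip d)) e).2
      apply h1
      apply (contMDiffOn_const (c := ip d)).congr
      intro y hy
      rw [e.apply_mk_symm hy]
    · intro y hy
      have hy1 : y ∈ (trivializationAt (EE d) (TangentSpace (𝓡 d) : M → Type) x₀).baseSet := by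
        have : e.baseSet = (trivializationAt (EE d) (TangentSpace (𝓡 d) : M → Type) x₀).baseSet := by
          simp [he, hom_trivializationAt_baseSet]
        rwa [this] at hy
      set A := trivializationAt (EE d) (TangentSpace (𝓡 d) : M → Type) x₀ with hA
      have h2 : (e ⟨y, e.symm y (ip d)⟩).2 = ip d := by rw [e.apply_mk_symm hy]
      have key : ∀ v w : EE d, e.symm y (ip d) (A.symm y v) (A.symm y w) = inner ℝ v w := by
        intro v w
        have h3 := inCoordinates_apply_eq₂ (𝕜 := ℝ) (F₁ := EE d) (E₁ := (TangentSpace (𝓡 d) : M → Type))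
          (F₂ := EE d) (E₂ := (TangentSpace (𝓡 d) : M → Type)) (F₃ := ℝ)
          (E₃ := Bundle.Trivial M ℝ) (x₀ := x₀) (x := y)
          (ϕ := e.symm y (ip d)) (v := v) (w := w) hy1 hy1 (by simp)
        have h4 : (e ⟨y, e.symm y (ip d)⟩).2 v w = inner ℝ v w := by rw [h2]; rfl
        have h5 := h3.symm.trans h4
        simpa using h5
      have hsurj : ∀ u : TangentSpace (𝓡 d) y, ∃ v : EE d, A.symm y v = u := fun u =>
        ⟨(A ⟨y, u⟩).2, A.symm_proj_apply ⟨y, u⟩ hy1⟩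
      refine ⟨fun v w => ?_, fun v hv => ?_⟩
      · obtain ⟨v', rfl⟩ := hsurj v
        obtain ⟨w', rfl⟩ := hsurj w
        rw [key, key, real_inner_comm]
      · obtain ⟨v', rfl⟩ := hsurj v
        rw [key]
        apply real_inner_self_pos.2
        rintro rfl
        apply hv
        rw [← A.symmL_apply (R := ℝ) hy1]
        exact map_zero _
  obtain ⟨s, hs⟩ := exists_contMDiffSection_forall_mem_convex_of_local (I := 𝓡 d) (n := ⊤)
    (F_fiber := EE d →L[ℝ] EE d →L[ℝ] ℝ)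
    (V := fun x : M => TangentSpace (𝓡 d) x →L[ℝ] TangentSpace (𝓡 d) x →L[ℝ] ℝ)
    (t := fun x => {b | (∀ v w, b v w = b w v) ∧ ∀ v, v ≠ 0 → 0 < b v v})
    (fun x => by
      rintro b ⟨hb1, hb2⟩ c ⟨hc1, hc2⟩ s t hs ht hst
      refine ⟨fun v w => ?_, fun v hv => ?_⟩
      · simp only [add_apply, smul_apply, hb1 v w, hc1 v w]
      · simp only [add_apply, smul_apply, smul_eq_mul]
        have h1 := hb2 v hv
        have h2 := hc2 v hv
        rcases hs.lt_or_eq with h | h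
        · have := mul_pos h h1
          have := mul_nonneg ht h2.le
          linarith
        · rw [← h, zero_add] at hst
          rw [← h, hst]
          linarith)
    hloc
  exact ⟨{
    inner := fun x => s x
    symm := fun x => (hs x).1
    pos := fun x => (hs x).2
    isVonNBounded := fun x => isVonNBounded_of_pos (d := d) (s x) (hs x).2
    continuous := s.contMDiff.continuous }⟩

end Pool.Agent.OmegaStab
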