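import Pool.Agent.Work.MP_814647_an.Bd.B03
import Pool.Agent.Work.MP_814647_an.FinHyp

/-!
# The derivative of the return map at a hyperbolic periodic point has no fixed vector
-/

open Set Filter Topology
open scoped Manifold ContDiff ComplexConjugate

noncomputable section

namespace Pool.Agent.OmegaStability

open Pool.Agent.OmegaStab Pool.Agent.OmegaStab.FinHyp Function

theorem hypLin_pow_fixed {E : Type*} [NormedAddCommGroup E] [NormedSpace ℝ E]
    [FiniteDimensional ℝ E] {D : E →L[ℝ] E} (h : HypLin D) {j : ℕ} (hj : 0 < j) {v : E}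
    (hv : (D ^ j) v = v) : v = 0 := by
  obtain ⟨Es, Eu, C, μ, hc, hs, hu, hC, hμ, hμ1, h1, h2⟩ := h.split
  obtain ⟨s, hsm, u, hum, rfl⟩ : ∃ s ∈ Es, ∃ u ∈ Eu, s + u = v := by
    have : v ∈ Es ⊔ Eu := by rw [hc.sup_eq_top]; trivial
    exact Submodule.mem_sup.1 this
  have hs' : (D ^ j) s ∈ Es := pow_mem hs hsm j
  have hu' : (D ^ j) u ∈ Eu := pow_mem hu hum j
  rw [map_add] at hv
  have hd : (D ^ j) s - s = u - (D ^ j) u := by
    rw [sub_eq_sub_iff_add_eq_add, hv, add_comm]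
  have hzero : (D ^ j) s - s = 0 := by
    have hmem1 : (D ^ j) s - s ∈ Es := Es.sub_mem hs' hsm
    have hmem2 : (D ^ j) s - s ∈ Eu := by
      rw [hd]
      exact Eu.sub_mem hum hu'
    exact Submodule.disjoint_def.1 hc.disjoint _ hmem1 hmem2
  have hsfix : (D ^ j) s = s := sub_eq_zero.1 hzero
  have hufix : (D ^ j) u = u := by
    rw [hzero] at hd
    exact (sub_eq_zero.1 hd.symm).symm
  have iter : ∀ w : E, (D ^ j) w = w → ∀ n : ℕ, (D ^ (j * n)) w = w := by
    intro w hw n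
    induction n with
    | zero => simp
    | succ n ih =>
      rw [Nat.mul_succ, pow_add]
      change (D ^ (j * n)) ((D ^ j) w) = w
      rw [hw, ih]
  have hμj : 0 < μ ^ j := pow_pos hμ j
  have hμj1 : μ ^ j < 1 := pow_lt_one₀ hμ.le hμ1 hj.ne'
  have hs0 : s = 0 := by
    refine eq_zero_of_bound (C := C) (μ := μ ^ j) (B := ‖s‖) hμj hμj1 s fun n => ?_
    have := h1 s hsm (j * n)
    rwa [iter s hsfix n, pow_mul] at this
  have hu0 : u = 0 := by
    refine eq_zero_of_bound (C := C) (μ := μ ^ j) (B := ‖u‖) hμj hμj1 u fun n => ?_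
    have := h2 u hum (j * n)
    rwa [iter u hufix n, pow_mul] at this
  rw [hs0, hu0, add_zero]

variable {d : ℕ} {B M : Type*} [MetricSpace B] [CompactSpace B]
  [ChartedSpace (EuclideanSpace ℝ (Fin d)) B]
  [IsManifold 𝓘(ℝ, EuclideanSpace ℝ (Fin d)) ∞ B]
  [MetricSpace M] [CompactSpace M] [ChartedSpace (EuclideanSpace ℝ (Fin (d + 1))) M]
  [IsManifold 𝓘(ℝ, EuclideanSpace ℝ (Fin (d + 1))) ∞ M] [MulAction Circle M]

omit [CompactSpace M] [IsManifold 𝓘(ℝ, EuclideanSpace ℝ (Fin (d + 1))) ∞ M]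
  [MulAction Circle M] in
theorem mfderiv_ne_self_of_hypAt {r : ℕ∞} (hr : 1 ≤ r) (g : OmegaStab.Dyn (d + 1) M r) (y : M)
    (hy : OmegaStab.HypAt (d := d + 1) g y) (m : ℕ) (hm : 0 < m) (hgm : g^[m] y = y)
    (v : TangentSpace (𝓡 (d + 1)) y)
    (hv : mfderiv (𝓡 (d + 1)) (𝓡 (d + 1)) g^[m] y v = v) : v = 0 := by
  obtain ⟨hper, hlin⟩ := hy
  have hg := mdiff hr g
  have hfx : g^[minimalPeriod g y] y = y := Function.iterate_minimalPeriod
  have hdvd : minimalPeriod g y ∣ m := Function.IsPeriodicPt.minimalPeriod_dvd hgm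
  obtain ⟨j, rfl⟩ := hdvd
  have hj : 0 < j := Nat.pos_of_mul_pos_left hm
  rw [← der_eq_fderiv (mdiff_iter hg _) hfx] at hlin
  have hv' : (der (d := d + 1) g^[minimalPeriod g y * j] y) v = v := hv
  rw [der_iter_mul hg hfx j] at hv'
  exact hypLin_pow_fixed hlin hj hv'

end Pool.Agent.OmegaStability
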