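import Pool.Agent.Work.MP_814647_an.Bd.B03

/-!
# Closedness of the splitting and hyperbolicity of a union of two closed invariant sets
-/

open Set Filter Topology
open scoped Manifold ContDiff ComplexConjugate

noncomputable section

namespace Pool.Agent.OmegaStability

namespace UnionHyp

section Norm

variable {E : Type*} [NormedAddCommGroup E] [NormedSpace ℝ E]
  {M : Type*} [MetricSpace M] [ChartedSpace E M] [IsManifold 𝓘(ℝ, E) ∞ M]

theorem continuous_rnorm (γ : RMetric E M) :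
    Continuous (fun v : TangentBundle 𝓘(ℝ, E) M => rnorm γ v.1 v.2) := by
  have : IsManifold 𝓘(ℝ, E) 1 M := IsManifold.of_le (n := ∞) (by simp)
  unfold rnorm
  refine Real.continuous_sqrt.comp ?_
  rw [continuous_iff_continuousAt]
  intro x
  have hid : ContinuousAt (fun m : TangentBundle 𝓘(ℝ, E) M =>
      Bundle.TotalSpace.mk' E (E := (TangentSpace 𝓘(ℝ, E) : M → Type _)) m.1 m.2) x :=
    continuousAt_id
  have hp : ContinuousAt (fun v : TangentBundle 𝓘(ℝ, E) M => v.1) x :=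
    (FiberBundle.continuous_proj E (TangentSpace 𝓘(ℝ, E) : M → Type _)).continuousAt
  have h1 : ContinuousAt (fun m : TangentBundle 𝓘(ℝ, E) M =>
      Bundle.TotalSpace.mk' ℝ (E := Bundle.Trivial M ℝ) m.1 (γ.inner m.1 m.2 m.2)) x :=
    (γ.continuous.continuousAt.comp hp).clm_bundle_apply₂ (F₁ := E) (F₂ := E) hid hid
  rw [FiberBundle.continuousAt_totalSpace] at h1
  exact h1.2

theorem rnorm_nonneg (γ : RMetric E M) (x : M) (v : TangentSpace 𝓘(ℝ, E) x) :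
    0 ≤ rnorm γ x v := Real.sqrt_nonneg _

theorem eq_zero_of_rnorm_nonpos (γ : RMetric E M) (x : M) (v : TangentSpace 𝓘(ℝ, E) x)
    (h : rnorm γ x v ≤ 0) : v = 0 := by
  by_contra hv
  have := γ.pos x v hv
  have h2 : 0 < rnorm γ x v := Real.sqrt_pos.2 this
  linarith

/-- The triangle inequality for a nonnegative symmetric bilinear form. -/
theorem sqrt_form_le {F : Type*} [AddCommGroup F] [Module ℝ F] (B : F → F → ℝ)
    (hadd : ∀ u v w, B (u + v) w = B u w + B v w) (hsmul : ∀ (t : ℝ) u v, B (t • u) v = t * B u v)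
    (hsymm : ∀ u v, B u v = B v u) (hnn : ∀ u, 0 ≤ B u u) (v w : F) :
    √(B w w) ≤ √(B (v + w) (v + w)) + √(B v v) := by
  -- Cauchy-Schwarz
  have hadd' : ∀ u v w, B w (u + v) = B w u + B w v := fun u v w => by
    rw [hsymm, hadd, hsymm u, hsymm v]
  have hsmul' : ∀ (t : ℝ) u v, B v (t • u) = t * B v u := fun t u v => by
    rw [hsymm, hsmul, hsymm u]
  have hquad : ∀ (t : ℝ) (a b : F), 0 ≤ B a a + 2 * t * B a b + t ^ 2 * B b b := by
    intro t a b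
    have h := hnn (a + t • b)
    have h2 : B (a + t • b) (a + t • b) = B a a + 2 * t * B a b + t ^ 2 * B b b := by
      rw [hadd, hadd', hadd', hsmul, hsmul, hsmul', hsmul', hsymm b a]
      ring
    linarith
  have hCS : ∀ a b : F, B a b ^ 2 ≤ B a a * B b b := by
    intro a b
    have h := discrim_le_zero (a := B b b) (b := 2 * B a b) (c := B a a) (fun t => by
      have := hquad t a b
      nlinarith)
    unfold discrim at h
    nlinarith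
  set u := v + w with hu
  have hw : w = u + (-1 : ℝ) • v := by
    rw [hu]; simp
  have h1 : B w w = B u u - 2 * B u v + B v v := by
    have h2 : B w w = B (u + (-1 : ℝ) • v) (u + (-1 : ℝ) • v) := by rw [← hw]
    have h3 : ∀ a b : F, B (a + (-1 : ℝ) • b) (a + (-1 : ℝ) • b) = B a a - 2 * B a b + B b b := by
      intro a b
      rw [hadd a ((-1 : ℝ) • b), hadd' a ((-1 : ℝ) • b) a, hadd' a ((-1 : ℝ) • b) ((-1 : ℝ) • b),
        hsmul (-1) b a, hsmul (-1) b ((-1 : ℝ) • b), hsmul' (-1) b a, hsmul' (-1) b b, hsymm b a]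
      ring
    rw [h2, h3]
  rw [h1]
  apply Real.sqrt_le_iff.2
  refine ⟨by positivity, ?_⟩
  have h3 : -B u v ≤ √(B u u) * √(B v v) := by
    rw [← Real.sqrt_mul (hnn u)]
    apply Real.le_sqrt_of_sq_le
    have := hCS u v
    nlinarith
  have h4 := Real.sq_sqrt (hnn u)
  have h5 := Real.sq_sqrt (hnn v)
  nlinarith

theorem rnorm_le_add (γ : RMetric E M) (x : M) (v w : TangentSpace 𝓘(ℝ, E) x) :
    rnorm γ x w ≤ rnorm γ x (v + w) + rnorm γ x v := by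
  refine sqrt_form_le (fun a b => γ.inner x a b) (fun a b c => ?_) (fun t a b => ?_)
    (fun a b => γ.symm x a b) (fun a => ?_) v w
  · simp
  · simp
  · by_cases ha : a = 0
    · simp [ha]
    · exact (γ.pos x a ha).le

omit [IsManifold 𝓘(ℝ, E) ∞ M] in
theorem mdiff_iter {g : M → M} (hg : MDifferentiable 𝓘(ℝ, E) 𝓘(ℝ, E) g) (n : ℕ) :
    MDifferentiable 𝓘(ℝ, E) 𝓘(ℝ, E) g^[n] := by
  induction n with
  | zero => exact mdifferentiable_id
  | succ n ih => rw [Function.iterate_succ]; exact ih.comp hg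

theorem mfderiv_inv {g h : M → M} (hg : MDifferentiable 𝓘(ℝ, E) 𝓘(ℝ, E) g)
    (hh : MDifferentiable 𝓘(ℝ, E) 𝓘(ℝ, E) h) (hgh : ∀ x, h (g x) = x) (x : M)
    (v : TangentSpace 𝓘(ℝ, E) x) (B : ℝ) (γ : RMetric E M)
    (hB : rnorm γ (h (g x)) (mfderiv 𝓘(ℝ, E) 𝓘(ℝ, E) h (g x)
      (mfderiv 𝓘(ℝ, E) 𝓘(ℝ, E) g x v)) ≤ B) : rnorm γ x v ≤ B := by
  have h1 : mfderiv 𝓘(ℝ, E) 𝓘(ℝ, E) (h ∘ g) x =
      (mfderiv 𝓘(ℝ, E) 𝓘(ℝ, E) h (g x)).comp (mfderiv 𝓘(ℝ, E) 𝓘(ℝ, E) g x) :=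
    mfderiv_comp x (hh (g x)) (hg x)
  have h2 : h ∘ g = id := funext hgh
  have h3 : rnorm γ ((h ∘ g) x) (mfderiv 𝓘(ℝ, E) 𝓘(ℝ, E) (h ∘ g) x v) ≤ B := by
    rw [h1]
    exact hB
  rw [h2, mfderiv_id] at h3
  exact h3

/-- The splitting over a closed forward invariant set is determined by the estimates. -/
theorem mem_iff {g g' : M → M} (hg : MDifferentiable 𝓘(ℝ, E) 𝓘(ℝ, E) g)
    (hg' : MDifferentiable 𝓘(ℝ, E) 𝓘(ℝ, E) g') (hgg : ∀ x, g' (g x) = x)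
    {γ : RMetric E M} {Λ : Set M} {Es Eu : TFamily E M} {c μ : ℝ} (hc : 0 < c) (hμ : 0 < μ)
    (hμ1 : μ < 1) (hcompl : ∀ x ∈ Λ, IsCompl (Es x) (Eu x)) (hinv : InvariantOver g Eu Λ)
    (hs : ContractedOver g γ Es Λ c μ) (hu : ContractedOver g' γ Eu Λ c μ)
    (hΛ : ∀ x ∈ Λ, g x ∈ Λ) {x : M} (hx : x ∈ Λ) (v : TangentSpace 𝓘(ℝ, E) x) :
    v ∈ Es x ↔ ∀ n : ℕ,
      rnorm γ (g^[n] x) (mfderiv 𝓘(ℝ, E) 𝓘(ℝ, E) g^[n] x v) ≤ c * μ ^ n * rnorm γ x v := by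
  constructor
  · intro hv n
    exact hs x hx v hv n
  · intro hv
    obtain ⟨s, hss, u, huu, rfl⟩ : ∃ s ∈ Es x, ∃ u ∈ Eu x, s + u = v := by
      have : v ∈ Es x ⊔ Eu x := by rw [(hcompl x hx).sup_eq_top]; trivial
      exact Submodule.mem_sup.1 this
    have hmem : ∀ n : ℕ, g^[n] x ∈ Λ ∧ mfderiv 𝓘(ℝ, E) 𝓘(ℝ, E) g^[n] x u ∈ Eu (g^[n] x) := by
      intro n
      induction n with
      | zero =>
        refine ⟨hx, ?_⟩
        rw [Function.iterate_zero, mfderiv_id]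
        exact huu
      | succ n ih =>
        have h1 : mfderiv 𝓘(ℝ, E) 𝓘(ℝ, E) (g ∘ g^[n]) x =
            (mfderiv 𝓘(ℝ, E) 𝓘(ℝ, E) g (g^[n] x)).comp (mfderiv 𝓘(ℝ, E) 𝓘(ℝ, E) g^[n] x) :=
          mfderiv_comp x (hg _) (mdiff_iter hg n x)
        rw [Function.iterate_succ', h1]
        exact ⟨hΛ _ ih.1, hinv _ ih.1 _ ih.2⟩
    have hinvn : ∀ n : ℕ, ∀ y, g'^[n] (g^[n] y) = y := fun n y =>
      (Function.LeftInverse.iterate hgg n) y
    have hbound : ∀ n : ℕ, rnorm γ x u ≤ c * (c * rnorm γ x (s + u) + c * rnorm γ x s) * μ ^ n := by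
      intro n
      refine mfderiv_inv (mdiff_iter hg n) (mdiff_iter hg' n) (hinvn n) x u _ γ ?_
      refine (hu _ (hmem n).1 _ (hmem n).2 n).trans ?_
      have h1 : rnorm γ (g^[n] x) (mfderiv 𝓘(ℝ, E) 𝓘(ℝ, E) g^[n] x u) ≤
          rnorm γ (g^[n] x) (mfderiv 𝓘(ℝ, E) 𝓘(ℝ, E) g^[n] x (s + u)) +
            rnorm γ (g^[n] x) (mfderiv 𝓘(ℝ, E) 𝓘(ℝ, E) g^[n] x s) := by
        rw [map_add]
        exact rnorm_le_add γ _ _ _
      have h2 := hv n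
      have h3 := hs x hx s hss n
      have h4 : μ ^ n ≤ 1 := pow_le_one₀ hμ.le hμ1.le
      have h5 : 0 ≤ μ ^ n := by positivity
      have h6 := rnorm_nonneg γ x (s + u)
      have h7 := rnorm_nonneg γ x s
      calc c * μ ^ n * rnorm γ (g^[n] x) (mfderiv 𝓘(ℝ, E) 𝓘(ℝ, E) g^[n] x u)
          ≤ c * μ ^ n * (c * μ ^ n * rnorm γ x (s + u) + c * μ ^ n * rnorm γ x s) := by
            apply mul_le_mul_of_nonneg_left _ (by positivity)
            linarith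
        _ ≤ c * μ ^ n * (c * 1 * rnorm γ x (s + u) + c * 1 * rnorm γ x s) := by gcongr
        _ = c * (c * rnorm γ x (s + u) + c * rnorm γ x s) * μ ^ n := by ring
    have hlim : Tendsto (fun n : ℕ => c * (c * rnorm γ x (s + u) + c * rnorm γ x s) * μ ^ n)
        atTop (𝓝 0) := by
      have := (tendsto_pow_atTop_nhds_zero_of_lt_one hμ.le hμ1).const_mul
        (c * (c * rnorm γ x (s + u) + c * rnorm γ x s))
      simpa using this
    have hu0 : u = 0 := eq_zero_of_rnorm_nonpos γ x u (ge_of_tendsto' hlim hbound)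
    rw [hu0, add_zero]
    exact hss

theorem closedOver {g g' : M → M} (hg : ContMDiff 𝓘(ℝ, E) 𝓘(ℝ, E) 1 g)
    (hg' : MDifferentiable 𝓘(ℝ, E) 𝓘(ℝ, E) g') (hgg : ∀ x, g' (g x) = x)
    {γ : RMetric E M} {Λ : Set M} {Es Eu : TFamily E M} {c μ : ℝ} (hc : 0 < c) (hμ : 0 < μ)
    (hμ1 : μ < 1) (hcompl : ∀ x ∈ Λ, IsCompl (Es x) (Eu x)) (hinv : InvariantOver g Eu Λ)
    (hs : ContractedOver g γ Es Λ c μ) (hu : ContractedOver g' γ Eu Λ c μ)
    (hΛ : ∀ x ∈ Λ, g x ∈ Λ) (hcl : IsClosed Λ) : ClosedOver Es Λ := by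
  have hgd : MDifferentiable 𝓘(ℝ, E) 𝓘(ℝ, E) g := hg.mdifferentiable one_ne_zero
  have hgn : ∀ n : ℕ, ContMDiff 𝓘(ℝ, E) 𝓘(ℝ, E) 1 g^[n] := by
    intro n
    induction n with
    | zero => exact contMDiff_id
    | succ n ih => rw [Function.iterate_succ]; exact ih.comp hg
  have h1 : {v : TangentBundle 𝓘(ℝ, E) M | v.1 ∈ Λ ∧ v.2 ∈ Es v.1} =
      {v : TangentBundle 𝓘(ℝ, E) M | v.1 ∈ Λ} ∩ ⋂ n : ℕ, {v : TangentBundle 𝓘(ℝ, E) M |
        rnorm γ (g^[n] v.1) (mfderiv 𝓘(ℝ, E) 𝓘(ℝ, E) g^[n] v.1 v.2) ≤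
          c * μ ^ n * rnorm γ v.1 v.2} := by
    ext v
    simp only [mem_ofPred_eq, mem_inter_iff, mem_iInter]
    refine and_congr_right fun hv => ?_
    exact mem_iff hgd hg' hgg hc hμ hμ1 hcompl hinv hs hu hΛ hv v.2
  unfold ClosedOver
  rw [h1]
  have : IsManifold 𝓘(ℝ, E) 1 M := IsManifold.of_le (n := ∞) (by simp)
  refine IsClosed.inter ?_ (isClosed_iInter fun n => ?_)
  · exact hcl.preimage (FiberBundle.continuous_proj E (TangentSpace 𝓘(ℝ, E) : M → Type _))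
  · refine isClosed_le ?_ ?_
    · exact (continuous_rnorm γ).comp ((hgn n).continuous_tangentMap le_rfl)
    · exact (continuous_rnorm γ).const_mul _

end Norm

end UnionHyp

variable {E : Type*} [NormedAddCommGroup E] [NormedSpace ℝ E]
  {M : Type*} [MetricSpace M] [ChartedSpace E M] [IsManifold 𝓘(ℝ, E) ∞ M]

theorem HypEst.closedOver_s {r : ℕ∞} (hr : 1 ≤ r) (f : Diffeo E M r) {γ : RMetric E M}
    {Λ : Set M} {Es Eu : TFamily E M} {c μ : ℝ} (h : HypEst f f.symm γ Λ Es Eu c μ)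
    (hΛ : IsClosed Λ) (hf : ∀ x, f x ∈ Λ ↔ x ∈ Λ) : ClosedOver Es Λ := by
  have h1 : ContMDiff 𝓘(ℝ, E) 𝓘(ℝ, E) 1 f := f.contMDiff.of_le (by exact_mod_cast hr)
  have h2 : ContMDiff 𝓘(ℝ, E) 𝓘(ℝ, E) 1 f.symm := f.symm.contMDiff.of_le (by exact_mod_cast hr)
  exact UnionHyp.closedOver h1 (h2.mdifferentiable one_ne_zero) (fun x => f.symm_apply_apply x)
    h.c_pos h.mu_pos h.mu_lt h.compl h.inv_u h.contr_s h.contr_u (fun x hx => (hf x).2 hx) hΛ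

theorem HypEst.closedOver_u {r : ℕ∞} (hr : 1 ≤ r) (f : Diffeo E M r) {γ : RMetric E M}
    {Λ : Set M} {Es Eu : TFamily E M} {c μ : ℝ} (h : HypEst f f.symm γ Λ Es Eu c μ)
    (hΛ : IsClosed Λ) (hf : ∀ x, f x ∈ Λ ↔ x ∈ Λ) : ClosedOver Eu Λ := by
  have h1 : ContMDiff 𝓘(ℝ, E) 𝓘(ℝ, E) 1 f := f.contMDiff.of_le (by exact_mod_cast hr)
  have h2 : ContMDiff 𝓘(ℝ, E) 𝓘(ℝ, E) 1 f.symm := f.symm.contMDiff.of_le (by exact_mod_cast hr)
  refine UnionHyp.closedOver h2 (h1.mdifferentiable one_ne_zero) (fun x => f.apply_symm_apply x)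
    h.c_pos h.mu_pos h.mu_lt (fun x hx => (h.compl x hx).symm) h.inv_s' h.contr_u h.contr_s
    (fun x hx => ?_) hΛ
  have := hf (f.symm x)
  rw [f.apply_symm_apply] at this
  exact this.1 hx

open Classical in
theorem hyperbolicStructure_union {r : ℕ∞} (hr : 1 ≤ r) (f : Diffeo E M r) {γ : RMetric E M}
    {Λ₁ Λ₂ : Set M} {Es₁ Eu₁ Es₂ Eu₂ : TFamily E M} {c₁ μ₁ c₂ μ₂ : ℝ}
    (h₁ : HypEst f f.symm γ Λ₁ Es₁ Eu₁ c₁ μ₁) (h₂ : HypEst f f.symm γ Λ₂ Es₂ Eu₂ c₂ μ₂)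
    (hΛ₁ : IsClosed Λ₁) (hΛ₂ : IsClosed Λ₂) (hdis : Disjoint Λ₁ Λ₂)
    (hf₁ : ∀ x, f x ∈ Λ₁ ↔ x ∈ Λ₁) (hf₂ : ∀ x, f x ∈ Λ₂ ↔ x ∈ Λ₂) :
    HyperbolicStructure E f f.symm (Λ₁ ∪ Λ₂) := by
  have hnot : ∀ x, x ∈ Λ₂ → x ∉ Λ₁ := fun x h2 h1 => Set.disjoint_left.1 hdis h1 h2
  let U : TFamily E M → TFamily E M → TFamily E M := fun A B x => if x ∈ Λ₁ then A x else B x
  have hU1 : ∀ (A B : TFamily E M) (x : M), x ∈ Λ₁ → U A B x = A x := fun A B x hx => if_pos hx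
  have hU2 : ∀ (A B : TFamily E M) (x : M), x ∈ Λ₂ → U A B x = B x :=
    fun A B x hx => if_neg (hnot x hx)
  have hcl : ∀ A B : TFamily E M, ClosedOver A Λ₁ → ClosedOver B Λ₂ →
      ClosedOver (U A B) (Λ₁ ∪ Λ₂) := by
    intro A B hA hB
    have h : {v : TangentBundle 𝓘(ℝ, E) M | v.1 ∈ Λ₁ ∪ Λ₂ ∧ v.2 ∈ U A B v.1} =
        {v : TangentBundle 𝓘(ℝ, E) M | v.1 ∈ Λ₁ ∧ v.2 ∈ A v.1} ∪
          {v : TangentBundle 𝓘(ℝ, E) M | v.1 ∈ Λ₂ ∧ v.2 ∈ B v.1} := by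
      ext v
      simp only [mem_ofPred_eq, mem_union]
      constructor
      · rintro ⟨h1 | h1, h2⟩
        · rw [hU1 A B _ h1] at h2
          exact Or.inl ⟨h1, h2⟩
        · rw [hU2 A B _ h1] at h2
          exact Or.inr ⟨h1, h2⟩
      · rintro (⟨h1, h2⟩ | ⟨h1, h2⟩)
        · refine ⟨Or.inl h1, ?_⟩
          rw [hU1 A B _ h1]
          exact h2
        · refine ⟨Or.inr h1, ?_⟩
          rw [hU2 A B _ h1]
          exact h2
    unfold ClosedOver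
    rw [h]
    exact IsClosed.union hA hB
  have hinv : ∀ A B : TFamily E M, InvariantOver f A Λ₁ → InvariantOver f B Λ₂ →
      InvariantOver f (U A B) (Λ₁ ∪ Λ₂) := by
    rintro A B hA hB x (hx | hx) v hv
    · rw [hU1 A B _ hx] at hv
      rw [hU1 A B _ ((hf₁ x).2 hx)]
      exact hA x hx v hv
    · rw [hU2 A B _ hx] at hv
      rw [hU2 A B _ ((hf₂ x).2 hx)]
      exact hB x hx v hv
  have hcon : ∀ (g : M → M) (A B : TFamily E M), ContractedOver g γ A Λ₁ c₁ μ₁ →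
      ContractedOver g γ B Λ₂ c₂ μ₂ →
      ContractedOver g γ (U A B) (Λ₁ ∪ Λ₂) (max c₁ c₂) (max μ₁ μ₂) := by
    rintro g A B hA hB x (hx | hx) v hv n
    · rw [hU1 A B _ hx] at hv
      refine (hA x hx v hv n).trans ?_
      have := h₁.c_pos
      have := h₁.mu_pos
      have := UnionHyp.rnorm_nonneg γ x v
      gcongr
      · exact le_max_left _ _
      · exact le_max_left _ _
    · rw [hU2 A B _ hx] at hv
      refine (hB x hx v hv n).trans ?_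
      have := h₂.c_pos
      have := h₂.mu_pos
      have := UnionHyp.rnorm_nonneg γ x v
      gcongr
      · exact le_max_right _ _
      · exact le_max_right _ _
  refine ⟨U Es₁ Es₂, U Eu₁ Eu₂, hcl _ _ (h₁.closedOver_s hr f hΛ₁ hf₁)
    (h₂.closedOver_s hr f hΛ₂ hf₂), hcl _ _ (h₁.closedOver_u hr f hΛ₁ hf₁)
    (h₂.closedOver_u hr f hΛ₂ hf₂), ?_, hinv _ _ h₁.inv_s h₂.inv_s, hinv _ _ h₁.inv_u h₂.inv_u,
    γ, max c₁ c₂, max μ₁ μ₂, lt_max_of_lt_left h₁.c_pos, lt_max_of_lt_left h₁.mu_pos,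
    max_lt h₁.mu_lt h₂.mu_lt, hcon _ _ _ h₁.contr_s h₂.contr_s, hcon _ _ _ h₁.contr_u h₂.contr_u⟩
  rintro x (hx | hx)
  · rw [hU1 _ _ _ hx, hU1 _ _ _ hx]
    exact h₁.compl x hx
  · rw [hU2 _ _ _ hx, hU2 _ _ _ hx]
    exact h₂.compl x hx

end Pool.Agent.OmegaStability
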