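import Pool.Agent.Work.MP_814647_an.Model
import Pool.Agent.Work.MP_814647_an.Bd.B04

/-!
# Using the local model: isolation and connecting orbits on the manifold
-/

open Set Filter Topology Function
open scoped Manifold ContDiff

noncomputable section

namespace Pool.Agent.OmegaStab

variable {d : ℕ} {M : Type*} [MetricSpace M] [ChartedSpace (EE d) M]

namespace LocModel

variable {g : M → M} {p : M} (W : LocModel (d := d) g p)

/-- The coordinate of the local model. -/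
def ψ : M → W.Es × W.Eu := psi p W.Θ

/-- The inverse coordinate of the local model. -/
def ι : W.Es × W.Eu → M := psiInv p W.Θ

/-- The local expression of `g^[m]`. -/
def G : W.Es × W.Eu → W.Es × W.Eu := fun u => W.ψ (g^[W.m] (W.ι u))

theorem hyp' : LocHyp W.G W.As W.Au W.ρ := W.hyp

theorem smooth' : ContDiffOn ℝ 1 W.G W.Ω := W.smooth

theorem ι_mem {u : W.Es × W.Eu} (hu : u ∈ W.Ω) : W.ι u ∈ (extChartAt (𝓡 d) p).source :=
  (extChartAt (𝓡 d) p).map_target (W.hdom u hu).1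

theorem ψ_ι {u : W.Es × W.Eu} (hu : u ∈ W.Ω) : W.ψ (W.ι u) = u := by
  change W.Θ (extChartAt (𝓡 d) p ((extChartAt (𝓡 d) p).symm _) - _) = u
  rw [(extChartAt (𝓡 d) p).right_inv (W.hdom u hu).1, add_sub_cancel_left,
    W.Θ.apply_symm_apply]

theorem ι_ψ {z : M} (hz : z ∈ (extChartAt (𝓡 d) p).source) : W.ι (W.ψ z) = z := by
  change (extChartAt (𝓡 d) p).symm (extChartAt (𝓡 d) p p + W.Θ.symm (W.Θ _)) = z
  rw [W.Θ.symm_apply_apply, add_sub_cancel, (extChartAt (𝓡 d) p).left_inv hz]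

theorem ψ_p : W.ψ p = 0 := by
  change W.Θ (extChartAt (𝓡 d) p p - extChartAt (𝓡 d) p p) = 0
  rw [sub_self, map_zero]

theorem iterate_ι_mem {u : W.Es × W.Eu} (hu : u ∈ W.Ω) :
    g^[W.m] (W.ι u) ∈ (extChartAt (𝓡 d) p).source := (W.hdom u hu).2

theorem ι_G {u : W.Es × W.Eu} (hu : u ∈ W.Ω) : W.ι (W.G u) = g^[W.m] (W.ι u) :=
  W.ι_ψ (W.iterate_ι_mem hu)

theorem ball_sub {u : W.Es × W.Eu} (hu : ‖u‖ ≤ W.ρ) : u ∈ W.Ω :=
  W.hball (by simpa using hu)

theorem zero_mem : (0 : W.Es × W.Eu) ∈ W.Ω := W.ball_sub (by simpa using W.hyp.rho_pos.le)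

theorem ι_zero : W.ι 0 = p := by
  rw [← W.ψ_p, W.ι_ψ (mem_extChartAt_source p)]

theorem G_ψ {z : M} (hz : z ∈ (extChartAt (𝓡 d) p).source) : W.G (W.ψ z) = W.ψ (g^[W.m] z) := by
  change W.ψ (g^[W.m] (W.ι (W.ψ z))) = _
  rw [W.ι_ψ hz]

theorem continuousOn_ι : ContinuousOn W.ι W.Ω := by
  refine (continuousOn_extChartAt_symm p).comp
    (Continuous.continuousOn (continuous_const.add W.Θ.symm.continuous)) ?_
  intro u hu
  exact (W.hdom u hu).1

theorem continuousOn_ψ : ContinuousOn W.ψ (extChartAt (𝓡 d) p).source := by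
  exact W.Θ.continuous.comp_continuousOn ((continuousOn_extChartAt p).sub continuousOn_const)

theorem eventually_small (ε : ℝ) (hε : 0 < ε) :
    ∀ᶠ z in 𝓝 p, z ∈ (extChartAt (𝓡 d) p).source ∧ ‖W.ψ z‖ < ε := by
  have h1 : ContinuousAt W.ψ p := W.continuousOn_ψ.continuousAt (extChartAt_source_mem_nhds p)
  have h2 : Tendsto (fun z => ‖W.ψ z‖) (𝓝 p) (𝓝 0) := by
    have := h1.norm
    rwa [ContinuousAt, W.ψ_p, norm_zero] at this
  filter_upwards [extChartAt_source_mem_nhds (I := 𝓡 d) p, h2.eventually (gt_mem_nhds hε)]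
    with z h3 h4
  exact ⟨h3, h4⟩

theorem exists_radius (ε : ℝ) (hε : 0 < ε) : ∃ η : ℝ, 0 < η ∧
    ∀ z, dist z p ≤ η → z ∈ (extChartAt (𝓡 d) p).source ∧ ‖W.ψ z‖ < ε := by
  obtain ⟨η, hη, h⟩ := Metric.eventually_nhds_iff.1 (W.eventually_small ε hε)
  exact ⟨η / 2, by linarith, fun z hz => h (by linarith)⟩

end LocModel

section Homeo

set_option linter.unusedSectionVars false

variable [CompactSpace M] {h : M ≃ₜ M} {p : M} (W : LocModel (d := d) h p)

theorem LocModel.periodic (W : LocModel (d := d) h p) : p ∈ periodicPts h := ⟨W.m, W.hm, W.hgp⟩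

theorem LocModel.iterate_mul (n : ℕ) : h^[W.m * n] p = p := by
  rw [Function.iterate_mul]
  exact Function.iterate_fixed W.hgp n

theorem LocModel.zpow_mul (n : ℤ) : (h ^ ((W.m : ℤ) * n)) p = p := by
  rcases Int.eq_nat_or_neg n with ⟨k, rfl | rfl⟩
  · rw [← Nat.cast_mul, zpow_natCast_apply, W.iterate_mul]
  · rw [mul_neg, ← Nat.cast_mul, zpow_neg_natCast_apply]
    have := symm_iterate_iterate h (W.m * k) p
    rwa [W.iterate_mul] at this

/-- Isolation of hyperbolic periodic orbits. -/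
theorem LocModel.isolated (W : LocModel (d := d) h p) :
    ∃ U : Set M, IsOpen U ∧ Orb h p ⊆ U ∧
      ∀ x, (∀ n : ℕ, h^[n] x ∈ closure U) → (∀ n : ℕ, h.symm^[n] x ∈ closure U) →
        x ∈ Orb h p := by
  have hper := W.periodic
  have hper' : p ∈ periodicPts h.symm := by rw [symm_periodicPts]; exact hper
  obtain ⟨η, hη, hηp⟩ := W.exists_radius W.ρ W.hyp.rho_pos
  obtain ⟨δ₁, hδ₁, hδη₁, hsh₁⟩ := exists_shadow h hper η hη
  obtain ⟨δ₂, hδ₂, hδη₂, hsh₂⟩ := exists_shadow h.symm hper' η hη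
  rw [Orb_symm h hper] at hsh₂
  set δ := min δ₁ δ₂ with hδ
  have hδ0 : 0 < δ := lt_min hδ₁ hδ₂
  refine ⟨Metric.thickening δ (Orb h p), Metric.isOpen_thickening,
    Metric.self_subset_thickening hδ0 _, fun x hx hx' => ?_⟩
  have hcl : ∀ z ∈ closure (Metric.thickening δ (Orb h p)), ∃ q ∈ Orb h p, dist z q ≤ δ := by
    intro z hz
    have h1 := Metric.closure_thickening_subset_cthickening δ (Orb h p) hz
    rw [(Orb_finite hper).isCompact.cthickening_eq_biUnion_closedBall hδ0.le] at h1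
    simp only [mem_iUnion, Metric.mem_closedBall, exists_prop] at h1
    exact h1
  obtain ⟨q, hq, hdq⟩ := hcl x (hx 0)
  have hf : ∀ n : ℕ, dist (h^[n] x) (h^[n] q) ≤ η := fun n =>
    (hsh₁ x q hq (hdq.trans (min_le_left _ _)) (fun n => by
      obtain ⟨q', hq', hd'⟩ := hcl _ (hx n)
      exact ⟨q', hq', hd'.trans (min_le_left _ _)⟩) n).trans hδη₁
  have hb : ∀ n : ℕ, dist (h.symm^[n] x) (h.symm^[n] q) ≤ η := fun n =>
    (hsh₂ x q hq (hdq.trans (min_le_right _ _)) (fun n => by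
      obtain ⟨q', hq', hd'⟩ := hcl _ (hx' n)
      exact ⟨q', hq', hd'.trans (min_le_right _ _)⟩) n).trans hδη₂
  have hz : ∀ n : ℤ, dist ((h ^ n) x) ((h ^ n) q) ≤ η := by
    intro n
    rcases Int.eq_nat_or_neg n with ⟨k, rfl | rfl⟩
    · rw [zpow_natCast_apply, zpow_natCast_apply]; exact hf k
    · rw [zpow_neg_natCast_apply, zpow_neg_natCast_apply]; exact hb k
  obtain ⟨l, hl⟩ := exists_iterate_eq hper hq
  have hlz : ∀ n : ℤ, (h ^ ((W.m : ℤ) * n + l)) q = p := by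
    intro n
    rw [zpow_add_apply, zpow_natCast_apply, hl, W.zpow_mul]
  have hX : ∀ n : ℤ, (h ^ ((W.m : ℤ) * n + l)) x ∈ (extChartAt (𝓡 d) p).source ∧
      ‖W.ψ ((h ^ ((W.m : ℤ) * n + l)) x)‖ < W.ρ := by
    intro n
    apply hηp
    have := hz ((W.m : ℤ) * n + l)
    rwa [hlz n] at this
  have hiso := W.hyp'.isolated (fun n : ℤ => W.ψ ((h ^ ((W.m : ℤ) * n + l)) x))
    (fun n => (hX n).2.le) (fun n => by
      rw [W.G_ψ (hX n).1, iterate_zpow]
      congr 2
      ring_nf) 0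
  have h0 : (h ^ ((W.m : ℤ) * 0 + l)) x = p := by
    rw [← W.ι_ψ (hX 0).1]
    rw [hiso, W.ι_zero]
  apply mem_Orb_of_zpow h hper ((W.m : ℤ) * 0 + l)
  rw [h0]
  exact mem_Orb_self _ _

/-- The local coordinates of the forward orbit of a point converging to the orbit of `p`. -/
theorem LocModel.fwd_seq (W : LocModel (d := d) h p) {x : M}
    (ht : Tendsto (fun n : ℕ => h^[n] x) atTop (𝓝ˢ (Orb h p))) (ε : ℝ) (hε : 0 < ε) :
    ∃ l : ℕ, ∀ n : ℕ, h^[l + W.m * n] x ∈ (extChartAt (𝓡 d) p).source ∧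
      ‖W.ψ (h^[l + W.m * n] x)‖ < ε ∧
      W.G (W.ψ (h^[l + W.m * n] x)) = W.ψ (h^[l + W.m * (n + 1)] x) := by
  obtain ⟨η, hη, hηp⟩ := W.exists_radius ε hε
  obtain ⟨l, hl⟩ := exists_iterate_follow h W.periodic ht η hη
  have h1 : ∀ n, h^[l + W.m * n] x ∈ (extChartAt (𝓡 d) p).source ∧
      ‖W.ψ (h^[l + W.m * n] x)‖ < ε := by
    intro n
    apply hηp
    have := hl (W.m * n)
    rwa [W.iterate_mul] at this
  refine ⟨l, fun n => ⟨(h1 n).1, (h1 n).2, ?_⟩⟩
  rw [W.G_ψ (h1 n).1, ← Function.iterate_add_apply]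
  congr 2
  ring_nf

/-- The local coordinates of the backward orbit of a point converging backward to the orbit
of `p`. -/
theorem LocModel.bwd_seq (W : LocModel (d := d) h p) {y : M}
    (ht : Tendsto (fun n : ℕ => h.symm^[n] y) atTop (𝓝ˢ (Orb h p))) (ε : ℝ) (hε : 0 < ε) :
    ∃ l : ℕ, ∀ n : ℕ, h.symm^[l + W.m * n] y ∈ (extChartAt (𝓡 d) p).source ∧
      ‖W.ψ (h.symm^[l + W.m * n] y)‖ < ε ∧
      W.G (W.ψ (h.symm^[l + W.m * (n + 1)] y)) = W.ψ (h.symm^[l + W.m * n] y) := by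
  obtain ⟨η, hη, hηp⟩ := W.exists_radius ε hε
  have hper' : p ∈ periodicPts h.symm := by rw [symm_periodicPts]; exact W.periodic
  obtain ⟨l, hl⟩ := exists_iterate_follow h.symm hper'
    (by rw [Orb_symm h W.periodic]; exact ht) η hη
  have hsm : ∀ n, h.symm^[W.m * n] p = p := by
    intro n
    have := symm_iterate_iterate h (W.m * n) p
    rwa [W.iterate_mul] at this
  have h1 : ∀ n, h.symm^[l + W.m * n] y ∈ (extChartAt (𝓡 d) p).source ∧
      ‖W.ψ (h.symm^[l + W.m * n] y)‖ < ε := by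
    intro n
    apply hηp
    have := hl (W.m * n)
    rwa [hsm] at this
  refine ⟨l, fun n => ⟨(h1 n).1, (h1 n).2, ?_⟩⟩
  rw [W.G_ψ (h1 (n + 1)).1]
  congr 1
  rw [show l + W.m * (n + 1) = W.m + (l + W.m * n) by ring, Function.iterate_add_apply,
    iterate_symm_iterate]

/-- Connecting orbits through a hyperbolic periodic orbit: if `x` converges forward and `y`
converges backward to the orbit of `p`, there are orbit segments from near `x` to near `y` all of
whose intermediate points are near the forward orbit of `x` or the backward orbit of `y`. -/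
theorem LocModel.exists_connect (W : LocModel (d := d) h p) {x y : M}
    (hx : Tendsto (fun n : ℕ => h^[n] x) atTop (𝓝ˢ (Orb h p)))
    (hy : Tendsto (fun n : ℕ => h.symm^[n] y) atTop (𝓝ˢ (Orb h p))) (ε : ℝ) (hε : 0 < ε) :
    ∃ (a : M) (n : ℕ), 0 < n ∧ dist a x < ε ∧ dist (h^[n] a) y < ε ∧
      ∀ i, 0 < i → i < n → (∃ k : ℕ, 0 < k ∧ dist (h^[i] a) (h^[k] x) < ε) ∨
        (∃ k : ℕ, 0 < k ∧ dist (h^[i] a) (h.symm^[k] y) < ε) := by
  obtain ⟨l, hl⟩ := W.fwd_seq hx W.ρ W.hyp.rho_pos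
  obtain ⟨l', hl'⟩ := W.bwd_seq hy W.ρ W.hyp.rho_pos
  set b : ℕ → W.Es × W.Eu := fun n => W.ψ (h^[l + W.m * n] x) with hb
  set a : ℕ → W.Es × W.Eu := fun n => W.ψ (h.symm^[l' + W.m * n] y) with ha
  have hbρ : ∀ n, ‖b n‖ ≤ W.ρ := fun n => (hl n).2.1.le
  have haρ : ∀ n, ‖a n‖ ≤ W.ρ := fun n => (hl' n).2.1.le
  have hιb : ∀ n, W.ι (b n) = h^[l + W.m * n] x := fun n => W.ι_ψ (hl n).1
  have hιa : ∀ n, W.ι (a n) = h.symm^[l' + W.m * n] y := fun n => W.ι_ψ (hl' n).1
  -- uniform continuity of the finitely many maps involved on the compact ball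
  have hK : IsCompact (Metric.closedBall (0 : W.Es × W.Eu) W.ρ) := isCompact_closedBall _ _
  have huc : ∀ s : ℤ, UniformContinuousOn (fun u => (h ^ s) (W.ι u))
      (Metric.closedBall (0 : W.Es × W.Eu) W.ρ) := fun s =>
    hK.uniformContinuousOn_of_continuous
      ((zpow_continuous h s).comp_continuousOn (W.continuousOn_ι.mono W.hball))
  obtain ⟨δ, hδ, hδs⟩ : ∃ δ : ℝ, 0 < δ ∧ ∀ s ∈ Finset.Icc (-(l : ℤ)) (l' + W.m : ℕ),
      ∀ u v : W.Es × W.Eu, ‖u‖ ≤ W.ρ → ‖v‖ ≤ W.ρ → ‖u - v‖ < δ →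
        dist ((h ^ s) (W.ι u)) ((h ^ s) (W.ι v)) < ε := by
    have h1 : ∀ s : ℤ, ∃ δ : ℝ, 0 < δ ∧ ∀ u v : W.Es × W.Eu, ‖u‖ ≤ W.ρ → ‖v‖ ≤ W.ρ →
        ‖u - v‖ < δ → dist ((h ^ s) (W.ι u)) ((h ^ s) (W.ι v)) < ε := by
      intro s
      obtain ⟨δ, hδ, h2⟩ := Metric.uniformContinuousOn_iff.1 (huc s) ε hε
      exact ⟨δ, hδ, fun u v hu hv huv => h2 u (by simpa using hu) v (by simpa using hv)
        (by rwa [dist_eq_norm])⟩
    choose δf hδf hδf' using h1
    have hne : (Finset.Icc (-(l : ℤ)) (l' + W.m : ℕ)).Nonempty :=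
      Finset.nonempty_Icc.2 (by push_cast; omega)
    refine ⟨(Finset.Icc (-(l : ℤ)) (l' + W.m : ℕ)).inf' hne δf, ?_, ?_⟩
    · rw [Finset.lt_inf'_iff]
      exact fun s _ => hδf s
    · intro s hs u v hu hv huv
      exact hδf' s u v hu hv (lt_of_lt_of_le huv (Finset.inf'_le _ hs))
  -- choice of the length
  obtain ⟨J, hJ⟩ : ∃ J : ℕ, 2 * W.ρ * (1 / 4) ^ J < δ := by
    have h1 : Tendsto (fun n : ℕ => 2 * W.ρ * (1 / 4 : ℝ) ^ n) atTop (𝓝 (2 * W.ρ * 0)) :=
      (tendsto_pow_atTop_nhds_zero_of_lt_one (by norm_num) (by norm_num)).const_mul _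
    rw [mul_zero] at h1
    exact (h1.eventually (gt_mem_nhds hδ)).exists
  have hJ' : ∀ k, J ≤ k → 2 * W.ρ * (1 / 4) ^ k < δ := by
    intro k hk
    refine lt_of_le_of_lt ?_ hJ
    exact mul_le_mul_of_nonneg_left
      (pow_le_pow_of_le_one (by norm_num) (by norm_num) hk) (by have := W.hyp.rho_pos; linarith)
  set j := 2 * J + 1 with hj
  obtain ⟨X, hXG, hX⟩ := W.hyp'.connect b a hbρ (fun n => (hl n).2.2) haρ
    (fun n => (hl' n).2.2) j
  have hιX : ∀ i, i ≤ j → W.ι (X i) = h^[W.m * i] (W.ι (X 0)) := by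
    intro i
    induction i with
    | zero => intro _; simp
    | succ i ih =>
      intro hi
      rw [← hXG i (by omega), W.ι_G (W.ball_sub (hX i (by omega)).1), ih (by omega),
        ← Function.iterate_add_apply]
      congr 1
      ring_nf
  -- the three kinds of estimates
  have est_b : ∀ i ≤ j, J ≤ j - i → ∀ s ∈ Finset.Icc (-(l : ℤ)) (l' + W.m : ℕ),
      dist ((h ^ s) (W.ι (X i))) ((h ^ s) (h^[l + W.m * i] x)) < ε := by
    intro i hi hJi s hs
    rw [← hιb]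
    exact hδs s hs _ _ (hX i hi).1 (hbρ i) (lt_of_le_of_lt (hX i hi).2.1 (hJ' _ hJi))
  have est_a : ∀ i ≤ j, J ≤ i → ∀ s ∈ Finset.Icc (-(l : ℤ)) (l' + W.m : ℕ),
      dist ((h ^ s) (W.ι (X i))) ((h ^ s) (h.symm^[l' + W.m * (j - i)] y)) < ε := by
    intro i hi hJi s hs
    rw [← hιa]
    exact hδs s hs _ _ (hX i hi).1 (haρ _) (lt_of_le_of_lt (hX i hi).2.2 (hJ' _ hJi))
  have hm := W.hm
  refine ⟨(h ^ (-(l : ℤ))) (W.ι (X 0)), l + W.m * j + l', ?_, ?_, ?_, ?_⟩
  · have : 0 < W.m * j := Nat.mul_pos hm (by omega)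
    omega
  · have h1 := est_b 0 (by omega) (by omega) (-(l : ℤ)) (by simp; omega)
    rwa [mul_zero, add_zero, ← zpow_natCast_apply, ← zpow_add_apply, neg_add_cancel,
      zpow_zero_apply] at h1
  · have h1 := est_a j le_rfl (by omega) (l' : ℤ) (by rw [Finset.mem_Icc]; push_cast; omega)
    rw [Nat.sub_self, mul_zero, add_zero, ← zpow_neg_natCast_apply, ← zpow_add_apply,
      add_neg_cancel, zpow_zero_apply, hιX j le_rfl, ← zpow_natCast_apply,
      ← zpow_add_apply] at h1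
    rw [iterate_zpow]
    rw [show (-(l : ℤ) + ((l + W.m * j + l' : ℕ) : ℤ)) = (l' : ℤ) + ((W.m * j : ℕ) : ℤ) by
      push_cast; ring]
    exact h1
  · intro i hi0 hin
    rw [iterate_zpow]
    -- write the time as `l + m * q + s`
    by_cases hil : i ≤ l
    · left
      refine ⟨i, hi0, ?_⟩
      have h1 := est_b 0 (by omega) (by omega) (-(l : ℤ) + i) (by simp; omega)
      rw [mul_zero, add_zero, ← zpow_natCast_apply h l x, ← zpow_add_apply] at h1
      rw [← zpow_natCast_apply h i x]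
      rwa [show -(l : ℤ) + (i : ℤ) + (l : ℤ) = (i : ℤ) by ring] at h1
    · rw [not_le] at hil
      obtain ⟨q, s, hqs, hs, hqj⟩ : ∃ q s : ℕ, i = l + W.m * q + s ∧ s ≤ l' + W.m ∧ q ≤ j ∧
          (q = j → s < l') ∧ (q < j → s < W.m) := by
        by_cases hcase : (i - l) / W.m < j
        · refine ⟨(i - l) / W.m, (i - l) % W.m, ?_, ?_, hcase.le, fun h => absurd h hcase.ne,
            fun _ => Nat.mod_lt _ hm⟩
          · have := Nat.div_add_mod (i - l) W.m
            omega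
          · have := Nat.mod_lt (i - l) hm
            omega
        · rw [not_lt] at hcase
          have h1 : W.m * j ≤ i - l := by
            calc W.m * j ≤ W.m * ((i - l) / W.m) := Nat.mul_le_mul_left _ hcase
              _ ≤ i - l := Nat.mul_div_le _ _
          refine ⟨j, i - l - W.m * j, by omega, by omega, le_rfl, fun _ => by omega,
            fun h => absurd h (lt_irrefl _)⟩
      obtain ⟨hqj, hq1, hq2⟩ := hqj
      have hexp : (h ^ (-(l : ℤ) + (i : ℤ))) (W.ι (X 0)) = (h ^ (s : ℤ)) (W.ι (X q)) := by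
        rw [hιX q hqj, ← zpow_natCast_apply h (W.m * q), ← zpow_add_apply]
        rw [show (-(l : ℤ) + (i : ℤ)) = (s : ℤ) + ((W.m * q : ℕ) : ℤ) by
          rw [hqs]; push_cast; ring]
      rw [hexp]
      by_cases hJq : J ≤ q
      · right
        have h1 := est_a q hqj hJq (s : ℤ) (by simp; omega)
        have hlt : s < l' + W.m * (j - q) := by
          rcases hqj.lt_or_eq with hlt | heq
          · have h3 := hq2 hlt
            have h4 : W.m * 1 ≤ W.m * (j - q) := Nat.mul_le_mul_left _ (by omega)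
            omega
          · have h3 := hq1 heq
            omega
        refine ⟨l' + W.m * (j - q) - s, by omega, ?_⟩
        rw [← zpow_neg_natCast_apply, ← zpow_add_apply] at h1
        rw [← zpow_neg_natCast_apply]
        rw [show (-((l' + W.m * (j - q) - s : ℕ) : ℤ)) =
          (s : ℤ) + -((l' + W.m * (j - q) : ℕ) : ℤ) by
          rw [Nat.cast_sub hlt.le]; ring]
        exact h1
      · left
        have h1 := est_b q hqj (by omega) (s : ℤ) (by simp; omega)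
        refine ⟨s + (l + W.m * q), by omega, ?_⟩
        rw [← zpow_natCast_apply, ← zpow_add_apply] at h1
        rw [← zpow_natCast_apply, Nat.cast_add]
        exact h1

end Homeo

end Pool.Agent.OmegaStab
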