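import Mathlib

/-!
# C^r Omega-stability: definitions

`M` is a closed smooth manifold of dimension `d` (with a metric inducing its topology), `r` an
element of `ℕ∞` (a natural number or infinity).
-/

open Set Filter Topology Function
open scoped Manifold ContDiff

noncomputable section

namespace Pool.Agent.OmegaStab

/-- The model space. -/
abbrev EE (d : ℕ) : Type := EuclideanSpace ℝ (Fin d)

/-- The forward orbit of `p` (for a periodic point: its orbit). -/
def Orb {M : Type*} (f : M → M) (p : M) : Set M := Set.range (fun n : ℕ => f^[n] p)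

/-- Nonwandering points of a map. -/
def nonwandering {M : Type*} [TopologicalSpace M] (f : M → M) : Set M :=
  {x | ∀ U ∈ 𝓝 x, ∃ n : ℕ, 0 < n ∧ (f^[n] '' U ∩ U).Nonempty}

/-- `x` is a recurrent point of `f`: it is a limit point of its forward orbit. -/
def Recurrent {M : Type*} [TopologicalSpace M] (f : M → M) (x : M) : Prop :=
  MapClusterPt x atTop (fun n : ℕ => f^[n] x)

section Dyn

variable (d : ℕ) (M : Type*) [MetricSpace M] [ChartedSpace (EE d) M]

/-- The `C^r` diffeomorphisms of `M`. -/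
abbrev Dyn (r : ℕ∞) : Type _ := Diffeomorph (𝓡 d) (𝓡 d) M M (r : ℕ∞ω)

end Dyn

section

variable {d : ℕ} {M : Type*} [MetricSpace M] [ChartedSpace (EE d) M] {r : ℕ∞}

/-- The expression of `g : M → M` in the charts of `M` at `x` and at `y`. -/
def inCharts (x y : M) (g : M → M) : EE d → EE d :=
  fun u => extChartAt (𝓡 d) y (g ((extChartAt (𝓡 d) x).symm u))

/-- The `C^r` diffeomorphisms `g` which map the points of `K` into the chart domain at `y` and
whose `k`-th derivative, in the charts at `x` and `y`, is on `K` less than `ε` away from that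
of `f`. -/
def crSet (f : Dyn d M r) (x y : M) (K : Set M) (k : ℕ) (ε : ℝ) : Set (Dyn d M r) :=
  {g | ∀ z ∈ K, g z ∈ (extChartAt (𝓡 d) y).source ∧
    ‖iteratedFDeriv ℝ k (inCharts x y g) (extChartAt (𝓡 d) x z) -
      iteratedFDeriv ℝ k (inCharts x y f) (extChartAt (𝓡 d) x z)‖ < ε}

variable (d M r) in
/-- The `C^r` topology (uniform convergence of all derivatives of order at most `r`). -/
@[reducible] def crTopology : TopologicalSpace (Dyn d M r) :=
  TopologicalSpace.generateFrom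
    {S | ∃ (f : Dyn d M r) (x y : M) (K : Set M) (k : ℕ) (ε : ℝ),
      IsCompact K ∧ K ⊆ (extChartAt (𝓡 d) x).source ∧
      (∀ z ∈ K, f z ∈ (extChartAt (𝓡 d) y).source) ∧ (k : ℕ∞) ≤ r ∧ 0 < ε ∧
      S = crSet f x y K k ε}

/-- `f` is `C^r` Omega-stable: every `g` in some `C^r` neighbourhood of `f` is conjugate to `f` on
the nonwandering sets. -/
def OmegaStable (f : Dyn d M r) : Prop :=
  ∃ N : Set (Dyn d M r), IsOpen[crTopology d M r] N ∧ f ∈ N ∧ ∀ g ∈ N,
    ∃ h : nonwandering f ≃ₜ nonwandering g,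
      ∀ x y : nonwandering f, (y : M) = f x → (h y : M) = g (h x)

variable [IsManifold (𝓡 d) ∞ M]

/-- A hyperbolic structure for `f` on the closed invariant set `Λ`: a continuous invariant
splitting `T_Λ M = E^s ⊕ E^u` into a uniformly contracted and a uniformly expanded bundle
(for one, equivalently every, continuous Riemannian metric). The continuity of the splitting is
the closedness of the two subbundles over `Λ`. -/
def HyperbolicOn (f : Dyn d M r) (Λ : Set M) : Prop :=
  ∃ Es Eu : ∀ x : M, Submodule ℝ (TangentSpace (𝓡 d) x),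
    IsClosed {v : TangentBundle (𝓡 d) M | v.1 ∈ Λ ∧ v.2 ∈ Es v.1} ∧
    IsClosed {v : TangentBundle (𝓡 d) M | v.1 ∈ Λ ∧ v.2 ∈ Eu v.1} ∧
    (∀ x ∈ Λ, IsCompl (Es x) (Eu x)) ∧
    (∀ x ∈ Λ, ∀ v ∈ Es x, mfderiv (𝓡 d) (𝓡 d) f x v ∈ Es (f x)) ∧
    (∀ x ∈ Λ, ∀ v ∈ Eu x, mfderiv (𝓡 d) (𝓡 d) f x v ∈ Eu (f x)) ∧
    ∀ γ : Bundle.ContinuousRiemannianMetric (EE d) (fun x : M => TangentSpace (𝓡 d) x),
      ∃ c μ : ℝ, 0 < c ∧ 0 < μ ∧ μ < 1 ∧
        (∀ x ∈ Λ, ∀ v ∈ Es x, ∀ n : ℕ,
          √(γ.inner (f^[n] x) (mfderiv (𝓡 d) (𝓡 d) f^[n] x v) (mfderiv (𝓡 d) (𝓡 d) f^[n] x v))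
            ≤ c * μ ^ n * √(γ.inner x v v)) ∧
        (∀ x ∈ Λ, ∀ v ∈ Eu x, ∀ n : ℕ,
          √(γ.inner (f.symm^[n] x) (mfderiv (𝓡 d) (𝓡 d) f.symm^[n] x v)
            (mfderiv (𝓡 d) (𝓡 d) f.symm^[n] x v))
            ≤ c * μ ^ n * √(γ.inner x v v))

/-- Axiom A. -/
def AxiomA (f : Dyn d M r) : Prop :=
  HyperbolicOn f (nonwandering f) ∧ nonwandering f ⊆ closure (Function.periodicPts f)

/-- A piece of the spectral decomposition: a nonempty closed invariant subset of the nonwandering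
set which is open in the nonwandering set and contains a dense orbit. -/
def IsPiece (f : Dyn d M r) (S : Set M) : Prop :=
  S ⊆ nonwandering f ∧ IsClosed S ∧ f '' S = S ∧ (∃ U, IsOpen U ∧ S = U ∩ nonwandering f) ∧
    ∃ x ∈ S, S ⊆ closure (Orb f x)

/-- The stable set of `A`: the union of the stable sets of its points. -/
def stableSet (f : M → M) (A : Set M) : Set M :=
  {y | ∃ x ∈ A, Tendsto (fun n : ℕ => dist (f^[n] x) (f^[n] y)) atTop (𝓝 0)}

/-- No cycles among the pieces: there are no distinct pieces `S 0, ..., S (k-1)`, `k > 1`, with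
`W^s(S (i+1)) ∩ W^u(S i)` nonempty for all `i` cyclically. -/
def NoCycle (f : Dyn d M r) : Prop :=
  ∀ k : ℕ, 1 < k → ∀ S : ZMod k → Set M, (∀ i, IsPiece f (S i)) → Injective S →
    ∃ i : ZMod k, stableSet f (S (i + 1)) ∩ stableSet f.symm (S i) = ∅

end

end Pool.Agent.OmegaStab
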