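import Pool.Agent.Work.MP_814647_an.ProjStatement

/-!
# Circle extensions of maps with the closing property: the notions in the statement

`E` is a finite-dimensional real vector space, `M` a closed smooth manifold modelled on `E` with a
free smooth circle action, and `B` the space of its orbits.
-/

open Set Filter Topology
open scoped Manifold ContDiff

noncomputable section

namespace Pool.Agent.OmegaStability

section

variable (E : Type*) [NormedAddCommGroup E] [NormedSpace ℝ E] {B M : Type*} [MetricSpace B]
  [MetricSpace M] [ChartedSpace E M] [MulAction Circle M]

/-- The circle acts smoothly and freely on `M`, and `π : M → B` is a continuous surjection whose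
fibres are the orbits of the action. -/
structure FreeCircleAction (π : M → B) : Prop where
  smooth_action : SmoothCircleAction E M
  free : ∀ (z : Circle) (y : M), z • y = y → z = 1
  continuous_proj : Continuous π
  surjective : Function.Surjective π
  fibre : ∀ y y' : M, π y = π y' ↔ ∃ z : Circle, z • y = y'

end

/-- The map `f` sends circle orbits to circle orbits and preserves their orientation: on each
orbit it has a strictly increasing continuous lift to the real line. -/
def PreservesOrientedCircles {M : Type*} [MulAction Circle M] (f : M → M) : Prop :=
  ∀ y : M, ∃ L : ℝ → ℝ, Continuous L ∧ StrictMono L ∧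
    ∀ θ : ℝ, f (Circle.exp θ • y) = Circle.exp (L θ) • f y

/-- The closing property of `A`: every orbit segment of `A` which almost returns is shadowed by
a periodic orbit of the same length. -/
def ClosingProperty {B : Type*} [MetricSpace B] (A : B → B) : Prop :=
  ∀ ε > 0, ∃ δ > 0, ∀ (x : B) (n : ℕ), 0 < n → dist (A^[n] x) x < δ →
    ∃ p : B, A^[n] p = p ∧ ∀ j ≤ n, dist (A^[j] x) (A^[j] p) < ε

end Pool.Agent.OmegaStability
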