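import Pool.Agent.Work.MP_814647_an.DC.Bridge

/-!
# Omega-stable torus diffeomorphisms with a dominated one-dimensional centre

Let `T` be the torus `ℝ^m/ℤ^m` with projection `e`, `1 ≤ r ≤ ∞`, and `f` a `C^r` diffeomorphism of
`T` with a dominated one-dimensional centre: a lift `F` of `f` is, in suitable linear coordinates
`(S, l, U)` with values in `ℝ^p × ℝ × ℝ^q`, contracting in `S` and expanding in `U` up to a small
error, and arbitrary in the coordinate `l`, except that it is increasing along the centre
direction `c`, with rates strictly between the contraction and the expansion in the other
coordinates. No invariant foliation or fibration is assumed; the class is given by inequalities and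
contains the small `C^1` perturbations of its members which satisfy them strictly. If `f` is `C^r`
Omega-stable (among all `C^r` diffeomorphisms of `T`) then its nonwandering set is topologically
hyperbolic (the closure of the periodic points, expansive, with shadowing), and arbitrarily small
translates of `f` in the direction `c` have the periodic shadowing property on all of `T` and have
no cycles.
-/

open Set Filter Topology
open scoped Manifold ContDiff

namespace Pool.Agent.Work.MP_814647_an.DominatedCentreOld

open Pool.Agent.OmegaStability

theorem result {T : ClosedManifold} {e : EuclideanSpace ℝ (Fin T.dim) → T.carrier}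
    (he : IsTorusProjection T e) {c : EuclideanSpace ℝ (Fin T.dim)} {r : ℕ∞} (hr : 1 ≤ r)
    {f : CrDiffeo T r} (hf : HasDominatedCentreDirection f e c) (hst : OmegaStable f) :
    TopologicallyHyperbolic f ∧ SmallTranslatesHaveNoCycles f e c :=
  Pool.Agent.OmegaDC.dc_result he hr hf hst

end Pool.Agent.Work.MP_814647_an.DominatedCentreOld
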