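import Pool.Agent.Work.MP_814647_an.Bd.B07

/-!
# Separation of the indices of the periodic points of Omega-stable circle extensions
-/

open Set Filter Topology Function
open scoped Manifold ContDiff

noncomputable section

namespace Pool.Agent.OmegaStability

namespace Dens

theorem closingProperty_of_shadowing {B : Type*} [MetricSpace B] {A : B → B}
    (h : PeriodicShadowing A) : ClosingProperty A := by
  intro ε hε
  obtain ⟨δ, hδ, h1⟩ := h (ε / 2) (by positivity)
  refine ⟨min δ (ε / 2), by positivity, fun x n hn hx => ?_⟩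
  have hx1 : dist (A^[n] x) x < δ := hx.trans_le (min_le_left _ _)
  have hx2 : dist (A^[n] x) x < ε / 2 := hx.trans_le (min_le_right _ _)
  obtain ⟨p, hp, hpj⟩ := h1 n (fun j => if j < n then A^[j] x else x) hn (by simp) (by
    intro j hj
    simp only [hj, if_true]
    rcases (show j + 1 ≤ n from hj).lt_or_eq with h2 | h2
    · simp only [h2, if_true, iterate_succ_apply', dist_self]
      exact hδ
    · have h3 : ¬ j + 1 < n := by omega
      simp only [h3, if_false]
      rw [← iterate_succ_apply' A j x, show j.succ = n from h2]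
      exact hx1)
  refine ⟨p, hp, fun j hj => ?_⟩
  rcases hj.lt_or_eq with h2 | h2
  · have := hpj j hj
    simp only [h2, if_true] at this
    rw [dist_comm]
    linarith
  · have h3 := hpj n le_rfl
    simp only [lt_irrefl, if_false] at h3
    rw [h2]
    calc dist (A^[n] x) (A^[n] p) ≤ dist (A^[n] x) x + dist (A^[n] p) x :=
          dist_triangle_right _ _ _
      _ < ε := by linarith

section Main

variable {m : ℕ} {B M : Type*} [MetricSpace B] [MetricSpace M] [CompactSpace M]
  [ChartedSpace (EuclideanSpace ℝ (Fin m)) M]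
  [IsManifold 𝓘(ℝ, EuclideanSpace ℝ (Fin m)) ∞ M] [MulAction Circle M]

/-- The return maps of the circles of an Omega-stable circle extension, composed with small
rotations, have no tangencies with the identity and no neutral fixed points. -/
theorem exists_tau (ha : SmoothCircleAction (EuclideanSpace ℝ (Fin m)) M)
    (hfree : ∀ (z : Circle) (y : M), z • y = y → z = 1) {r : ℕ∞} (hr : 1 ≤ r)
    (f : Diffeo (EuclideanSpace ℝ (Fin m)) M r) (hst : OmegaStable f) :
    ∃ τ : ℝ, 0 < τ ∧ (∀ (e : M) (n : ℕ) (c : ℝ) (G : ℝ → ℝ → ℝ), 0 < n → RetMap f e n c G →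
      NoTangency G τ) ∧
      ∀ (e : M) (n : ℕ) (c : ℝ) (G : ℝ → ℝ → ℝ), 0 < n → RetMap f e n c G →
        ∀ t, |t| < τ → ∀ θ, G t θ = θ → ∀ d, HasDerivAt (G t) d θ → d ≠ 1 := by
  have hst' : OmegaStab.OmegaStable f := hst
  obtain ⟨N, hN, hfN, hNconj⟩ := hst'
  have hconj : OmegaStab.ConjClass N := OmegaStab.conjClass_of_conj hNconj
  have hhyp := OmegaStab.hypAt_of_conjClass hr hN hconj
  obtain ⟨h, hfam, hh⟩ := exists_rot ha r
  have hev : ∀ᶠ t in 𝓝 (0 : ℝ), f.trans (h t) ∈ N := by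
    let _ := OmegaStab.crTopology m M r
    exact (hfam.tendsto f).eventually (IsOpen.mem_nhds hN hfN)
  obtain ⟨τ, hτ, hball⟩ := Metric.eventually_nhds_iff.1 hev
  have hfun : ∀ t, ⇑(f.trans (h t)) = fun y => Circle.exp t • f y := by
    intro t
    funext y
    exact hh t (f y)
  have hmap : ∀ (e : M) (n : ℕ) (c : ℝ) (G : ℝ → ℝ → ℝ), RetMap f e n c G → ∀ t η : ℝ,
      (f.trans (h t))^[n] (Circle.exp η • e) = Circle.exp (G t η) • e := by
    intro e n c G hG t η
    rw [hfun]
    exact hG.map t η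
  have hhyp' : ∀ (e : M) (n : ℕ) (c : ℝ) (G : ℝ → ℝ → ℝ), 0 < n → RetMap f e n c G → ∀ t,
      |t| < τ → ∀ θ, G t θ = θ → OmegaStab.HypAt (d := m) (f.trans (h t)) (Circle.exp θ • e) := by
    intro e n c G hn hG t ht θ hθ
    refine hhyp _ (hball (by simpa using ht)) _ ⟨n, hn, ?_⟩
    show (f.trans (h t))^[n] (Circle.exp θ • e) = _
    rw [hmap e n c G hG, hθ]
  refine ⟨τ, hτ, fun e n c G hn hG t ht θ hθ => ?_, fun e n c G hn hG t ht θ hθ d hd => ?_⟩
  · exact crossing hr ha hfree (f.trans (h t)) hn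
      (hG.cont.comp (continuous_const.prodMk continuous_id)) (hmap e n c G hG t) hθ
      (hhyp' e n c G hn hG t ht θ hθ)
  · obtain ⟨g₁, hg₁, hne⟩ := crossing_aux hr ha hfree (f.trans (h t)) hn
      (hG.cont.comp (continuous_const.prodMk continuous_id)) (hmap e n c G hG t) hθ
      (hhyp' e n c G hn hG t ht θ hθ)
    rw [hd.unique hg₁]
    exact hne

/-- The multiplier of a periodic point along its circle. -/
theorem multiplier (ha : SmoothCircleAction (EuclideanSpace ℝ (Fin m)) M)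
    {r : ℕ∞} (hr : 1 ≤ r) (f : Diffeo (EuclideanSpace ℝ (Fin m)) M r)
    {ℒ : M → ℝ → ℝ} (hℒ : NLift f ℒ) {Dm : M → ℝ}
    (hDm : ∀ (e e' : M) (L : ℝ → ℝ), Continuous L → Monotone L →
      (∀ θ : ℝ, f (Circle.exp θ • e) = Circle.exp (L θ) • e') →
      ∀ θ, HasDerivAt L (Dm (Circle.exp θ • e)) θ) {y : M} {n : ℕ} (hn : 0 < n)
    (hy : f^[n] y = y) :
    (mfderiv (𝓡 m) (𝓡 m) f^[n] y (vgen m y) : EuclideanSpace ℝ (Fin m)) =
      loopD Dm (fun j => f^[j] y) (fun j => ℒ (f^[j] y)) 0 n 0 • vgen m y := by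
  have h00 : orb (fun j => ℒ (f^[j] y)) 0 n 0 = 0 := orb_zero_zero hℒ y n
  have hd : HasDerivAt (orb (fun j => ℒ (f^[j] y)) 0 n)
      (loopD Dm (fun j => f^[j] y) (fun j => ℒ (f^[j] y)) 0 n 0) 0 := by
    refine orb_hasDerivAt (n := n) (fun j _ θ => ?_) 0 0 n le_rfl
    exact hDm (f^[j] y) (f (f^[j] y)) (ℒ (f^[j] y)) (hℒ.cont _) (hℒ.mono _).monotone (hℒ.map _) θ
  have hmd : MDifferentiable (𝓡 m) (𝓡 m) f^[n] :=
    OmegaStab.FinHyp.mdiff_iter (OmegaStab.FinHyp.mdiff hr f) n
  have hmap : ∀ η : ℝ, f^[n] (Circle.exp η • y) =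
      Circle.exp (orb (fun j => ℒ (f^[j] y)) 0 n η) • y := by
    intro η
    have := (retMap_periodic hℒ hn hy).map 0 η
    rwa [iterate_rot_zero] at this
  have h1 := mfderiv_lift ha f^[n] y y _ 0 _ (hmd _) hd hmap
  rw [h00] at h1
  have h2 : Circle.exp 0 • y = y := by simp
  rw [h2] at h1
  exact h1

theorem index_main {π : M → B} (hb : FreeCircleAction (EuclideanSpace ℝ (Fin m)) π) {r : ℕ∞}
    (hr : 1 ≤ r) {A : B → B} (hsh : PeriodicShadowing A) (hexp : ExpansiveOnPeriodic A)
    (f : Diffeo (EuclideanSpace ℝ (Fin m)) M r) (hcov : ∀ y, π (f y) = A (π y))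
    (hcirc : PreservesOrientedCircles f) (hst : OmegaStable f) :
    Omega f = closure (CircleContracting (EuclideanSpace ℝ (Fin m)) f) ∪
        closure (CircleExpanding (EuclideanSpace ℝ (Fin m)) f) ∧
      Disjoint (closure (CircleContracting (EuclideanSpace ℝ (Fin m)) f))
        (closure (CircleExpanding (EuclideanSpace ℝ (Fin m)) f)) := by
  have ha := hb.smooth_action
  have hfree := hb.free
  have hact : Continuous fun p : Circle × M => p.1 • p.2 := hb.smooth_action.continuous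
  have hfc : Continuous f := f.continuous
  have hf'c : Continuous f.symm := f.symm.continuous
  have hinv : ∀ x, f.symm (f x) = x := f.symm_apply_apply
  -- the base
  have : CompactSpace B := by
    refine ⟨?_⟩
    rw [← hb.surjective.range_eq]
    exact isCompact_range hb.continuous_proj
  have hquot : IsQuotientMap π :=
    (hb.continuous_proj.isClosedMap).isQuotientMap hb.continuous_proj hb.surjective
  have hAc : Continuous A := by
    rw [hquot.continuous_iff]
    have : A ∘ π = π ∘ f := by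
      funext y
      exact (hcov y).symm
    rw [this]
    exact hb.continuous_proj.comp hfc
  -- the fibre derivative
  obtain ⟨Dm, hD, hDm⟩ := exists_fibreDeriv ha hfree hr f
  obtain ⟨ℒ, hℒ⟩ := exists_nlift (f := (⇑f : M → M)) hfree f.injective hcirc
  obtain ⟨τ, hτ, hX, hN⟩ := exists_tau ha hfree hr f hst
  set mult : M → ℕ → ℝ := fun y n => loopD Dm (fun j => f^[j] y) (fun j => ℒ (f^[j] y)) 0 n 0
    with hmult
  have hm : ∀ y n, 0 < n → f^[n] y = y →
      (mfderiv (𝓡 m) (𝓡 m) f^[n] y (vgen m y) : EuclideanSpace ℝ (Fin m)) =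
        mult y n • vgen m y := fun y n hn hy => multiplier ha hr f hℒ hDm hn hy
  have hm1 : ∀ y n, 0 < n → f^[n] y = y → mult y n ≠ 1 := by
    intro y n hn hy
    refine hN y n _ _ hn (retMap_periodic hℒ hn hy) 0 (by rwa [abs_zero]) 0
      (orb_zero_zero hℒ y n) _ ?_
    refine orb_hasDerivAt (n := n) (fun j _ θ => ?_) 0 0 n le_rfl
    exact hDm (f^[j] y) (f (f^[j] y)) (ℒ (f^[j] y)) (hℒ.cont _) (hℒ.mono _).monotone (hℒ.map _) θ
  have hm0 : ∀ y n, 0 < n → f^[n] y = y → 0 ≤ mult y n := by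
    intro y n hn hy
    refine Finset.prod_nonneg fun i _ => ?_
    have h1 := hDm (f^[i] y) (f (f^[i] y)) (ℒ (f^[i] y)) (hℒ.cont _) (hℒ.mono _).monotone
      (hℒ.map _) (orb (fun j => ℒ (f^[j] y)) 0 i 0)
    have h2 := h1.deriv ▸ (hℒ.mono (f^[i] y)).monotone.deriv_nonneg
      (x := orb (fun j => ℒ (f^[j] y)) 0 i 0)
    exact h2
  have hcontr : ∀ a ∈ CircleContracting (EuclideanSpace ℝ (Fin m)) f,
      ∃ n > 0, f^[n] a = a ∧ mult a n < 1 := by
    rintro a ⟨n, hn, hper, c, hc, hder⟩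
    refine ⟨n, hn, hper, ?_⟩
    have h1 : mult a n • (vgen m a : EuclideanSpace ℝ (Fin m)) = c • vgen m a :=
      (hm a n hn hper).symm.trans hder
    have h2 : mult a n = c := smul_left_injective ℝ (gen_ne_zero ha hfree a) h1
    rw [h2]
    exact (abs_lt.1 hc).2
  have hexpa : ∀ b ∈ CircleExpanding (EuclideanSpace ℝ (Fin m)) f,
      ∃ n > 0, f^[n] b = b ∧ 1 < mult b n := by
    rintro b ⟨n, hn, hper, c, hc, hder⟩
    refine ⟨n, hn, hper, ?_⟩
    have h1 : mult b n • (vgen m b : EuclideanSpace ℝ (Fin m)) = c • vgen m b :=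
      (hm b n hn hper).symm.trans hder
    have h2 : mult b n = c := smul_left_injective ℝ (gen_ne_zero ha hfree b) h1
    have h3 := hm0 b n hn hper
    rw [h2] at h3 ⊢
    rwa [abs_of_nonneg h3] at hc
  -- the separation
  set ε := min (τ / 16) (1 / 2) with hεdef
  have hε0 : 0 < ε := by positivity
  have hε1 : ε < 1 := (min_le_right _ _).trans_lt (by norm_num)
  have hετ : 16 * ε ≤ τ := by
    have : ε ≤ τ / 16 := min_le_left _ _
    linarith
  obtain ⟨η, hη, ℓ, hshadow⟩ := exists_shadow hact hfree hb.continuous_proj hb.surjective hb.fibre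
    hAc hsh hexp hfc hcov hℒ hε0 hε1
  have hsep : ∀ a ∈ CircleContracting (EuclideanSpace ℝ (Fin m)) f,
      ∀ b ∈ CircleExpanding (EuclideanSpace ℝ (Fin m)) f, η ≤ dist a b := by
    intro a haC b hbE
    obtain ⟨n, hn, hpa, hma⟩ := hcontr a haC
    obtain ⟨n', hn', hpb, hmb⟩ := hexpa b hbE
    by_contra hcon
    exact no_close_pair hact hfree hf'c hinv hD hDm hℒ hX hN hn hn' hpa hpb hma hmb hε0 hετ ℓ
      (hshadow a b n n' hn hn' hpa hpb (not_le.1 hcon))
  -- periodic points are contracting or expanding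
  have hper : periodicPts f = CircleContracting (EuclideanSpace ℝ (Fin m)) f ∪
      CircleExpanding (EuclideanSpace ℝ (Fin m)) f := by
    apply Subset.antisymm
    · rintro y ⟨n, hn, hy⟩
      have hy' : f^[n] y = y := hy
      have h1 := hm1 y n hn hy'
      have h2 := hm0 y n hn hy'
      rcases lt_or_gt_of_ne h1 with h3 | h3
      · exact Or.inl ⟨n, hn, hy', mult y n, by rwa [abs_of_nonneg h2], hm y n hn hy'⟩
      · exact Or.inr ⟨n, hn, hy', mult y n, by rwa [abs_of_nonneg h2], hm y n hn hy'⟩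
    · rintro y (⟨n, hn, hy, -⟩ | ⟨n, hn, hy, -⟩)
      · exact ⟨n, hn, hy⟩
      · exact ⟨n, hn, hy⟩
  have hdense := dense_main hb hr (closingProperty_of_shadowing hsh) f hcov hcirc hst
  have hΩcl : IsClosed (Omega f) := by
    rw [← isOpen_compl_iff, isOpen_iff_mem_nhds]
    intro x hx
    have hx' : ¬ x ∈ Omega f := hx
    unfold Omega at hx'
    simp only [Set.mem_ofPred_eq, not_forall] at hx'
    obtain ⟨U, hU, hno⟩ := hx'
    rw [mem_nhds_iff] at hU
    obtain ⟨V, hVU, hVo, hxV⟩ := hU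
    filter_upwards [hVo.mem_nhds hxV] with y hy hyΩ
    apply hno
    obtain ⟨n, hn, hne⟩ := hyΩ V (hVo.mem_nhds hy)
    refine ⟨n, hn, hne.mono ?_⟩
    exact inter_subset_inter (image_mono hVU) hVU
  have hperΩ : periodicPts f ⊆ Omega f := by
    rintro y ⟨n, hn, hy⟩ U hU
    have hy' : f^[n] y = y := hy
    exact ⟨n, hn, y, ⟨y, mem_of_mem_nhds hU, hy'⟩, mem_of_mem_nhds hU⟩
  refine ⟨?_, ?_⟩
  · rw [← closure_union, ← hper]
    exact Subset.antisymm hdense (closure_minimal hperΩ hΩcl)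
  · rw [Set.disjoint_left]
    intro z hz1 hz2
    obtain ⟨a, haC, hza⟩ := Metric.mem_closure_iff.1 hz1 (η / 2) (by positivity)
    obtain ⟨b, hbE, hzb⟩ := Metric.mem_closure_iff.1 hz2 (η / 2) (by positivity)
    have h1 := hsep a haC b hbE
    have h2 : dist a b ≤ dist z a + dist z b := dist_triangle_left _ _ _
    linarith

end Main

end Dens

end Pool.Agent.OmegaStability
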