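import Pool.Agent.Work.MP_814647_an.Linear

/-!
# A resonant perturbation creates periodic points
-/

open Set Filter Topology Function Asymptotics

noncomputable section

namespace Pool.Agent.OmegaStab

namespace PerAux

variable {E : Type*} [NormedAddCommGroup E] [NormedSpace ℝ E]

/-- The blown up map. -/
def blow (F : E → E) (t : ℝ) (x : E) : E := t⁻¹ • F (t • x)

lemma blow_isLittleO {α : Type*} {l : Filter α} {F : E → E} {D : E →L[ℝ] E}
    (hF : HasStrictFDerivAt F D 0) {t : α → ℝ} {x y : α → E} {x0 y0 : E}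
    (ht : Tendsto t l (𝓝[≠] 0)) (hx : Tendsto x l (𝓝 x0)) (hy : Tendsto y l (𝓝 y0)) :
    (fun a => blow F (t a) (x a) - blow F (t a) (y a) - D (x a - y a)) =o[l]
      fun a => x a - y a := by
  have ht0 : Tendsto t l (𝓝 0) := ht.mono_right nhdsWithin_le_nhds
  have h1 : Tendsto (fun a => (t a • x a, t a • y a)) l (𝓝 (0, 0)) := by
    have h2 := ht0.smul hx
    have h3 := ht0.smul hy
    rw [zero_smul] at h2 h3
    exact h2.prodMk_nhds h3
  have h4 := (hF.isLittleO.comp_tendsto h1)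
  have h5 := (isBigO_refl (fun a => (t a)⁻¹) l).smul_isLittleO h4
  have hne : ∀ᶠ a in l, t a ≠ 0 := ht.eventually eventually_mem_nhdsWithin
  refine (h5.congr' ?_ ?_)
  · filter_upwards [hne] with a ha
    simp only [Function.comp_apply, blow]
    rw [← smul_sub, map_smul, smul_sub, smul_sub, smul_smul, inv_mul_cancel₀ ha, one_smul]
  · filter_upwards [hne] with a ha
    simp only [Function.comp_apply]
    rw [← smul_sub, smul_smul, inv_mul_cancel₀ ha, one_smul]

lemma blow_tendsto {α : Type*} {l : Filter α} {F : E → E} {D : E →L[ℝ] E}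
    (hF : HasStrictFDerivAt F D 0) (hF0 : F 0 = 0) {t : α → ℝ} {x : α → E} {x0 : E}
    (ht : Tendsto t l (𝓝[≠] 0)) (hx : Tendsto x l (𝓝 x0)) :
    Tendsto (fun a => blow F (t a) (x a)) l (𝓝 (D x0)) := by
  have h1 := blow_isLittleO hF ht hx (tendsto_const_nhds (x := (0 : E)))
  have h2 : Tendsto (fun a => x a - 0) l (𝓝 (x0 - 0)) := hx.sub tendsto_const_nhds
  have h3 := h1.trans_isBigO (h2.isBigO_one ℝ)
  have h4 := (isLittleO_one_iff ℝ).1 h3
  have h5 : Tendsto (fun a => D (x a)) l (𝓝 (D x0)) := (D.continuous.tendsto x0).comp hx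
  have h6 := h4.add h5
  rw [zero_add] at h6
  refine h6.congr fun a => ?_
  have h7 : blow F (t a) 0 = 0 := by rw [blow, smul_zero, hF0, smul_zero]
  rw [h7, sub_zero, sub_zero, sub_add_cancel]

/-- The blown up orbit. -/
def orb (F : E → E) (e : E) (t : ℝ) (L : E →L[ℝ] E) : ℕ → E
  | 0 => e
  | i + 1 => blow F t (orb F e t L i) + L (blow F t (orb F e t L i))

/-- The resonance map as a continuous linear map. -/
def resCLM (D : E →L[ℝ] E) (b : ℕ) (e : E) : (E →L[ℝ] E) →L[ℝ] E :=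
  ∑ j ∈ Finset.range b, (D ^ j).comp (ContinuousLinearMap.apply ℝ E ((D ^ (b - j)) e))

lemma resCLM_apply (D : E →L[ℝ] E) (b : ℕ) (e : E) (L : E →L[ℝ] E) :
    resCLM D b e L = resMap D b e L := by
  unfold resCLM resMap
  rw [sum_apply]
  rfl

lemma resMap_succ (D : E →L[ℝ] E) (b : ℕ) (e : E) (L : E →L[ℝ] E) :
    resMap D (b + 1) e L = D (resMap D b e L) + L ((D ^ (b + 1)) e) := by
  unfold resMap
  rw [Finset.sum_range_succ', map_sum, pow_zero, Nat.sub_zero]
  congr 1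
  refine Finset.sum_congr rfl fun j _ => ?_
  rw [Nat.succ_sub_succ, pow_succ']
  rfl

lemma orb_tendsto {α : Type*} {l : Filter α} {F : E → E} {D : E →L[ℝ] E}
    (hF : HasStrictFDerivAt F D 0) (hF0 : F 0 = 0) (e : E) {t : α → ℝ} {L : α → E →L[ℝ] E}
    (ht : Tendsto t l (𝓝[≠] 0)) (hL : Tendsto L l (𝓝 0)) (i : ℕ) :
    Tendsto (fun a => orb F e (t a) (L a) i) l (𝓝 ((D ^ i) e)) := by
  induction i with
  | zero => exact tendsto_const_nhds
  | succ i ih =>
    have h1 := blow_tendsto hF hF0 ht ih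
    have h2 : Tendsto (fun a => L a (blow F (t a) (orb F e (t a) (L a) i))) l
        (𝓝 ((0 : E →L[ℝ] E) (D ((D ^ i) e)))) :=
      ((isBoundedBilinearMap_apply (𝕜 := ℝ) (E := E) (F := E)).continuous.tendsto
        ((0 : E →L[ℝ] E), D ((D ^ i) e))).comp (hL.prodMk_nhds h1)
    have h3 := h1.add h2
    rw [zero_apply, add_zero] at h3
    rw [pow_succ']
    exact h3

lemma orb_isLittleO {α : Type*} {l : Filter α} {F : E → E} {D : E →L[ℝ] E}
    (hF : HasStrictFDerivAt F D 0) (hF0 : F 0 = 0) (e : E) {t : α → ℝ} {L L' : α → E →L[ℝ] E}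
    (ht : Tendsto t l (𝓝[≠] 0)) (hL : Tendsto L l (𝓝 0)) (hL' : Tendsto L' l (𝓝 0)) (i : ℕ) :
    (fun a => orb F e (t a) (L a) i - orb F e (t a) (L' a) i - resCLM D i e (L a - L' a)) =o[l]
      fun a => L a - L' a := by
  induction i with
  | zero =>
    refine (isLittleO_zero _ _).congr_left fun a => ?_
    simp [orb, resCLM]
  | succ i ih =>
    have hx := orb_tendsto hF hF0 e ht hL i
    have hy := orb_tendsto hF hF0 e ht hL' i
    set x : α → E := fun a => orb F e (t a) (L a) i with hxdef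
    set y : α → E := fun a => orb F e (t a) (L' a) i with hydef
    have hxy : (fun a => x a - y a) =O[l] fun a => L a - L' a := by
      have h1 := ih.isBigO.add ((resCLM D i e).isBigO_comp (fun a => L a - L' a) l)
      refine h1.congr_left fun a => ?_
      rw [sub_add_cancel]
    have hG := blow_isLittleO hF ht hx hy
    have hG1 := hG.trans_isBigO hxy
    have hG2 : (fun a => blow F (t a) (x a) - blow F (t a) (y a)) =O[l] fun a => L a - L' a := by
      have h1 := hG1.isBigO.add ((D.isBigO_comp (fun a => x a - y a) l).trans hxy)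
      refine h1.congr_left fun a => ?_
      rw [sub_add_cancel]
    have h2 : (fun a => D (x a - y a - resCLM D i e (L a - L' a))) =o[l] fun a => L a - L' a :=
      (D.isBigO_comp _ l).trans_isLittleO ih
    have h3 : (fun a => L a (blow F (t a) (x a) - blow F (t a) (y a))) =o[l]
        fun a => L a - L' a := by
      have h4 : (fun a => L a (blow F (t a) (x a) - blow F (t a) (y a))) =O[l]
          fun a => ‖L a‖ * ‖blow F (t a) (x a) - blow F (t a) (y a)‖ :=
        IsBigO.of_bound 1 (Eventually.of_forall fun a => by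
          rw [one_mul, norm_mul, norm_norm, norm_norm]
          exact (L a).le_opNorm _)
      have h5 : (fun a => ‖L a‖) =o[l] fun _ => (1 : ℝ) := by
        rw [isLittleO_one_iff]
        have := hL.norm
        rwa [norm_zero] at this
      have h6 := h5.mul_isBigO hG2.norm_norm
      refine (h4.trans_isLittleO h6).trans_isBigO ?_
      refine IsBigO.of_bound 1 (Eventually.of_forall fun a => ?_)
      rw [one_mul, norm_norm]
    have h7 : (fun a => (L a - L' a) (blow F (t a) (y a) - (D ^ (i + 1)) e)) =o[l]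
        fun a => L a - L' a := by
      have h4 : (fun a => (L a - L' a) (blow F (t a) (y a) - (D ^ (i + 1)) e)) =O[l]
          fun a => ‖L a - L' a‖ * ‖blow F (t a) (y a) - (D ^ (i + 1)) e‖ :=
        IsBigO.of_bound 1 (Eventually.of_forall fun a => by
          rw [one_mul, norm_mul, norm_norm, norm_norm]
          exact (L a - L' a).le_opNorm _)
      have h5 : (fun a => ‖blow F (t a) (y a) - (D ^ (i + 1)) e‖) =o[l] fun _ => (1 : ℝ) := by
        rw [isLittleO_one_iff]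
        have h8 := blow_tendsto hF hF0 ht hy
        have h9 : Tendsto (fun a => blow F (t a) (y a) - (D ^ (i + 1)) e) l
            (𝓝 (D ((D ^ i) e) - (D ^ (i + 1)) e)) := h8.sub tendsto_const_nhds
        have h10 : D ((D ^ i) e) - (D ^ (i + 1)) e = 0 := by
          rw [pow_succ']
          exact sub_self _
        rw [h10] at h9
        have := h9.norm
        rwa [norm_zero] at this
      have h6 := (isBigO_refl (fun a => ‖L a - L' a‖) l).mul_isLittleO h5
      refine (h4.trans_isLittleO h6).trans_isBigO ?_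
      refine IsBigO.of_bound 1 (Eventually.of_forall fun a => ?_)
      rw [one_mul, mul_one, norm_norm]
    refine (((hG1.add h2).add h3).add h7).congr_left fun a => ?_
    rw [resCLM_apply, resCLM_apply, resMap_succ]
    simp only [orb, hxdef, hydef, map_sub, sub_apply]
    abel

end PerAux

open PerAux in
/-- If `D` has the unit vector `e` as a periodic point of period `b` and the resonance map is onto,
then arbitrarily small linear perturbations of `F` near the fixed point `0` create periodic points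
of period `b` near `0`. -/
theorem exists_periodic_perturbation {E : Type*} [NormedAddCommGroup E] [NormedSpace ℝ E]
    [FiniteDimensional ℝ E] (F : E → E) (D : E →L[ℝ] E) (hF : HasStrictFDerivAt F D 0)
    (hF0 : F 0 = 0) (b : ℕ) (hb : 0 < b) (e : E) (he : e ≠ 0) (hDe : (D ^ b) e = e)
    (hsurj : Function.Surjective (resMap D b e)) (ε : ℝ) (hε : 0 < ε) :
    ∃ (L : E →L[ℝ] E) (z : ℕ → E), ‖L‖ < ε ∧ z 0 ≠ 0 ∧ z b = z 0 ∧
      (∀ i ≤ b, ‖z i‖ < ε ∧ ‖F (z i)‖ < ε) ∧
      ∀ i, z (i + 1) = F (z i) + L (F (z i)) := by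
  have hcomplete : CompleteSpace E := FiniteDimensional.complete ℝ E
  have hrange : (resCLM D b e).range = ⊤ := by
    rw [LinearMap.range_eq_top]
    intro y
    obtain ⟨L, hL⟩ := hsurj y
    exact ⟨L, (resCLM_apply D b e L).trans hL⟩
  let Rs := (resCLM D b e).nonlinearRightInverseOfSurjective hrange
  have hN : 0 < Rs.nnnorm := (resCLM D b e).nonlinearRightInverseOfSurjective_nnnorm_pos hrange
  let c : NNReal := Rs.nnnorm⁻¹ / 2
  have hc : 0 < c := half_pos (inv_pos.2 hN)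
  have hc' : (0 : ℝ) < c := NNReal.coe_pos.2 hc
  have hcN : ((Rs.nnnorm : ℝ)⁻¹ - c) = c := by
    change ((Rs.nnnorm : ℝ)⁻¹ - ((Rs.nnnorm⁻¹ / 2 : NNReal) : ℝ)) = ((Rs.nnnorm⁻¹ / 2 : NNReal) : ℝ)
    push_cast
    ring
  -- the two filters
  have hA : ∀ᶠ q : ℝ × ((E →L[ℝ] E) × (E →L[ℝ] E)) in 𝓝[≠] 0 ×ˢ 𝓝 0,
      ‖orb F e q.1 q.2.1 b - orb F e q.1 q.2.2 b - resCLM D b e (q.2.1 - q.2.2)‖ ≤
        c * ‖q.2.1 - q.2.2‖ := by
    have h1 : Tendsto (fun q : ℝ × ((E →L[ℝ] E) × (E →L[ℝ] E)) => q.1) (𝓝[≠] 0 ×ˢ 𝓝 0)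
      (𝓝[≠] 0) := tendsto_fst
    have h2 : Tendsto (fun q : ℝ × ((E →L[ℝ] E) × (E →L[ℝ] E)) => q.2.1) (𝓝[≠] 0 ×ˢ 𝓝 0)
      (𝓝 0) := (continuous_fst.tendsto (0 : (E →L[ℝ] E) × (E →L[ℝ] E))).comp tendsto_snd
    have h3 : Tendsto (fun q : ℝ × ((E →L[ℝ] E) × (E →L[ℝ] E)) => q.2.2) (𝓝[≠] 0 ×ˢ 𝓝 0)
      (𝓝 0) := (continuous_snd.tendsto (0 : (E →L[ℝ] E) × (E →L[ℝ] E))).comp tendsto_snd
    exact (orb_isLittleO hF hF0 e h1 h2 h3 b).def hc'
  have hB : ∀ᶠ q : ℝ × (E →L[ℝ] E) in 𝓝[≠] 0 ×ˢ 𝓝 0,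
      ∀ i ∈ Finset.range (b + 1), ‖q.1 • orb F e q.1 q.2 i‖ < ε ∧
        ‖F (q.1 • orb F e q.1 q.2 i)‖ < ε := by
    rw [Finset.eventually_all]
    intro i _
    have h1 : Tendsto (fun q : ℝ × (E →L[ℝ] E) => q.1) (𝓝[≠] 0 ×ˢ 𝓝 0) (𝓝[≠] 0) := tendsto_fst
    have h2 : Tendsto (fun q : ℝ × (E →L[ℝ] E) => q.2) (𝓝[≠] 0 ×ˢ 𝓝 0) (𝓝 0) := tendsto_snd
    have h3 := orb_tendsto hF hF0 e h1 h2 i
    have h4 := (h1.mono_right nhdsWithin_le_nhds).smul h3
    rw [zero_smul] at h4
    have h5 : Tendsto (fun q : ℝ × (E →L[ℝ] E) => F (q.1 • orb F e q.1 q.2 i)) (𝓝[≠] 0 ×ˢ 𝓝 0)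
        (𝓝 0) := by
      have h6 : Tendsto F (𝓝 0) (𝓝 (F 0)) := hF.continuousAt
      rw [hF0] at h6
      exact h6.comp h4
    have h7 := h4.norm
    have h8 := h5.norm
    rw [norm_zero] at h7 h8
    exact (h7.eventually_lt_const hε).and (h8.eventually_lt_const hε)
  obtain ⟨pa, hpa, pb, hpb, hab⟩ := eventually_prod_iff.1 hA
  obtain ⟨qa, hqa, qb, hqb, hqab⟩ := eventually_prod_iff.1 hB
  obtain ⟨δ₁, hδ₁, hball₁⟩ := Metric.eventually_nhds_iff_ball.1 hpb
  obtain ⟨δ₂, hδ₂, hball₂⟩ := Metric.eventually_nhds_iff_ball.1 hqb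
  set δ : ℝ := min (min δ₁ δ₂) ε / 2 with hδ
  have hmin : 0 < min (min δ₁ δ₂) ε := lt_min (lt_min hδ₁ hδ₂) hε
  have hδpos : 0 < δ := half_pos hmin
  have hδ1 : δ < δ₁ := (half_lt_self hmin).trans_le ((min_le_left _ _).trans (min_le_left _ _))
  have hδ2 : δ < δ₂ := (half_lt_self hmin).trans_le ((min_le_left _ _).trans (min_le_right _ _))
  have hδ3 : δ < ε := (half_lt_self hmin).trans_le (min_le_right _ _)
  have hC : ∀ᶠ t : ℝ in 𝓝[≠] 0, ‖orb F e t 0 b - e‖ < c * δ := by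
    have h1 : Tendsto (fun t : ℝ => t) (𝓝[≠] 0) (𝓝[≠] 0) := tendsto_id
    have h2 : Tendsto (fun _ : ℝ => (0 : E →L[ℝ] E)) (𝓝[≠] 0) (𝓝 0) := tendsto_const_nhds
    have h3 := orb_tendsto hF hF0 e h1 h2 b
    rw [hDe] at h3
    have h4 : Tendsto (fun t : ℝ => orb F e t 0 b - e) (𝓝[≠] 0) (𝓝 (e - e)) :=
      h3.sub tendsto_const_nhds
    rw [sub_self] at h4
    have h5 := h4.norm
    rw [norm_zero] at h5
    exact h5.eventually_lt_const (mul_pos hc' hδpos)
  have hne : ∀ᶠ t : ℝ in 𝓝[≠] 0, t ≠ 0 := eventually_mem_nhdsWithin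
  obtain ⟨t, ⟨⟨⟨htpa, htqa⟩, htC⟩, ht0⟩⟩ := (((hpa.and hqa).and hC).and hne).exists
  have happrox : ApproximatesLinearOn (fun L : E →L[ℝ] E => orb F e t L b) (resCLM D b e)
      (Metric.closedBall 0 δ) c := by
    intro L hL L' hL'
    rw [mem_closedBall_zero_iff] at hL hL'
    refine hab htpa (y := (L, L')) (hball₁ _ ?_)
    rw [Metric.mem_ball, dist_zero_right, Prod.norm_mk]
    exact max_lt (hL.trans_lt hδ1) (hL'.trans_lt hδ1)
  have hsurjOn := happrox.surjOn_closedBall_of_nonlinearRightInverse Rs hδpos.le Subset.rfl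
  rw [hcN] at hsurjOn
  obtain ⟨L, hL, hLe⟩ := hsurjOn (a := e) (by
    rw [Metric.mem_closedBall, dist_comm, dist_eq_norm]
    exact htC.le)
  rw [mem_closedBall_zero_iff] at hL
  refine ⟨L, fun i => t • orb F e t L i, hL.trans_lt hδ3, ?_, ?_, ?_, ?_⟩
  · exact smul_ne_zero ht0 he
  · exact congrArg (fun x => t • x) hLe
  · intro i hi
    refine hqab htqa (y := L) (hball₂ _ ?_) i (Finset.mem_range.2 (by omega))
    rw [mem_ball_zero_iff]
    exact hL.trans_lt hδ2
  · intro i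
    change t • (blow F t (orb F e t L i) + L (blow F t (orb F e t L i))) = _
    simp only [blow, map_smul, smul_add, smul_smul, mul_inv_cancel₀ ht0, one_smul]

end Pool.Agent.OmegaStab
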