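import Pool.Agent.Work.MP_814647_an.Charts
import Pool.Agent.Work.MP_814647_an.Bd.B04
import Pool.Agent.Work.MP_814647_an.Linear
import Pool.Agent.Work.MP_814647_an.FinHyp
import Pool.Agent.Work.MP_814647_an.Resonance
import Pool.Agent.Work.MP_814647_an.Family

/-!
# Local model at a hyperbolic periodic point
-/

open Set Filter Topology Function
open scoped Manifold ContDiff

noncomputable section

namespace Pool.Agent.OmegaStab

variable {d : ℕ} {M : Type*} [MetricSpace M] [ChartedSpace (EE d) M] {r : ℕ∞}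
  [CompactSpace M] [IsManifold (𝓡 d) ∞ M]

omit [CompactSpace M] in
theorem hasStrictFDerivAt_inCharts_iterate (hr : 1 ≤ r) (g : Dyn d M r) (p : M) (k : ℕ)
    (hk : g^[k] p = p) (n : ℕ) :
    HasStrictFDerivAt (inCharts (d := d) p p g^[k * n])
      ((fderiv ℝ (inCharts (d := d) p p g^[k]) (extChartAt (𝓡 d) p p)) ^ n)
      (extChartAt (𝓡 d) p p) := by
  have hps : p ∈ (extChartAt (𝓡 d) p).source := mem_extChartAt_source p
  have hr' : (r : ℕ∞ω) ≠ 0 := by
    have : (1 : ℕ∞ω) ≤ (r : ℕ∞ω) := by exact_mod_cast hr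
    intro h0
    rw [h0] at this
    exact absurd this (by simp)
  have hkn : ∀ n, g^[k * n] p = p := by
    intro n
    rw [Function.iterate_mul]
    exact Function.iterate_fixed hk n
  induction n with
  | zero =>
    have h1 : (inCharts (d := d) p p g^[k * 0]) =ᶠ[𝓝 (extChartAt (𝓡 d) p p)] id := by
      filter_upwards [extChartAt_target_mem_nhds (I := 𝓡 d) p] with u hu
      simp only [inCharts, Nat.mul_zero, Function.iterate_zero, id]
      exact (extChartAt (𝓡 d) p).right_inv hu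
    exact (hasStrictFDerivAt_id _).congr_of_eventuallyEq h1.symm
  | succ n ih =>
    have hcont : Continuous (g^[k * n]) := g.continuous.iterate _
    have hmem : extChartAt (𝓡 d) p p ∈ chartDom (d := d) p p g^[k * n] :=
      mem_chartDom hps (by rw [hkn n]; exact hps)
    have hval : inCharts (d := d) p p g^[k * n] (extChartAt (𝓡 d) p p) =
        extChartAt (𝓡 d) p p := by
      rw [inCharts_apply hps, hkn n]
    have h0 : HasStrictFDerivAt (inCharts (d := d) p p g^[k])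
        (fderiv ℝ (inCharts (d := d) p p g^[k]) (extChartAt (𝓡 d) p p))
        (extChartAt (𝓡 d) p p) := by
      have hmem' : extChartAt (𝓡 d) p p ∈ chartDom (d := d) p p g^[k] :=
        mem_chartDom hps (by rw [hk]; exact hps)
      have hC := contDiffOn_inCharts (r := r) (contMDiff_iterate g.contMDiff k) p p
      have hC' : ContDiffAt ℝ (r : ℕ∞ω) (inCharts (d := d) p p g^[k]) (extChartAt (𝓡 d) p p) :=
        hC.contDiffAt ((isOpen_chartDom p p (g.continuous.iterate k)).mem_nhds hmem')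
      exact hC'.hasStrictFDerivAt hr'
    have h2 : (inCharts (d := d) p p g^[k * (n + 1)]) =ᶠ[𝓝 (extChartAt (𝓡 d) p p)]
        (inCharts (d := d) p p g^[k]) ∘ (inCharts (d := d) p p g^[k * n]) := by
      filter_upwards [(isOpen_chartDom p p hcont).mem_nhds hmem] with u hu
      rw [Function.comp_apply, inCharts_comp hu]
      congr 1
      rw [← Function.iterate_add, Nat.mul_succ, Nat.add_comm]
    have h3 := HasStrictFDerivAt.comp (extChartAt (𝓡 d) p p)
      (g := inCharts (d := d) p p g^[k]) (by rw [hval]; exact h0) ih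
    rw [pow_succ']
    exact h3.congr_of_eventuallyEq h2.symm

/-- The local coordinate `Θ (φ z - φ p)`. -/
def psi {Es Eu : Submodule ℝ (EE d)} (p : M) (Θ : EE d ≃L[ℝ] Es × Eu) (z : M) : Es × Eu :=
  Θ (extChartAt (𝓡 d) p z - extChartAt (𝓡 d) p p)

/-- The inverse of the local coordinate. -/
def psiInv {Es Eu : Submodule ℝ (EE d)} (p : M) (Θ : EE d ≃L[ℝ] Es × Eu) (u : Es × Eu) : M :=
  (extChartAt (𝓡 d) p).symm (extChartAt (𝓡 d) p p + Θ.symm u)

/-- A local model of the diffeomorphism near a hyperbolic periodic point. -/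
structure LocModel (g : M → M) (p : M) where
  (Es Eu : Submodule ℝ (EE d))
  (Θ : EE d ≃L[ℝ] Es × Eu)
  (m : ℕ)
  (As : Es →L[ℝ] Es)
  (Au : Eu ≃L[ℝ] Eu)
  (ρ : ℝ)
  (Ω : Set (Es × Eu))
  (hm : 0 < m)
  (hgp : g^[m] p = p)
  (hΩ : IsOpen Ω)
  (hball : Metric.closedBall 0 ρ ⊆ Ω)
  (hdom : ∀ u ∈ Ω, extChartAt (𝓡 d) p p + Θ.symm u ∈ chartDom (d := d) p p g^[m])
  (hyp : LocHyp (fun u => psi p Θ (g^[m] (psiInv p Θ u))) As Au ρ)
  (smooth : ContDiffOn ℝ 1 (fun u => psi p Θ (g^[m] (psiInv p Θ u))) Ω)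

theorem exists_locModel (hr : 1 ≤ r) (g : Dyn d M r) (p : M) (hp : HypAt (d := d) g p) :
    Nonempty (LocModel (d := d) g p) := by
  obtain ⟨hper, hyp⟩ := hp
  set k := minimalPeriod g p with hkdef
  have hk0 : 0 < k := minimalPeriod_pos_of_mem_periodicPts hper
  have hk : g^[k] p = p := iterate_minimalPeriod
  set c := extChartAt (𝓡 d) p p with hc
  set D := fderiv ℝ (inCharts (d := d) p p g^[k]) c with hD
  obtain ⟨Es, Eu, C, μ, hcompl, hEs, hEu, hC, hμ0, hμ1, hs, hu⟩ := hyp.split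
  have hEsn : ∀ n : ℕ, ∀ v ∈ Es, (D ^ n) v ∈ Es := by
    intro n
    induction n with
    | zero => intro v hv; simpa using hv
    | succ n ih => intro v hv; rw [pow_succ', mul_apply_eq_comp]; exact hEs _ (ih v hv)
  have hEun : ∀ n : ℕ, ∀ v ∈ Eu, (D ^ n) v ∈ Eu := by
    intro n
    induction n with
    | zero => intro v hv; simpa using hv
    | succ n ih => intro v hv; rw [pow_succ', mul_apply_eq_comp]; exact hEu _ (ih v hv)
  obtain ⟨N, hN1, hN⟩ : ∃ N : ℕ, 1 ≤ N ∧ C * μ ^ N ≤ 1 / 8 := by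
    have h1 : Tendsto (fun n : ℕ => C * μ ^ n) atTop (𝓝 (C * 0)) :=
      (tendsto_pow_atTop_nhds_zero_of_lt_one hμ0.le hμ1).const_mul C
    rw [mul_zero] at h1
    have h2 := (h1.eventually (gt_mem_nhds (show (0 : ℝ) < 1 / 8 by norm_num))).and
      (eventually_ge_atTop 1)
    obtain ⟨N, hN⟩ := h2.exists
    exact ⟨N, hN.2, hN.1.le⟩
  set L := D ^ N with hL
  -- the coordinates
  let Θ₀ : (Es × Eu) ≃L[ℝ] EE d := (Submodule.prodEquivOfIsCompl Es Eu hcompl).toContinuousLinearEquiv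
  have hΘ₀ : ∀ u : Es × Eu, Θ₀ u = (u.1 : EE d) + (u.2 : EE d) := by
    intro u
    simp [Θ₀]
  let Θ : EE d ≃L[ℝ] Es × Eu := Θ₀.symm
  let As₀ : Es →ₗ[ℝ] Es := (L : EE d →ₗ[ℝ] EE d).restrict (fun v hv => hEsn N v hv)
  let As : Es →L[ℝ] Es := LinearMap.toContinuousLinearMap As₀
  have hAs : ∀ v : Es, ((As v : Es) : EE d) = L (v : EE d) := fun v => rfl
  let Au₀ : Eu →ₗ[ℝ] Eu := (L : EE d →ₗ[ℝ] EE d).restrict (fun v hv => hEun N v hv)
  have hAu₀ : ∀ v : Eu, ((Au₀ v : Eu) : EE d) = L (v : EE d) := fun v => rfl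
  have hubound : ∀ v : Eu, ‖v‖ ≤ 1 / 8 * ‖Au₀ v‖ := by
    intro v
    have h1 := hu v v.2 N
    have h2 : ‖(D ^ N) (v : EE d)‖ = ‖Au₀ v‖ := by
      rw [← hL, ← hAu₀ v]; rfl
    calc ‖v‖ = ‖(v : EE d)‖ := rfl
      _ ≤ C * μ ^ N * ‖(D ^ N) (v : EE d)‖ := h1
      _ = C * μ ^ N * ‖Au₀ v‖ := by rw [h2]
      _ ≤ 1 / 8 * ‖Au₀ v‖ := mul_le_mul_of_nonneg_right hN (norm_nonneg _)
  have hinj : Function.Injective Au₀ := by
    rw [injective_iff_map_eq_zero]
    intro v hv
    have := hubound v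
    rw [hv, norm_zero, mul_zero] at this
    exact norm_le_zero_iff.1 this
  let Au : Eu ≃L[ℝ] Eu := (LinearEquiv.ofInjectiveEndo Au₀ hinj).toContinuousLinearEquiv
  have hAu : ∀ v : Eu, Au v = Au₀ v := fun v => rfl
  have hnormAs : ‖As‖ ≤ 1 / 8 := by
    refine ContinuousLinearMap.opNorm_le_bound _ (by norm_num) fun v => ?_
    calc ‖As v‖ = ‖L (v : EE d)‖ := rfl
      _ ≤ C * μ ^ N * ‖(v : EE d)‖ := hs v v.2 N
      _ ≤ 1 / 8 * ‖v‖ := mul_le_mul_of_nonneg_right hN (norm_nonneg _)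
  have hnormAu : ‖(Au.symm : Eu →L[ℝ] Eu)‖ ≤ 1 / 8 := by
    refine ContinuousLinearMap.opNorm_le_bound _ (by norm_num) fun w => ?_
    have h1 := hubound (Au.symm w)
    rw [← hAu, Au.apply_symm_apply] at h1
    exact h1
  set m := k * N with hm
  have hm0 : 0 < m := Nat.mul_pos hk0 hN1
  have hgp : g^[m] p = p := by
    rw [hm, Function.iterate_mul]; exact Function.iterate_fixed hk N
  have hps : p ∈ (extChartAt (𝓡 d) p).source := mem_extChartAt_source p
  let G : Es × Eu → Es × Eu := fun u => psi p Θ (g^[m] (psiInv p Θ u))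
  have hG : G = fun u => Θ (inCharts (d := d) p p g^[m] (c + Θ.symm u) - c) := rfl
  have hG0 : G 0 = 0 := by
    rw [hG]
    simp only [map_zero, add_zero]
    rw [hc, inCharts_apply hps, hgp, sub_self, map_zero]
  have hstrict : HasStrictFDerivAt G (As.prodMap (Au : Eu →L[ℝ] Eu)) 0 := by
    have h1 : HasStrictFDerivAt (inCharts (d := d) p p g^[m]) L c :=
      hasStrictFDerivAt_inCharts_iterate hr g p k hk N
    have h2 : HasStrictFDerivAt (fun u : Es × Eu => c + Θ.symm u)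
        (Θ.symm : Es × Eu →L[ℝ] EE d) 0 :=
      (Θ.symm.hasStrictFDerivAt (x := (0 : Es × Eu))).const_add c
    have h3 : HasStrictFDerivAt (fun u : Es × Eu => inCharts (d := d) p p g^[m] (c + Θ.symm u))
        (L.comp (Θ.symm : Es × Eu →L[ℝ] EE d)) 0 := by
      refine HasStrictFDerivAt.comp (0 : Es × Eu) (g := inCharts (d := d) p p g^[m]) ?_ h2
      simpa using h1
    have h4 : HasStrictFDerivAt (fun u : Es × Eu =>
        inCharts (d := d) p p g^[m] (c + Θ.symm u) - c)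
        (L.comp (Θ.symm : Es × Eu →L[ℝ] EE d)) 0 := h3.sub_const c
    have h5 := (Θ.hasStrictFDerivAt
      (x := (inCharts (d := d) p p g^[m] (c + Θ.symm 0) - c))).comp (0 : Es × Eu) h4
    refine (hG ▸ h5).congr_fderiv ?_
    refine ContinuousLinearMap.ext fun u => ?_
    change Θ (L (Θ.symm u)) = (As u.1, Au u.2)
    rw [← Θ.apply_symm_apply (As u.1, Au u.2)]
    congr 1
    change L (Θ₀ u) = Θ₀ (As u.1, Au u.2)
    rw [hΘ₀, hΘ₀, map_add]
    rfl
  -- choose the radius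
  have hbd : ∀ᶠ q : (Es × Eu) × (Es × Eu) in 𝓝 (0, 0),
      ‖G q.1 - G q.2 - (As.prodMap (Au : Eu →L[ℝ] Eu)) (q.1 - q.2)‖ ≤ 1 / 8 * ‖q.1 - q.2‖ :=
    hstrict.isLittleO.def (by norm_num)
  obtain ⟨ρ₁, hρ₁, hb₁⟩ := Metric.eventually_nhds_iff_ball.1 hbd
  let Ω : Set (Es × Eu) := (fun u => c + Θ.symm u) ⁻¹' chartDom (d := d) p p g^[m]
  have hΩ : IsOpen Ω := (isOpen_chartDom p p (g.continuous.iterate m)).preimage
    (continuous_const.add Θ.symm.continuous)
  have h0Ω : (0 : Es × Eu) ∈ Ω := by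
    change c + Θ.symm 0 ∈ chartDom (d := d) p p g^[m]
    rw [map_zero, add_zero]
    exact mem_chartDom hps (by rw [hgp]; exact hps)
  obtain ⟨ρ₂, hρ₂, hb₂⟩ := Metric.isOpen_iff.1 hΩ 0 h0Ω
  set ρ := min (ρ₁ / 2) (ρ₂ / 2) with hρ
  have hρ0 : 0 < ρ := lt_min (by linarith) (by linarith)
  refine ⟨⟨Es, Eu, Θ, m, As, Au, ρ, Ω, hm0, hgp, hΩ, ?_, fun u hu => hu, ?_, ?_⟩⟩
  · intro u hu
    apply hb₂
    rw [Metric.mem_closedBall] at hu
    rw [Metric.mem_ball]
    have : ρ ≤ ρ₂ / 2 := min_le_right _ _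
    linarith
  · refine ⟨hρ0, hG0, hnormAs, hnormAu, fun x y hx hy => ?_⟩
    have hlt : ρ < ρ₁ := lt_of_le_of_lt (min_le_left _ _) (by linarith)
    have := hb₁ (x, y) (by
      rw [Metric.mem_ball, Prod.dist_eq, max_lt_iff]
      simp only [dist_zero_right]
      exact ⟨by linarith, by linarith⟩)
    exact this
  · have hCD := contDiffOn_inCharts (r := r) (contMDiff_iterate g.contMDiff m) p p
    have h1r : (1 : ℕ∞ω) ≤ (r : ℕ∞ω) := by exact_mod_cast hr
    have h1 : ContDiffOn ℝ 1 (fun u : Es × Eu => inCharts (d := d) p p g^[m] (c + Θ.symm u)) Ω :=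
      (hCD.of_le h1r).comp (s := Ω) (f := fun u : Es × Eu => c + Θ.symm u)
        ((contDiff_const.add Θ.symm.contDiff).contDiffOn)
        (show MapsTo _ Ω (chartDom (d := d) p p g^[m]) from fun u hu => hu)
    exact Θ.contDiff.comp_contDiffOn (h1.sub contDiffOn_const)

end Pool.Agent.OmegaStab
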