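import Pool.Agent.Work.MP_814647_an.ProjBasic

/-!
# Explicit lift of a Moebius map of the circle
-/

open Set Filter Topology
open scoped Manifold ContDiff ComplexConjugate

noncomputable section

namespace Pool.Agent.OmegaStability

namespace P1

/-- `w θ = 1 + (b / a) e^{-iθ}`. -/
def w (a b : ℂ) (θ : ℝ) : ℂ := 1 + b / a * Complex.exp (-(θ * Complex.I))

/-- The lift. -/
def lft (a b : ℂ) (θ : ℝ) : ℝ := θ + 2 * a.arg + 2 * (Complex.log (w a b θ)).im

/-- The derivative of the lift. -/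
def dlft (a b : ℂ) (θ : ℝ) : ℝ :=
  (Complex.normSq a - Complex.normSq b) /
    Complex.normSq (conj b * Complex.exp (θ * Complex.I) + conj a)

theorem exp_two_arg {z : ℂ} (hz : z ≠ 0) :
    Complex.exp ((2 * z.arg : ℝ) * Complex.I) * conj z = z := by
  have h1 : (‖z‖ : ℂ) ≠ 0 := by
    rw [Complex.ofReal_ne_zero]
    exact norm_ne_zero_iff.2 hz
  have h2 : Complex.exp (z.arg * Complex.I) = z / ‖z‖ := by
    rw [eq_div_iff h1, mul_comm]
    exact Complex.norm_mul_exp_arg_mul_I z
  have h3 : Complex.exp ((2 * z.arg : ℝ) * Complex.I) = (z / ‖z‖) ^ 2 := by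
    rw [← h2, ← Complex.exp_nat_mul]
    congr 1
    push_cast
    ring
  rw [h3, div_pow, div_mul_eq_mul_div, div_eq_iff (pow_ne_zero 2 h1), pow_two, mul_assoc,
    Complex.mul_conj, Complex.normSq_eq_norm_sq]
  push_cast
  ring

theorem normSq_exp_sub (x y : ℝ) :
    Complex.normSq (Complex.exp (x * Complex.I) - Complex.exp (y * Complex.I)) =
      4 * Real.sin ((x - y) / 2) ^ 2 := by
  have h1 : Real.sin ((x - y) / 2) ^ 2 = (1 - Real.cos (x - y)) / 2 := by
    have h := Real.cos_two_mul' ((x - y) / 2)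
    have h' := Real.sin_sq_add_cos_sq ((x - y) / 2)
    rw [mul_div_cancel₀ (x - y) (two_ne_zero)] at h
    linarith
  rw [h1, Real.cos_sub, Complex.normSq_apply, Complex.sub_re, Complex.sub_im,
    Complex.exp_ofReal_mul_I_re, Complex.exp_ofReal_mul_I_re, Complex.exp_ofReal_mul_I_im,
    Complex.exp_ofReal_mul_I_im]
  have h2 := Real.sin_sq_add_cos_sq x
  have h3 := Real.sin_sq_add_cos_sq y
  ring_nf
  nlinarith [h2, h3]

variable {a b : ℂ}

theorem a_ne (h : ‖b‖ < ‖a‖) : a ≠ 0 := norm_pos_iff.1 (lt_of_le_of_lt (norm_nonneg _) h)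

theorem norm_u (h : ‖b‖ < ‖a‖) (θ : ℝ) : ‖b / a * Complex.exp (-(θ * Complex.I))‖ < 1 := by
  have h1 : -((θ : ℂ) * Complex.I) = ((-θ : ℝ) : ℂ) * Complex.I := by push_cast; ring
  rw [norm_mul, h1, Complex.norm_exp_ofReal_mul_I, mul_one, norm_div, div_lt_one]
  · exact h
  · exact norm_pos_iff.2 (a_ne h)

theorem re_w_pos (h : ‖b‖ < ‖a‖) (θ : ℝ) : 0 < (w a b θ).re := by
  have h1 := norm_u h θ
  have h2 := Complex.abs_re_le_norm (b / a * Complex.exp (-(θ * Complex.I)))
  have h3 := abs_le.1 h2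
  unfold w
  rw [Complex.add_re, Complex.one_re]
  linarith [h3.1]

theorem w_ne (h : ‖b‖ < ‖a‖) (θ : ℝ) : w a b θ ≠ 0 := by
  intro h0
  have := re_w_pos h θ
  rw [h0, Complex.zero_re] at this
  exact lt_irrefl _ this

theorem a_mul_w (h : ‖b‖ < ‖a‖) (θ : ℝ) :
    Complex.exp (θ * Complex.I) * (a * w a b θ) = a * Complex.exp (θ * Complex.I) + b := by
  have h1 : Complex.exp (θ * Complex.I) * Complex.exp (-(θ * Complex.I)) = 1 := by
    rw [← Complex.exp_add, add_neg_cancel, Complex.exp_zero]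
  unfold w
  rw [mul_add, mul_one, mul_add, ← mul_assoc a, mul_div_cancel₀ b (a_ne h)]
  linear_combination b * h1

theorem conj_exp (θ : ℝ) : conj (Complex.exp (-((θ : ℂ) * Complex.I))) =
    Complex.exp (θ * Complex.I) := by
  rw [← Complex.exp_conj]
  congr 1
  simp

theorem conj_a_mul_w (h : ‖b‖ < ‖a‖) (θ : ℝ) :
    conj (a * w a b θ) = conj b * Complex.exp (θ * Complex.I) + conj a := by
  unfold w
  rw [mul_add, mul_one, ← mul_assoc a, mul_div_cancel₀ b (a_ne h), map_add, map_mul, conj_exp]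
  ring

theorem exp_lft (h : ‖b‖ < ‖a‖) (θ : ℝ) :
    Complex.exp (lft a b θ * Complex.I) * (conj b * Complex.exp (θ * Complex.I) + conj a) =
      a * Complex.exp (θ * Complex.I) + b := by
  have h1 : Complex.exp (lft a b θ * Complex.I) = Complex.exp (θ * Complex.I) *
      (Complex.exp ((2 * a.arg : ℝ) * Complex.I) *
        Complex.exp ((2 * (w a b θ).arg : ℝ) * Complex.I)) := by
    rw [← Complex.exp_add, ← Complex.exp_add]
    congr 1
    unfold lft
    rw [Complex.log_im]
    push_cast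
    ring
  rw [h1, ← conj_a_mul_w h, ← a_mul_w h, map_mul]
  have h2 := exp_two_arg (a_ne h)
  have h3 := exp_two_arg (w_ne h θ)
  calc Complex.exp (θ * Complex.I) * (Complex.exp ((2 * a.arg : ℝ) * Complex.I) *
        Complex.exp ((2 * (w a b θ).arg : ℝ) * Complex.I)) * (conj a * conj (w a b θ))
      = Complex.exp (θ * Complex.I) * ((Complex.exp ((2 * a.arg : ℝ) * Complex.I) * conj a) *
        (Complex.exp ((2 * (w a b θ).arg : ℝ) * Complex.I) * conj (w a b θ))) := by ring
    _ = Complex.exp (θ * Complex.I) * (a * w a b θ) := by rw [h2, h3]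

theorem normSq_den (h : ‖b‖ < ‖a‖) (θ : ℝ) :
    Complex.normSq (conj b * Complex.exp (θ * Complex.I) + conj a) =
      Complex.normSq a * Complex.normSq (w a b θ) := by
  rw [← conj_a_mul_w h, Complex.normSq_conj, Complex.normSq_mul]

theorem normSq_den_pos (h : ‖b‖ < ‖a‖) (θ : ℝ) :
    0 < Complex.normSq (conj b * Complex.exp (θ * Complex.I) + conj a) := by
  rw [normSq_den h]
  exact mul_pos (Complex.normSq_pos.2 (a_ne h)) (Complex.normSq_pos.2 (w_ne h θ))

theorem num_pos (h : ‖b‖ < ‖a‖) : 0 < Complex.normSq a - Complex.normSq b := by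
  rw [Complex.normSq_eq_norm_sq, Complex.normSq_eq_norm_sq]
  have := norm_nonneg b
  nlinarith

theorem dlft_pos (h : ‖b‖ < ‖a‖) (θ : ℝ) : 0 < dlft a b θ :=
  div_pos (num_pos h) (normSq_den_pos h θ)

theorem hasDerivAt_w (a b : ℂ) (θ : ℝ) :
    HasDerivAt (w a b) (b / a * (Complex.exp (-(θ * Complex.I)) * -Complex.I)) θ := by
  have h1 : HasDerivAt (fun t : ℝ => -((t : ℂ) * Complex.I)) (-Complex.I) θ := by
    have h0 : HasDerivAt (fun t : ℝ => (t : ℂ)) 1 θ := (hasDerivAt_id θ).ofReal_comp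
    have h2 := (h0.mul_const Complex.I).fun_neg
    rwa [one_mul] at h2
  exact (h1.cexp.const_mul (b / a)).const_add 1

theorem hasDerivAt_lft (h : ‖b‖ < ‖a‖) (θ : ℝ) : HasDerivAt (lft a b) (dlft a b θ) θ := by
  have hw := hasDerivAt_w a b θ
  have hs : w a b θ ∈ Complex.slitPlane := Or.inl (re_w_pos h θ)
  have hl := hw.clog_real hs
  have hi : HasDerivAt (fun t => (Complex.log (w a b t)).im)
      ((b / a * (Complex.exp (-(θ * Complex.I)) * -Complex.I)) / w a b θ).im θ :=
    (Complex.imCLM.hasFDerivAt.comp_hasDerivAt θ hl)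
  have ht : HasDerivAt (lft a b)
      (1 + 2 * ((b / a * (Complex.exp (-(θ * Complex.I)) * -Complex.I)) / w a b θ).im) θ :=
    ((hasDerivAt_id θ).add_const (2 * a.arg)).add (hi.const_mul 2)
  convert ht using 1
  unfold dlft
  rw [normSq_den h]
  have ha : Complex.normSq a ≠ 0 := (Complex.normSq_pos.2 (a_ne h)).ne'
  have hwn : Complex.normSq (w a b θ) ≠ 0 := (Complex.normSq_pos.2 (w_ne h θ)).ne'
  set u : ℂ := b / a * Complex.exp (-(θ * Complex.I)) with hu
  have hwu : w a b θ = 1 + u := rfl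
  have hnu : Complex.normSq u * Complex.normSq a = Complex.normSq b := by
    have h1 : -((θ : ℂ) * Complex.I) = ((-θ : ℝ) : ℂ) * Complex.I := by push_cast; ring
    have h2 : Complex.normSq (Complex.exp (-((θ : ℂ) * Complex.I))) = 1 := by
      rw [Complex.normSq_eq_norm_sq, h1, Complex.norm_exp_ofReal_mul_I, one_pow]
    rw [hu, Complex.normSq_mul, h2, mul_one, Complex.normSq_div, div_mul_cancel₀ _ ha]
  have e1 : (b / a * (Complex.exp (-(θ * Complex.I)) * -Complex.I)) / w a b θ =
      -(Complex.I * u) / w a b θ := by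
    rw [hu]
    congr 1
    ring
  have e2 : (-(Complex.I * u) / w a b θ).im =
      -(u.re * (1 + u.re) + u.im * u.im) / Complex.normSq (w a b θ) := by
    rw [hwu, Complex.div_im]
    simp only [Complex.neg_re, Complex.neg_im, Complex.mul_re, Complex.mul_im, Complex.I_re,
      Complex.I_im, Complex.add_re, Complex.add_im, Complex.one_re, Complex.one_im]
    ring
  rw [e1, e2]
  have e3 : Complex.normSq (w a b θ) = (1 + u.re) ^ 2 + u.im ^ 2 := by
    rw [hwu, Complex.normSq_apply]
    simp only [Complex.add_re, Complex.add_im, Complex.one_re, Complex.one_im]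
    ring
  have e4 : Complex.normSq u = u.re ^ 2 + u.im ^ 2 := by
    rw [Complex.normSq_apply]
    ring
  rw [← hnu]
  field_simp
  rw [e3, e4]
  ring

theorem lft_per (a b : ℂ) (θ : ℝ) : lft a b (θ + 2 * Real.pi) = lft a b θ + 2 * Real.pi := by
  have h : w a b (θ + 2 * Real.pi) = w a b θ := by
    unfold w
    congr 2
    have : -(((θ + 2 * Real.pi : ℝ) : ℂ) * Complex.I) =
        -((θ : ℂ) * Complex.I) - 2 * Real.pi * Complex.I := by push_cast; ring
    rw [this, Complex.exp_sub, Complex.exp_two_pi_mul_I, div_one]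
  unfold lft
  rw [h]
  ring

theorem lft_chord (h : ‖b‖ < ‖a‖) (θ η : ℝ) :
    Real.sin ((lft a b θ - lft a b η) / 2) ^ 2 =
      dlft a b θ * dlft a b η * Real.sin ((θ - η) / 2) ^ 2 := by
  have h1 := normSq_exp_sub (lft a b θ) (lft a b η)
  have h2 := normSq_exp_sub θ η
  have hθ := exp_lft h θ
  have hη := exp_lft h η
  set z := Complex.exp (θ * Complex.I) with hz
  set z' := Complex.exp (η * Complex.I) with hz'
  set Z := Complex.exp (lft a b θ * Complex.I) with hZ
  set Z' := Complex.exp (lft a b η * Complex.I) with hZ'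
  have dz := (normSq_den_pos h θ).ne'
  have dz' := (normSq_den_pos h η).ne'
  rw [← hz] at dz
  rw [← hz'] at dz'
  have key : (Z - Z') * ((conj b * z + conj a) * (conj b * z' + conj a)) =
      ((Complex.normSq a - Complex.normSq b : ℝ) : ℂ) * (z - z') := by
    have ea : (Complex.normSq a : ℂ) = a * conj a := (Complex.mul_conj a).symm
    have eb : (Complex.normSq b : ℂ) = b * conj b := (Complex.mul_conj b).symm
    push_cast
    rw [ea, eb]
    linear_combination (conj b * z' + conj a) * hθ - (conj b * z + conj a) * hη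
  have key2 := congrArg Complex.normSq key
  rw [Complex.normSq_mul, Complex.normSq_mul, Complex.normSq_mul, Complex.normSq_ofReal, h1, h2]
    at key2
  unfold dlft
  rw [← hz, ← hz']
  field_simp
  nlinarith [key2]

end P1

theorem exists_MLift (a b : ℂ) (h : ‖b‖ < ‖a‖) : ∃ L D : ℝ → ℝ, MLift L D ∧ ∀ θ : ℝ,
    Complex.exp (L θ * Complex.I) * (conj b * Complex.exp (θ * Complex.I) + conj a) =
      a * Complex.exp (θ * Complex.I) + b :=
  ⟨P1.lft a b, P1.dlft a b,
    ⟨P1.hasDerivAt_lft h, P1.dlft_pos h, P1.lft_per a b, P1.lft_chord h⟩, P1.exp_lft h⟩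

end Pool.Agent.OmegaStability
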