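import Pool.Agent.Work.MP_814647_an.Final
import Pool.Agent.Work.MP_814647_an.Metric
import Pool.Agent.Work.MP_814647_an.ProjP1
import Pool.Agent.Work.MP_814647_an.Bd.B02
import Pool.Agent.Work.MP_814647_an.ProjP8c
import Pool.Agent.Work.MP_814647_an.ProjP11

/-!
# Projective circle extensions of Anosov diffeomorphisms: the assembly
-/

open Set Filter Topology
open scoped Manifold ContDiff ComplexConjugate

noncomputable section

namespace Pool.Agent.OmegaStability

set_option linter.unusedSectionVars false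

namespace ProjAsm

open Function

/-! ### Real line -/

theorem MLift.add_const {L D : ℝ → ℝ} (h : MLift L D) (c : ℝ) : MLift (fun θ => L θ + c) D where
  deriv θ := (h.deriv θ).add_const c
  pos := h.pos
  per θ := by rw [h.per]; ring
  chord θ η := by
    have : L θ + c - (L η + c) = L θ - L η := by ring
    rw [this]
    exact h.chord θ η

theorem hasDerivAt_orb {L D : ℕ → ℝ → ℝ} (hL : ∀ j, MLift (L j) (D j)) (t : ℝ) (j : ℕ) (θ : ℝ) :
    HasDerivAt (orb L t j) (∏ i ∈ Finset.range j, D i (orb L t i θ)) θ := by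
  induction j with
  | zero =>
    simp only [Finset.range_zero, Finset.prod_empty]
    exact hasDerivAt_id θ
  | succ j ih =>
    rw [Finset.prod_range_succ, mul_comm]
    exact (((hL j).deriv (orb L t j θ)).comp θ ih).add_const t

/-! ### Circle -/

theorem exp_eq_of (θ : ℝ) : ((Circle.exp θ : Circle) : ℂ) = Complex.exp (θ * Complex.I) := rfl

theorem norm_exp_sub_one_sq (x : ℝ) :
    ‖((Circle.exp x : Circle) : ℂ) - 1‖ ^ 2 = 4 * Real.sin (x / 2) ^ 2 := by
  rw [exp_eq_of, ← Complex.normSq_eq_norm_sq, Complex.normSq_apply, Complex.exp_mul_I]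
  have h1 : (Complex.cos x + Complex.sin x * Complex.I - 1).re = Real.cos x - 1 := by
    simp [← Complex.ofReal_cos, ← Complex.ofReal_sin]
  have h2 : (Complex.cos x + Complex.sin x * Complex.I - 1).im = Real.sin x := by
    simp [← Complex.ofReal_cos, ← Complex.ofReal_sin]
  rw [h1, h2]
  have h3 : Real.cos x = 1 - 2 * Real.sin (x / 2) ^ 2 := by
    have := Real.cos_two_mul' (x / 2)
    have h4 := Real.cos_sq_add_sin_sq (x / 2)
    have h5 : 2 * (x / 2) = x := by ring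
    rw [h5] at this
    nlinarith
  have h4 := Real.sin_sq_add_cos_sq x
  nlinarith

/-! ### Frames -/

section Frames

variable {d : ℕ} {B M : Type*} [MetricSpace B] [CompactSpace B]
  [ChartedSpace (EuclideanSpace ℝ (Fin d)) B]
  [IsManifold 𝓘(ℝ, EuclideanSpace ℝ (Fin d)) ∞ B]
  [MetricSpace M] [CompactSpace M] [ChartedSpace (EuclideanSpace ℝ (Fin (d + 1))) M]
  [IsManifold 𝓘(ℝ, EuclideanSpace ℝ (Fin (d + 1))) ∞ M] [MulAction Circle M]

theorem proj_smul {π : M → B} (hb : IsCircleBundle d π) (z : Circle) (y : M) :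
    π (z • y) = π y := ((hb.fibre y (z • y)).2 ⟨z, rfl⟩).symm

theorem exists_exp {π : M → B} (hb : IsCircleBundle d π) {y y' : M} (h : π y = π y') :
    ∃ θ : ℝ, y' = Circle.exp θ • y := by
  obtain ⟨z, hz⟩ := (hb.fibre y y').1 h
  exact ⟨Complex.arg z, by rw [Circle.exp_arg, hz]⟩

theorem exists_frame {π : M → B} (hb : IsCircleBundle d π) (f : M → M) (A : B → B)
    (hcov : ∀ y, π (f y) = A (π y)) (hproj : FibrewiseProjective f) (e : B → M)
    (he : ∀ x, π (e x) = x) (x : B) :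
    ∃ L D : ℝ → ℝ, MLift L D ∧
      ∀ θ : ℝ, f (Circle.exp θ • e x) = Circle.exp (L θ) • e (A x) := by
  obtain ⟨a, b, hab, h⟩ := hproj (e x)
  obtain ⟨L, D, hL, hL'⟩ := exists_MLift a b hab
  obtain ⟨c, hc⟩ := exists_exp hb (y := e (A x)) (y' := f (e x)) (by rw [hcov, he, he])
  refine ⟨fun θ => L θ + c, D, MLift.add_const hL c, fun θ => ?_⟩
  obtain ⟨w, hw⟩ := (hb.fibre (f (e x)) (f (Circle.exp θ • e x))).1
    (by rw [hcov, hcov, proj_smul hb])
  have h1 := h (Circle.exp θ) w hw.symm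
  have h2 := hL' θ
  rw [exp_eq_of] at h1
  have h3 : conj b * Complex.exp (θ * Complex.I) + conj a ≠ 0 := by
    intro h0
    have h4 : conj b * Complex.exp (θ * Complex.I) = - conj a := eq_neg_of_add_eq_zero_left h0
    have h5 := congrArg norm h4
    rw [norm_mul, norm_neg, Complex.norm_exp_ofReal_mul_I, mul_one] at h5
    simp only [RCLike.norm_conj] at h5
    exact absurd h5 hab.ne
  have h6 : (w : ℂ) = Complex.exp (L θ * Complex.I) :=
    mul_right_cancel₀ h3 (h1.trans h2.symm)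
  have h7 : w = Circle.exp (L θ) := by
    apply Subtype.ext
    exact h6
  rw [← hw, h7, hc, smul_smul, ← Circle.exp_add]

/-- Frames and lifts for a fibrewise projective map. -/
structure Fr (π : M → B) (f : M → M) (A : B → B) (e : B → M) (Lx Dx : B → ℝ → ℝ) (Dm : M → ℝ) :
    Prop where
  sec : ∀ x, π (e x) = x
  lift : ∀ x, MLift (Lx x) (Dx x)
  map : ∀ x (θ : ℝ), f (Circle.exp θ • e x) = Circle.exp (Lx x θ) • e (A x)
  deriv : ∀ x (θ : ℝ), Dm (Circle.exp θ • e x) = Dx x θ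

theorem exp_add_int (θ : ℝ) (k : ℤ) : Circle.exp (θ + 2 * Real.pi * k) = Circle.exp θ := by
  have h : Circle.exp (2 * Real.pi * k) = 1 := by
    rw [Circle.exp_eq_one]
    exact ⟨k, by ring⟩
  rw [Circle.exp_add, h, mul_one]

variable {π : M → B} {f : M → M} {A : B → B} {e : B → M} {Lx Dx : B → ℝ → ℝ} {Dm : M → ℝ}

theorem Fr.iterate (F : Fr π f A e Lx Dx Dm) (t : ℝ) (x : B) (j : ℕ) (θ : ℝ) :
    (fun y => Circle.exp t • f y)^[j] (Circle.exp θ • e x) =
      Circle.exp (orb (fun i => Lx (A^[i] x)) t j θ) • e (A^[j] x) := by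
  induction j with
  | zero => rfl
  | succ j ih =>
    rw [iterate_succ_apply', ih, iterate_succ_apply' A]
    show Circle.exp t • f (Circle.exp (orb (fun i => Lx (A^[i] x)) t j θ) • e (A^[j] x)) = _
    rw [F.map, smul_smul, ← Circle.exp_add]
    show _ = Circle.exp (Lx (A^[j] x) (orb (fun i => Lx (A^[i] x)) t j θ) + t) • _
    rw [add_comm]

theorem Fr.iterate_zero (F : Fr π f A e Lx Dx Dm) (x : B) (j : ℕ) (θ : ℝ) :
    f^[j] (Circle.exp θ • e x) =
      Circle.exp (orb (fun i => Lx (A^[i] x)) 0 j θ) • e (A^[j] x) := by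
  have h := F.iterate 0 x j θ
  simpa using h

theorem Fr.exists_point (F : Fr π f A e Lx Dx Dm) (hb : IsCircleBundle d π) (y : M) :
    ∃ θ : ℝ, y = Circle.exp θ • e (π y) :=
  exists_exp hb (F.sec (π y))

theorem Fr.pos (F : Fr π f A e Lx Dx Dm) (hb : IsCircleBundle d π) (y : M) : 0 < Dm y := by
  obtain ⟨θ, hθ⟩ := F.exists_point hb y
  rw [hθ, F.deriv]
  exact (F.lift _).pos θ

theorem Fr.chord_sq (F : Fr π f A e Lx Dx Dm) (hb : IsCircleBundle d π) (y y' : M)
    (h : π y = π y') : chord (f y) (f y') ^ 2 = Dm y * Dm y' * chord y y' ^ 2 := by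
  obtain ⟨θ, hθ⟩ := F.exists_point hb y
  obtain ⟨η, hη⟩ := F.exists_point hb y'
  rw [← h] at hη
  set x := π y with hx
  have h1 : y' = Circle.exp (η - θ) • y := by
    rw [hθ, smul_smul, ← Circle.exp_add, sub_add_cancel, hη]
  have h2 : f y' = Circle.exp (Lx x η - Lx x θ) • f y := by
    rw [hθ, hη, F.map, F.map, smul_smul, ← Circle.exp_add, sub_add_cancel]
  have h3 : chord y y' = ‖((Circle.exp (η - θ) : Circle) : ℂ) - 1‖ := by
    rw [h1]; exact chord_smul hb.free _ _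
  have h4 : chord (f y) (f y') = ‖((Circle.exp (Lx x η - Lx x θ) : Circle) : ℂ) - 1‖ := by
    rw [h2]; exact chord_smul hb.free _ _
  rw [h3, h4, norm_exp_sub_one_sq, norm_exp_sub_one_sq, (F.lift x).chord, hθ, hη, F.deriv,
    F.deriv]
  ring

theorem iterate_periodic {A : B → B} {x : B} {n : ℕ} (hx : A^[n] x = x) (m j : ℕ) :
    A^[j + m * n] x = A^[j] x := by
  rw [iterate_add_apply]
  congr 1
  induction m with
  | zero => simp
  | succ m ih => rw [Nat.succ_mul, iterate_add_apply, hx, ih]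

/-- The conclusion of `contraction` for given constants. -/
def ContractionFor (τ Λ C κ : ℝ) : Prop :=
  ∀ (L D : ℕ → ℝ → ℝ) (N : ℕ), 0 < N →
      (∀ j, MLift (L j) (D j)) → (∀ j, L (j + N) = L j) → (∀ j θ, D j θ ≤ Λ) →
      ∀ k : ℤ, (∀ t, |t| ≤ τ → ∃ θ, orb L t N θ = θ + 2 * Real.pi * k) →
      ∃ a b : ℝ, orb L 0 N a = a + 2 * Real.pi * k ∧ orb L 0 N b = b + 2 * Real.pi * k ∧
        (∀ j l, ∏ i ∈ Finset.range l, D (j + i) (orb L 0 (j + i) a) ≤ C * κ ^ l) ∧
        (∀ j l, 1 ≤ C * κ ^ l * ∏ i ∈ Finset.range l, D (j + i) (orb L 0 (j + i) b))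

theorem Fr.exists_ab (F : Fr π f A e Lx Dx Dm) (hb : IsCircleBundle d π) {τ Λ C κ : ℝ}
    (hτ : 0 < τ) (hcontr : ContractionFor τ Λ C κ) (hΛ : ∀ y, Dm y ≤ Λ)
    (hdiff : ∀ (t : ℝ) (m : ℕ),
      MDifferentiable (𝓡 (d + 1)) (𝓡 (d + 1)) (fun y => Circle.exp t • f y)^[m])
    (hhyp : ∀ t, |t| ≤ τ → ∀ (y : M) (m : ℕ), 0 < m →
      (fun y => Circle.exp t • f y)^[m] y = y →
      (mfderiv (𝓡 (d + 1)) (𝓡 (d + 1)) (fun y => Circle.exp t • f y)^[m] y (gen d y) :
        EuclideanSpace ℝ (Fin (d + 1))) ≠ gen d y)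
    {x : B} (hx : x ∈ periodicPts A) :
    ∃ ya yb : M, π ya = x ∧ π yb = x ∧ ya ∈ periodicPts f ∧ yb ∈ periodicPts f ∧
      (∀ j l : ℕ, ∏ i ∈ Finset.range l, Dm (f^[j + i] ya) ≤ C * κ ^ l) ∧
      ∀ j l : ℕ, 1 ≤ C * κ ^ l * ∏ i ∈ Finset.range l, Dm (f^[j + i] yb) := by
  obtain ⟨n, hn, hxn⟩ := hx
  have hxn' : A^[n] x = x := hxn
  set L : ℕ → ℝ → ℝ := fun i => Lx (A^[i] x) with hLdef
  set D : ℕ → ℝ → ℝ := fun i => Dx (A^[i] x) with hDdef
  have hL : ∀ j, MLift (L j) (D j) := fun j => F.lift _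
  have hper : ∀ m j, L (j + m * n) = L j := by
    intro m j
    simp only [hLdef]
    rw [iterate_periodic hxn']
  have hiter0 : ∀ m, A^[m * n] x = x := by
    intro m
    have := iterate_periodic hxn' m 0
    simpa using this
  obtain ⟨m, hm, k, hk⟩ := closing L D n hn hL (fun j => by simpa using hper 1 j) τ hτ (by
    intro t ht m hm θ k hθ hprod
    have h1 : (fun y => Circle.exp t • f y)^[m * n] (Circle.exp θ • e x) =
        Circle.exp θ • e x := by
      rw [F.iterate t x (m * n) θ, hiter0]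
      show Circle.exp (orb L t (m * n) θ) • e x = _
      rw [hθ, exp_add_int]
    apply hhyp t ht (Circle.exp θ • e x) (m * n) (Nat.mul_pos hm hn) h1
    have h2 := mfderiv_lift hb (fun y => Circle.exp t • f y)^[m * n] (e x) (e (A^[m * n] x))
      (orb L t (m * n)) θ _ (hdiff t (m * n) _) (hasDerivAt_orb hL t (m * n) θ)
      (fun η => F.iterate t x (m * n) η)
    rw [hprod, one_smul] at h2
    refine h2.trans ?_
    have h3 : Circle.exp (orb L t (m * n) θ) • e (A^[m * n] x) = Circle.exp θ • e x := by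
      rw [hiter0, hθ, exp_add_int]
    exact congrArg (fun y : M => (gen d y : EuclideanSpace ℝ (Fin (d + 1)))) h3)
  obtain ⟨a, b, ha, hb', ha2, hb2⟩ := hcontr L D (m * n) (Nat.mul_pos hm hn) hL (hper m)
    (fun j θ => by
      have := hΛ (Circle.exp θ • e (A^[j] x))
      rwa [F.deriv] at this) k hk
  have hD : ∀ (θ : ℝ) (j : ℕ), Dm (f^[j] (Circle.exp θ • e x)) = D j (orb L 0 j θ) := by
    intro θ j
    rw [F.iterate_zero, F.deriv]
  have hpt : ∀ c : ℝ, orb L 0 (m * n) c = c + 2 * Real.pi * k →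
      Circle.exp c • e x ∈ periodicPts f := by
    intro c hc
    refine ⟨m * n, Nat.mul_pos hm hn, ?_⟩
    show f^[m * n] (Circle.exp c • e x) = _
    rw [F.iterate_zero, hiter0]
    show Circle.exp (orb L 0 (m * n) c) • e x = _
    rw [hc, exp_add_int]
  refine ⟨Circle.exp a • e x, Circle.exp b • e x, by rw [proj_smul hb, F.sec],
    by rw [proj_smul hb, F.sec], hpt a ha, hpt b hb', ?_, ?_⟩
  · intro j l
    simp only [hD]
    exact ha2 j l
  · intro j l
    simp only [hD]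
    exact hb2 j l

theorem rnorm_smul {E : Type*} [NormedAddCommGroup E] [NormedSpace ℝ E] [FiniteDimensional ℝ E]
    {M : Type*} [MetricSpace M] [ChartedSpace E M] [IsManifold 𝓘(ℝ, E) ∞ M]
    (γ : RMetric E M) (x : M) (v : TangentSpace 𝓘(ℝ, E) x) (c : ℝ) :
    rnorm γ x (c • v) = |c| * rnorm γ x v := by
  unfold rnorm
  simp only [map_smul, smul_apply, smul_eq_mul]
  rw [← mul_assoc, Real.sqrt_mul (mul_self_nonneg c), Real.sqrt_mul_self_eq_abs]

theorem rnorm_pos {E : Type*} [NormedAddCommGroup E] [NormedSpace ℝ E] [FiniteDimensional ℝ E]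
    {M : Type*} [MetricSpace M] [ChartedSpace E M] [IsManifold 𝓘(ℝ, E) ∞ M]
    (γ : RMetric E M) (x : M) (v : TangentSpace 𝓘(ℝ, E) x) (hv : v ≠ 0) :
    0 < rnorm γ x v :=
  Real.sqrt_pos.2 (γ.pos x v hv)

theorem exists_Fr (hb : IsCircleBundle d π) {r : ℕ∞} (hr : 1 ≤ r)
    (A : B → B) (f : Diffeo (EuclideanSpace ℝ (Fin (d + 1))) M r)
    (hcov : ∀ y, π (f y) = A (π y)) (hproj : FibrewiseProjective f) :
    ∃ (e : B → M) (Lx Dx : B → ℝ → ℝ) (Dm : M → ℝ), Fr π f A e Lx Dx Dm ∧ Continuous Dm ∧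
      ∀ y, mfderiv (𝓡 (d + 1)) (𝓡 (d + 1)) f y (gen d y) = Dm y • gen d (f y) := by
  have hsec : ∀ x, π (surjInv hb.surjective x) = x := surjInv_eq hb.surjective
  choose Lx Dx hML hmap using exists_frame hb f A hcov hproj (surjInv hb.surjective) hsec
  obtain ⟨γ⟩ := OmegaStab.exists_metric (d + 1) M
  have hfd : MDifferentiable (𝓡 (d + 1)) (𝓡 (d + 1)) f := OmegaStab.FinHyp.mdiff hr f
  have hder : ∀ x (θ : ℝ), mfderiv (𝓡 (d + 1)) (𝓡 (d + 1)) f
      (Circle.exp θ • surjInv hb.surjective x) (gen d (Circle.exp θ • surjInv hb.surjective x)) =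
      Dx x θ • gen d (Circle.exp (Lx x θ) • surjInv hb.surjective (A x)) := fun x θ =>
    mfderiv_lift hb f _ _ (Lx x) θ (Dx x θ) (hfd _) ((hML x).deriv θ) (hmap x)
  set Dm : M → ℝ := fun y => rnorm γ (f y) (mfderiv (𝓡 (d + 1)) (𝓡 (d + 1)) f y (gen d y)) /
    rnorm γ (f y) (gen d (f y)) with hDm
  have hgp : ∀ y : M, 0 < rnorm γ y (gen d y) := fun y => rnorm_pos γ y _ (gen_ne_zero hb y)
  have hkey : ∀ x (θ : ℝ), Dm (Circle.exp θ • surjInv hb.surjective x) = Dx x θ := by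
    intro x θ
    have h1 := hder x θ
    simp only [hDm]
    rw [div_eq_iff (hgp _).ne', h1]
    have h2 : rnorm γ (f (Circle.exp θ • surjInv hb.surjective x))
        (Dx x θ • gen d (Circle.exp (Lx x θ) • surjInv hb.surjective (A x))) =
        |Dx x θ| * rnorm γ (f (Circle.exp θ • surjInv hb.surjective x))
        (gen d (Circle.exp (Lx x θ) • surjInv hb.surjective (A x))) := rnorm_smul _ _ _ _
    refine h2.trans ?_
    rw [abs_of_pos ((hML x).pos θ)]
    congr 1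
    have h3 := hmap x θ
    exact congrArg (fun y : M => rnorm γ (f (Circle.exp θ • surjInv hb.surjective x))
      (gen d y : EuclideanSpace ℝ (Fin (d + 1)))) h3.symm
  refine ⟨surjInv hb.surjective, Lx, Dx, Dm, ⟨hsec, hML, hmap, hkey⟩, ?_, ?_⟩
  · have h1 : Continuous fun y : M =>
        rnorm γ (f y) (mfderiv (𝓡 (d + 1)) (𝓡 (d + 1)) f y (gen d y)) :=
      (continuous_rnorm γ).comp ((f.contMDiff.continuous_tangentMap
        (by exact_mod_cast hr)).comp (continuous_gen hb))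
    have h2 : Continuous fun y : M => rnorm γ (f y) (gen d (f y)) :=
      ((continuous_rnorm γ).comp (continuous_gen hb)).comp f.continuous
    exact h1.div h2 fun y => (hgp _).ne'
  · intro y
    obtain ⟨θ, hθ⟩ := exists_exp hb (hsec (π y))
    have h1 := hder (π y) θ
    have h2 : Dm y = Dx (π y) θ := by
      conv_lhs => rw [hθ]
      exact hkey _ _
    rw [h2]
    have h3 : f y = Circle.exp (Lx (π y) θ) • surjInv hb.surjective (A (π y)) := by
      conv_lhs => rw [hθ]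
      exact hmap _ _
    have h4 : (mfderiv (𝓡 (d + 1)) (𝓡 (d + 1)) f y (gen d y) :
        EuclideanSpace ℝ (Fin (d + 1))) = mfderiv (𝓡 (d + 1)) (𝓡 (d + 1)) f
      (Circle.exp θ • surjInv hb.surjective (π y))
      (gen d (Circle.exp θ • surjInv hb.surjective (π y))) :=
      congrArg (fun y : M => (mfderiv (𝓡 (d + 1)) (𝓡 (d + 1)) f y (gen d y) :
        EuclideanSpace ℝ (Fin (d + 1)))) hθ
    refine h4.trans (h1.trans ?_)
    exact congrArg (fun y' : M => (Dx (π y) θ • gen d y' : EuclideanSpace ℝ (Fin (d + 1)))) h3.symm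

/-! ### Inverse maps -/

theorem symm_iterate_apply {X : Type*} {f f' : X → X} (h1 : ∀ x, f' (f x) = x)
    (n m : ℕ) (x : X) : f'^[n] (f^[n + m] x) = f^[m] x := by
  induction n with
  | zero => simp
  | succ n ih =>
    rw [iterate_succ_apply, show n + 1 + m = (n + m) + 1 by ring, iterate_succ_apply' f, h1, ih]

theorem iterate_symm_apply {X : Type*} {f f' : X → X} (h2 : ∀ x, f (f' x) = x)
    (n m : ℕ) (x : X) : f^[n] (f'^[n + m] x) = f'^[m] x :=
  symm_iterate_apply h2 n m x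

theorem periodic_symm {X : Type*} {f f' : X → X} (h1 : ∀ x, f' (f x) = x) {x : X}
    (hx : x ∈ periodicPts f) : x ∈ periodicPts f' := by
  obtain ⟨n, hn, hxn⟩ := hx
  refine ⟨n, hn, ?_⟩
  have h := symm_iterate_apply h1 n 0 x
  have hxn' : f^[n] x = x := hxn
  rw [Nat.add_zero, hxn'] at h
  exact h

theorem exists_symm_iterate {X : Type*} {f f' : X → X} (h1 : ∀ x, f' (f x) = x) {x : X}
    (hx : x ∈ periodicPts f) (q : ℕ) : ∃ p, f'^[q] x = f^[p] x := by
  obtain ⟨n, hn, hxn⟩ := hx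
  have hxn' : f^[q * n] x = x := by
    have h3 : f^[n] x = x := hxn
    rw [mul_comm, iterate_mul]
    exact iterate_fixed h3 q
  have hle : q ≤ q * n := Nat.le_mul_of_pos_right q hn
  refine ⟨q * n - q, ?_⟩
  have h := symm_iterate_apply h1 q (q * n - q) x
  rw [Nat.add_sub_cancel' hle, hxn'] at h
  exact h

theorem prod_inverse {X : Type*} {f f' : X → X} (h2 : ∀ x, f (f' x) = x) (D : X → ℝ)
    (y : X) (j l : ℕ) :
    ∏ i ∈ Finset.range l, (D (f' (f'^[j + i] y)))⁻¹ =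
      (∏ i ∈ Finset.range l, D (f^[i] (f'^[j + l] y)))⁻¹ := by
  rw [Finset.prod_inv_distrib, ← Finset.prod_range_reflect (fun i => D (f' (f'^[j + i] y)))]
  congr 1
  apply Finset.prod_congr rfl
  intro i hi
  rw [Finset.mem_range] at hi
  congr 1
  rw [← iterate_succ_apply' f', ← iterate_symm_apply h2 i]
  congr 2
  omega

theorem prod_le_of {C κ P : ℝ} (hP : 0 < P) {l : ℕ} (h : 1 ≤ C * κ ^ l * P) :
    P⁻¹ ≤ C * κ ^ l := by
  rw [inv_le_iff_one_le_mul₀ hP]
  linarith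

theorem inverse_gen {r : ℕ∞} (hr : 1 ≤ r) (f : Diffeo (EuclideanSpace ℝ (Fin (d + 1))) M r)
    (z : M) {c : ℝ} (hc : 0 < c)
    (h : mfderiv (𝓡 (d + 1)) (𝓡 (d + 1)) f z (gen d z) = c • gen d (f z)) :
    mfderiv (𝓡 (d + 1)) (𝓡 (d + 1)) f.symm (f z) (gen d (f z)) = c⁻¹ • gen d z := by
  have h1 : mfderiv (𝓡 (d + 1)) (𝓡 (d + 1)) (f.symm ∘ f) z =
      (mfderiv (𝓡 (d + 1)) (𝓡 (d + 1)) f.symm (f z)).comp
        (mfderiv (𝓡 (d + 1)) (𝓡 (d + 1)) f z) :=
    mfderiv_comp z (OmegaStab.FinHyp.mdiff_symm hr f _) (OmegaStab.FinHyp.mdiff hr f _)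
  have h2 : f.symm ∘ f = id := by
    funext y
    exact f.symm_apply_apply y
  rw [h2, mfderiv_id] at h1
  have h3 := congrArg (fun T : EuclideanSpace ℝ (Fin (d + 1)) →L[ℝ] EuclideanSpace ℝ (Fin (d + 1))
    => T (gen d z)) h1
  have h4 : (gen d z : EuclideanSpace ℝ (Fin (d + 1))) =
      mfderiv (𝓡 (d + 1)) (𝓡 (d + 1)) f.symm (f z)
        (mfderiv (𝓡 (d + 1)) (𝓡 (d + 1)) f z (gen d z)) := h3
  rw [h, map_smul] at h4
  have h5 : ∀ a w : EuclideanSpace ℝ (Fin (d + 1)), a = c • w → w = c⁻¹ • a := by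
    intro a w haw
    rw [haw, smul_smul, inv_mul_cancel₀ hc.ne', one_smul]
  exact h5 _ _ h4

theorem closure_periodic_subset_Omega {X : Type*} [TopologicalSpace X] (f : X → X) :
    closure (periodicPts f) ⊆ Omega f := by
  intro x hx U hU
  obtain ⟨V, hVU, hV, hxV⟩ := mem_nhds_iff.1 hU
  obtain ⟨y, hyV, n, hn, hy⟩ := mem_closure_iff.1 hx V hV hxV
  have hy' : f^[n] y = y := hy
  exact ⟨n, hn, y, ⟨y, hVU hyV, hy'⟩, hVU hyV⟩

/-- The Lyapunov inequality for the chords to the two sections. -/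
theorem pair_ineq {f : M → M} {Dm : M → ℝ} (hD : ∀ y, 0 < Dm y)
    {C κ : ℝ} (hC : 0 < C) (hκ : 0 < κ) {gm gp : M → ℝ} (hm0 : ∀ y, 0 ≤ gm y)
    (hp0 : ∀ y, 0 ≤ gp y) {sm sp : M → M}
    (hm : ∀ y, gm (f y) ^ 2 = Dm y * Dm (sm y) * gm y ^ 2)
    (hp : ∀ y, gp (f y) ^ 2 = Dm y * Dm (sp y) * gp y ^ 2)
    (hsm : ∀ y, sm (f y) = f (sm y)) (hsp : ∀ y, sp (f y) = f (sp y))
    (hm2 : ∀ y (l : ℕ), ∏ i ∈ Finset.range l, Dm (f^[i] (sm y)) ≤ C * κ ^ l)
    (hp2 : ∀ y (l : ℕ), (∏ i ∈ Finset.range l, Dm (f^[i] (sp y)))⁻¹ ≤ C * κ ^ l)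
    (y : M) (n : ℕ) : gm (f^[n] y) * gp y ≤ C * κ ^ n * (gp (f^[n] y) * gm y) := by
  have hitm : ∀ n, sm (f^[n] y) = f^[n] (sm y) := by
    intro n
    induction n with
    | zero => rfl
    | succ n ih => rw [iterate_succ_apply', iterate_succ_apply', hsm, ih]
  have hitp : ∀ n, sp (f^[n] y) = f^[n] (sp y) := by
    intro n
    induction n with
    | zero => rfl
    | succ n ih => rw [iterate_succ_apply', iterate_succ_apply', hsp, ih]
  have h1 : ∀ n, gm (f^[n] y) ^ 2 = (∏ i ∈ Finset.range n, Dm (f^[i] y)) *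
      (∏ i ∈ Finset.range n, Dm (f^[i] (sm y))) * gm y ^ 2 := by
    intro n
    induction n with
    | zero => simp
    | succ n ih =>
      rw [iterate_succ_apply', hm, ih, Finset.prod_range_succ, Finset.prod_range_succ, hitm]
      ring
  have h2 : ∀ n, gp (f^[n] y) ^ 2 = (∏ i ∈ Finset.range n, Dm (f^[i] y)) *
      (∏ i ∈ Finset.range n, Dm (f^[i] (sp y))) * gp y ^ 2 := by
    intro n
    induction n with
    | zero => simp
    | succ n ih =>
      rw [iterate_succ_apply', hp, ih, Finset.prod_range_succ, Finset.prod_range_succ, hitp]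
      ring
  set P := ∏ i ∈ Finset.range n, Dm (f^[i] y) with hP
  set Q := ∏ i ∈ Finset.range n, Dm (f^[i] (sm y)) with hQ
  set R := ∏ i ∈ Finset.range n, Dm (f^[i] (sp y)) with hR
  have hP0 : 0 < P := Finset.prod_pos fun i _ => hD _
  have hQ0 : 0 < Q := Finset.prod_pos fun i _ => hD _
  have hR0 : 0 < R := Finset.prod_pos fun i _ => hD _
  have hQle : Q ≤ C * κ ^ n := hm2 y n
  have hRle : R⁻¹ ≤ C * κ ^ n := hp2 y n
  have hR1 : 1 ≤ C * κ ^ n * R := by
    have := mul_le_mul_of_nonneg_right hRle hR0.le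
    rwa [inv_mul_cancel₀ hR0.ne'] at this
  have hK : 0 < C * κ ^ n := by positivity
  have ha : 0 ≤ gm (f^[n] y) * gp y := mul_nonneg (hm0 _) (hp0 _)
  have hb' : 0 ≤ C * κ ^ n * (gp (f^[n] y) * gm y) :=
    mul_nonneg hK.le (mul_nonneg (hp0 _) (hm0 _))
  apply (pow_le_pow_iff_left₀ ha hb' two_ne_zero).1
  rw [mul_pow (gm (f^[n] y)), mul_pow (C * κ ^ n), mul_pow (gp (f^[n] y)), h1, h2, ← hP, ← hQ,
    ← hR]
  have h3 : 0 ≤ P * (gm y ^ 2 * gp y ^ 2) := by positivity
  calc P * Q * gm y ^ 2 * gp y ^ 2 = Q * (P * (gm y ^ 2 * gp y ^ 2)) := by ring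
    _ ≤ (C * κ ^ n) * (P * (gm y ^ 2 * gp y ^ 2)) := by gcongr
    _ = (C * κ ^ n) * 1 * (P * (gm y ^ 2 * gp y ^ 2)) := by ring
    _ ≤ (C * κ ^ n) * (C * κ ^ n * R) * (P * (gm y ^ 2 * gp y ^ 2)) := by gcongr
    _ = (C * κ ^ n) ^ 2 * (P * R * gp y ^ 2 * gm y ^ 2) := by ring

end Frames

end ProjAsm

open ProjAsm Function

theorem proj_main {d : ℕ} {B M : Type*} [MetricSpace B] [CompactSpace B]
    [ChartedSpace (EuclideanSpace ℝ (Fin d)) B]
    [IsManifold 𝓘(ℝ, EuclideanSpace ℝ (Fin d)) ∞ B]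
    [MetricSpace M] [CompactSpace M] [ChartedSpace (EuclideanSpace ℝ (Fin (d + 1))) M]
    [IsManifold 𝓘(ℝ, EuclideanSpace ℝ (Fin (d + 1))) ∞ M] [MulAction Circle M]
    {π : M → B} (hb : IsCircleBundle d π) {r : ℕ∞} (hr : 1 ≤ r)
    (A : Diffeo (EuclideanSpace ℝ (Fin d)) B r) (hA : IsTransitiveAnosov A)
    (f : Diffeo (EuclideanSpace ℝ (Fin (d + 1))) M r) (hcov : ∀ y, π (f y) = A (π y))
    (hproj : FibrewiseProjective f) (hst : OmegaStable f) :
    SatisfiesAxiomA f ∧ HasNoCycles f := by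
  obtain ⟨e, Lx, Dx, Dm, F, hDc, hDf⟩ := exists_Fr hb hr A f hcov hproj
  have hD0 : ∀ y, 0 < Dm y := F.pos hb
  have hact : Continuous fun p : Circle × M => p.1 • p.2 := hb.smooth_action.continuous
  have hπc : Continuous π := hb.smooth_proj.continuous
  -- the neighbourhood
  have hst' : OmegaStab.OmegaStable f := hst
  obtain ⟨N, hN, hfN, hNconj⟩ := hst'
  have hconj : OmegaStab.ConjClass N := OmegaStab.conjClass_of_conj hNconj
  have hhyp := OmegaStab.hypAt_of_conjClass hr hN hconj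
  obtain ⟨h, hfam, hh⟩ := exists_rot hb r
  have hev : ∀ᶠ t in 𝓝 (0 : ℝ), f.trans (h t) ∈ N := by
    let _ := OmegaStab.crTopology (d + 1) M r
    exact (hfam.tendsto f).eventually (IsOpen.mem_nhds hN hfN)
  obtain ⟨ε, hε, hball⟩ := Metric.eventually_nhds_iff.1 hev
  have hfun : ∀ t, ⇑(f.trans (h t)) = fun y => Circle.exp t • f y := by
    intro t
    funext y
    exact hh t (f y)
  obtain ⟨τ, hτ, hτ1, hτN⟩ : ∃ τ : ℝ, 0 < τ ∧ τ ≤ 1 ∧ ∀ t, |t| ≤ τ → f.trans (h t) ∈ N := by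
    refine ⟨min 1 (ε / 2), by positivity, min_le_left _ _, fun t ht => hball ?_⟩
    rw [Real.dist_eq, sub_zero]
    exact (ht.trans (min_le_right _ _)).trans_lt (by linarith)
  obtain ⟨Λ, hΛ1, hΛ⟩ : ∃ Λ : ℝ, 1 ≤ Λ ∧ ∀ y, Dm y ≤ Λ := by
    obtain ⟨K, hK⟩ := (isCompact_range hDc).bddAbove
    exact ⟨max 1 K, le_max_left _ _, fun y => (hK ⟨y, rfl⟩).trans (le_max_right _ _)⟩
  obtain ⟨C, κ, hC, hκ0, hκ1, hcontr⟩ := contraction τ Λ hτ hτ1 hΛ1
  have hab : ∀ x ∈ periodicPts A, ∃ ya yb : M, π ya = x ∧ π yb = x ∧ ya ∈ periodicPts f ∧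
      yb ∈ periodicPts f ∧
      (∀ j l : ℕ, ∏ i ∈ Finset.range l, Dm (f^[j + i] ya) ≤ C * κ ^ l) ∧
      ∀ j l : ℕ, 1 ≤ C * κ ^ l * ∏ i ∈ Finset.range l, Dm (f^[j + i] yb) := by
    intro x hx
    refine F.exists_ab hb hτ hcontr hΛ ?_ ?_ hx
    · intro t m
      rw [← hfun t]
      exact OmegaStab.FinHyp.mdiff_iter (OmegaStab.FinHyp.mdiff hr (f.trans (h t))) m
    · intro t ht y m hm hy heq
      rw [← hfun t] at hy heq
      have h1 := hhyp _ (hτN t ht) y ⟨m, hm, hy⟩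
      exact gen_ne_zero hb y (mfderiv_ne_self_of_hypAt hr _ y h1 m hm hy _ heq)
  -- the two sections
  obtain ⟨σm, hσmc, hσm, hσmf, hσm2, hσmcl⟩ := exists_section π hπc hb.surjective hact hb.free
    hb.fibre A.toHomeomorph f.toHomeomorph hcov Dm hDc hD0 (F.chord_sq hb) hA.2 C κ hκ0 hκ1
    (fun x hx => by
      obtain ⟨ya, yb, h1, h2, h3, h4, h5, h6⟩ := hab x hx
      exact ⟨ya, h1, h3, h5⟩)
  have hff' : ∀ y, f (f.symm y) = y := f.apply_symm_apply
  have hf'f : ∀ y, f.symm (f y) = y := f.symm_apply_apply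
  have hAA' : ∀ y, A (A.symm y) = y := A.apply_symm_apply
  have hA'A : ∀ y, A.symm (A y) = y := A.symm_apply_apply
  have hcov' : ∀ y, π (f.symm y) = A.symm (π y) := by
    intro y
    rw [← hA'A (π (f.symm y)), ← hcov, hff']
  obtain ⟨σp, hσpc, hσp, hσpf, hσp2, hσpcl⟩ := exists_section π hπc hb.surjective hact hb.free
    hb.fibre A.symm.toHomeomorph f.symm.toHomeomorph hcov' (fun y => (Dm (f.symm y))⁻¹)
    ((hDc.comp f.symm.continuous).inv₀ fun y => (hD0 _).ne') (fun y => inv_pos.2 (hD0 _))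
    (fun y y' hyy => by
      have h1 := F.chord_sq hb (f.symm y) (f.symm y') (by rw [hcov', hcov', hyy])
      rw [hff', hff'] at h1
      have h2 := hD0 (f.symm y)
      have h3 := hD0 (f.symm y')
      show chord (f.symm y) (f.symm y') ^ 2 = _
      rw [h1]
      field_simp) (by
      have h1 : periodicPts A.symm.toHomeomorph = periodicPts A := by
        ext x
        exact ⟨fun hx => periodic_symm (f := A.symm) (f' := A) hAA' hx,
          fun hx => periodic_symm (f := A) (f' := A.symm) hA'A hx⟩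
      rw [h1]
      exact hA.2) C κ hκ0 hκ1
    (fun x hx => by
      obtain ⟨ya, yb, h1, h2, h3, h4, h5, h6⟩ := hab x
        (periodic_symm (f := A.symm) (f' := A) hAA' hx)
      refine ⟨yb, h2, periodic_symm (f := f) (f' := f.symm) hf'f h4, fun j l => ?_⟩
      obtain ⟨p, hp⟩ := exists_symm_iterate (f := f) (f' := f.symm) hf'f h4 (j + l)
      have h7 := prod_inverse (f := f) (f' := f.symm) hff' Dm yb j l
      show ∏ i ∈ Finset.range l, (Dm (f.symm (f.symm^[j + i] yb)))⁻¹ ≤ C * κ ^ l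
      rw [h7, hp]
      refine prod_le_of (Finset.prod_pos fun i _ => hD0 _) ?_
      have h8 := h6 p l
      refine h8.trans (le_of_eq ?_)
      congr 1
      apply Finset.prod_congr rfl
      intro i _
      rw [← iterate_add_apply, Nat.add_comm p i])
  -- chords to the sections
  set gm : M → ℝ := fun y => chord y (σm (π y)) with hgm
  set gp : M → ℝ := fun y => chord y (σp (π y)) with hgp
  have hgm0 : ∀ y, 0 ≤ gm y := fun y => by
    simp only [hgm, chord]
    split_ifs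
    · exact norm_nonneg _
    · exact le_rfl
  have hgp0 : ∀ y, 0 ≤ gp y := fun y => by
    simp only [hgp, chord]
    split_ifs
    · exact norm_nonneg _
    · exact le_rfl
  have hfm : ∀ y, ∃ z : Circle, z • y = σm (π y) := fun y =>
    (hb.fibre _ _).1 (hσm (π y)).symm
  have hfp : ∀ y, ∃ z : Circle, z • y = σp (π y) := fun y =>
    (hb.fibre _ _).1 (hσp (π y)).symm
  have hgmc : Continuous gm :=
    continuous_chord hact hb.free _ _ continuous_id (hσmc.comp hπc) hfm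
  have hgpc : Continuous gp :=
    continuous_chord hact hb.free _ _ continuous_id (hσpc.comp hπc) hfp
  have hzero : ∀ y y' : M, (∃ z : Circle, z • y = y') → (chord y y' = 0 ↔ y' = y) := by
    rintro y _ ⟨z, rfl⟩
    rw [chord_smul hb.free, norm_eq_zero, sub_eq_zero]
    constructor
    · intro h1
      have : z = 1 := by
        apply Subtype.ext
        exact h1
      rw [this, one_smul]
    · intro h1
      rw [hb.free z y h1]
      rfl
  have hgmz : ∀ y, gm y = 0 ↔ σm (π y) = y := fun y => hzero _ _ (hfm y)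
  have hgpz : ∀ y, gp y = 0 ↔ σp (π y) = y := fun y => hzero _ _ (hfp y)
  have hσmf' : ∀ x, σm (A x) = f (σm x) := hσmf
  have hσpf' : ∀ x, σp (A x) = f (σp x) := by
    intro x
    have h1 : σp (A.symm (A x)) = f.symm (σp (A x)) := hσpf (A x)
    rw [hA'A] at h1
    rw [h1, hff']
  have hsm : ∀ y, gm (f y) ^ 2 = Dm y * Dm (σm (π y)) * gm y ^ 2 := by
    intro y
    have h1 := F.chord_sq hb y (σm (π y)) (hσm (π y)).symm
    simp only [hgm]
    rw [hcov, hσmf', h1]
  have hsp : ∀ y, gp (f y) ^ 2 = Dm y * Dm (σp (π y)) * gp y ^ 2 := by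
    intro y
    have h1 := F.chord_sq hb y (σp (π y)) (hσp (π y)).symm
    simp only [hgp]
    rw [hcov, hσpf', h1]
  have hσp3 : ∀ y (l : ℕ), (∏ i ∈ Finset.range l, Dm (f^[i] (σp (π y))))⁻¹ ≤ C * κ ^ l := by
    intro y l
    have hit : ∀ l x, f^[l] (σp x) = σp (A^[l] x) := by
      intro l
      induction l with
      | zero => intro x; rfl
      | succ l ih => intro x; rw [iterate_succ_apply, iterate_succ_apply, ← hσpf', ih]
    have h1 := hσp2 (A^[l] (π y)) l
    have h2 := prod_inverse (f := f) (f' := f.symm) hff' Dm (σp (A^[l] (π y))) 0 l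
    have h3 : ∏ i ∈ Finset.range l, (Dm (f.symm (f.symm^[0 + i] (σp (A^[l] (π y))))))⁻¹ ≤
        C * κ ^ l := by
      simpa using h1
    rw [h2, zero_add] at h3
    have h4 : f.symm^[l] (σp (A^[l] (π y))) = σp (π y) := by
      rw [← hit]
      exact symm_iterate_apply hf'f l 0 _
    rwa [h4] at h3
  have hineq := pair_ineq (f := f) hD0 hC hκ0 hgm0 hgp0 (sm := fun y => σm (π y))
    (sp := fun y => σp (π y)) hsm hsp (fun y => by rw [hcov, hσmf']) (fun y => by rw [hcov, hσpf'])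
    (fun y l => hσm2 (π y) l) hσp3
  -- disjointness
  have hdisj : ∀ y, gm y = 0 → gp y ≠ 0 := by
    intro y h1 h2
    rw [hgmz] at h1
    rw [hgpz] at h2
    have h3 : ∀ l : ℕ, (1 : ℝ) ≤ C * κ ^ l * (C * κ ^ l) := by
      intro l
      have h4 := hσm2 (π y) l
      have h5 := hσp3 y l
      rw [h2] at h5
      rw [h1] at h4
      have h6 : 0 < ∏ i ∈ Finset.range l, Dm (f^[i] y) := Finset.prod_pos fun i _ => hD0 _
      have h4' : ∏ i ∈ Finset.range l, Dm (f^[i] y) ≤ C * κ ^ l := h4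
      calc (1 : ℝ) = (∏ i ∈ Finset.range l, Dm (f^[i] y)) *
            (∏ i ∈ Finset.range l, Dm (f^[i] y))⁻¹ := (mul_inv_cancel₀ h6.ne').symm
        _ ≤ _ := mul_le_mul h4' h5 (inv_pos.2 h6).le (by positivity)
    have h4 : Tendsto (fun l : ℕ => C * κ ^ l * (C * κ ^ l)) atTop (𝓝 (C * 0 * (C * 0))) := by
      have := tendsto_pow_atTop_nhds_zero_of_lt_one hκ0.le hκ1
      exact (this.const_mul C).mul (this.const_mul C)
    have h5 := ge_of_tendsto' h4 h3
    norm_num at h5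
  have hgmf : ∀ y, gm (f y) = 0 ↔ gm y = 0 := by
    intro y
    rw [hgmz, hgmz, hcov, hσmf']
    exact f.injective.eq_iff
  have hgpf : ∀ y, gp (f y) = 0 ↔ gp y = 0 := by
    intro y
    rw [hgpz, hgpz, hcov, hσpf']
    exact f.injective.eq_iff
  have hsub : Omega f ⊆ {y | gm y = 0} ∪ {y | gp y = 0} :=
    omega_subset_of_pair f.toHomeomorph gm gp hgmc hgpc hgm0 hgp0 C κ hC hκ0 hκ1 hineq
  have hperm : {y | gm y = 0} ∪ {y | gp y = 0} ⊆ closure (periodicPts f) := by
    rintro y (hy | hy)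
    · have h1 := (hgmz y).1 hy
      rw [← h1]
      exact hσmcl _
    · have h1 := (hgpz y).1 hy
      rw [← h1]
      have h2 : periodicPts f.symm.toHomeomorph = periodicPts f := by
        ext x
        exact ⟨fun hx => periodic_symm (f := f.symm) (f' := f) hff' hx,
          fun hx => periodic_symm (f := f) (f' := f.symm) hf'f hx⟩
      rw [← h2]
      exact hσpcl _
  have hsup : {y | gm y = 0} ∪ {y | gp y = 0} ⊆ Omega f :=
    hperm.trans (closure_periodic_subset_Omega f)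
  refine ⟨⟨?_, hsub.trans hperm⟩, ?_⟩
  · rw [hsub.antisymm hsup]
    obtain ⟨γB, EsB, EuB, cB, μB, hAB⟩ := hypEst_of_structure hr A hA.1
    obtain ⟨γ⟩ := OmegaStab.exists_metric (d + 1) M
    obtain ⟨Es₁, Eu₁, c₁, μ₁, h₁⟩ := exists_hypEst hb hr A f hcov γB hAB γ Dm hD0 hDf
      {y | gm y = 0} hgmf C κ hC hκ0 hκ1 (fun y hy l => by
        have h1 := (hgmz y).1 hy
        have h2 := hσm2 (π y) l
        rwa [h1] at h2)
    have hAB' : HypEst A.symm A.symm.symm γB univ EuB EsB cB μB :=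
      ⟨hAB.c_pos, hAB.mu_pos, hAB.mu_lt, fun x hx => (hAB.compl x hx).symm, hAB.inv_u', hAB.inv_u,
        hAB.inv_s', hAB.inv_s, hAB.contr_u, hAB.contr_s⟩
    obtain ⟨Eu₂, Es₂, c₂, μ₂, h₂⟩ := exists_hypEst hb hr A.symm f.symm hcov' γB hAB' γ
      (fun y => (Dm (f.symm y))⁻¹) (fun y => inv_pos.2 (hD0 _)) (fun y => by
        obtain ⟨z, rfl⟩ := f.surjective y
        have h1 := inverse_gen hr f z (hD0 z) (hDf z)
        refine h1.trans ?_
        exact congrArg (fun w : M => ((Dm w)⁻¹ • gen d w : EuclideanSpace ℝ (Fin (d + 1))))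
          (hf'f z).symm)
      {y | gp y = 0} (fun y => by
        have h1 := hgpf (f.symm y)
        rw [hff'] at h1
        exact h1.symm) C κ hC hκ0 hκ1 (fun y hy l => by
        have h1 := (hgpz y).1 hy
        have h2 := hσp2 (π y) l
        rwa [h1] at h2)
    have h₂' : HypEst f f.symm γ {y | gp y = 0} Es₂ Eu₂ c₂ μ₂ :=
      ⟨h₂.c_pos, h₂.mu_pos, h₂.mu_lt, fun x hx => (h₂.compl x hx).symm, h₂.inv_u', h₂.inv_u,
        h₂.inv_s', h₂.inv_s, h₂.contr_u, h₂.contr_s⟩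
    refine hyperbolicStructure_union hr f h₁ h₂' (isClosed_eq hgmc continuous_const)
      (isClosed_eq hgpc continuous_const) ?_ hgmf hgpf
    rw [Set.disjoint_left]
    exact hdisj
  · exact noCycle_of_pair f.toHomeomorph gm gp hgmc hgpc hgm0 hgp0 hdisj hgmf hgpf C κ hC hκ0 hκ1
      hineq hsup

end Pool.Agent.OmegaStability
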