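import Pool.Agent.Work.MP_814647_an.Bd.B07

/-!
# Density of the periodic points of Omega-stable circle extensions

Let `M` be a closed manifold with a smooth free circle action, `f` a `C^r` diffeomorphism of `M`
(`1 ≤ r ≤ ∞`) which sends circle orbits to circle orbits and preserves their orientation, and
suppose that the map induced by `f` on the orbit space has the closing property. If `f` is `C^r`
Omega-stable then its periodic points are dense in its nonwandering set.
-/

open Set Filter Topology
open scoped Manifold ContDiff

namespace Pool.Agent.Results.MP_814647_an.PeriodicDensity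

open Pool.Agent.OmegaStability

theorem result {m : ℕ} {B M : Type*} [MetricSpace B] [MetricSpace M] [CompactSpace M]
    [ChartedSpace (EuclideanSpace ℝ (Fin m)) M]
    [IsManifold 𝓘(ℝ, EuclideanSpace ℝ (Fin m)) ∞ M] [MulAction Circle M]
    {π : M → B} (hπ : FreeCircleAction (EuclideanSpace ℝ (Fin m)) π)
    {r : ℕ∞} (hr : 1 ≤ r) {A : B → B} (hA : ClosingProperty A)
    (f : Diffeo (EuclideanSpace ℝ (Fin m)) M r) (hcov : ∀ y, π (f y) = A (π y))
    (hf : PreservesOrientedCircles f) (hst : OmegaStable f) :
    Omega f ⊆ closure (Function.periodicPts f) :=
  Dens.dense_main hπ hr hA f hcov hf hst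

end Pool.Agent.Results.MP_814647_an.PeriodicDensity
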