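import Pool.Agent.Work.MP_814647_an.ProjMain
import Pool.Agent.Work.MP_814647_an.ProjStatement

/-!
# The converse of the Omega-stability theorem for projective extensions of Anosov diffeomorphisms

Let `π : M → B` be a smooth principal circle bundle over a closed manifold, `A` a `C^r` Anosov
diffeomorphism of `B` with dense periodic points (`1 ≤ r ≤ ∞`), and `f` a `C^r` diffeomorphism of
`M` which covers `A` and acts on the circle fibres by projective maps. If `f` is `C^r`
Omega-stable then it satisfies Axiom A and the no-cycle property.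
-/

open Set Filter Topology
open scoped Manifold ContDiff

namespace Pool.Agent.Work.MP_814647_an.ProjectiveExtensionsOld

open Pool.Agent.OmegaStability

theorem result {d m : ℕ} (hm : m = d + 1) {B M : Type*} [MetricSpace B] [CompactSpace B]
    [ChartedSpace (EuclideanSpace ℝ (Fin d)) B]
    [IsManifold 𝓘(ℝ, EuclideanSpace ℝ (Fin d)) ∞ B]
    [MetricSpace M] [CompactSpace M] [ChartedSpace (EuclideanSpace ℝ (Fin m)) M]
    [IsManifold 𝓘(ℝ, EuclideanSpace ℝ (Fin m)) ∞ M] [MulAction Circle M]
    {r : ℕ∞} (hr : 1 ≤ r) {π : M → B}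
    {A : Diffeo (EuclideanSpace ℝ (Fin d)) B r} (hA : AnosovWithDensePeriodicPoints A)
    {f : Diffeo (EuclideanSpace ℝ (Fin m)) M r} (hf : IsProjectiveExtension π A f)
    (hst : OmegaStable f) :
    SatisfiesAxiomA f ∧ HasNoCycles f := by
  subst hm
  obtain ⟨⟨h1, h2, h3, h4, h5, h6⟩, h7, h8⟩ := hf
  exact proj_main ⟨h1, h2, h3, h4, h5, h6⟩ hr A hA f h7 h8 hst

end Pool.Agent.Work.MP_814647_an.ProjectiveExtensionsOld
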