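import Pool.Agent.Work.MP_814647_an.QS.Final

/-!
# Closing of returns without perturbation for C^r Omega-stable diffeomorphisms

Let `M` be a closed manifold, with a metric for which the charts are locally bi-Lipschitz (for
example the distance of a Riemannian metric), `2 ≤ r ≤ ∞`, and `f` a `C^r` Omega-stable
diffeomorphism of `M`. Then there is a constant `K` such that every orbit segment with
`d (x, f^n x) ≤ exp (- K n ^ K)` is closed by `f` itself: there is `y` with `f^n y = y` and
`d (x, y) ≤ exp (K n ^ K) d (x, f^n x)`. No other fixed point of `f^n` is within
`exp (- K n ^ K)` of `y`, and the moduli of the multipliers of `y` are at least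
`exp (- K n ^ K)` away from `1`.
-/

open Set Filter Topology
open scoped Manifold ContDiff

namespace Pool.Agent.Work.MP_814647_an.QuantitativeClosingOld

open Pool.Agent.OmegaStability

theorem result (M : ClosedManifold) (hM : HasBilipschitzCharts M) {r : ℕ∞} (hr : 2 ≤ r)
    (f : CrDiffeo M r) (hst : OmegaStable f) : ClosesReturns f :=
  Pool.Agent.OmegaQS.closing_main M hM r hr f hst

end Pool.Agent.Work.MP_814647_an.QuantitativeClosingOld
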