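import Pool.Agent.Work.MP_814647_an.IdxStatement

/-!
# Topologically hyperbolic nonwandering sets: the notions in the statement
-/

open Set Filter Topology
open scoped Manifold ContDiff

noncomputable section

namespace Pool.Agent.OmegaStability

/-- `f` is expansive on `S`: two full orbits in `S` which stay close to each other for all times
are equal. -/
def ExpansiveOn {M : Type*} [MetricSpace M] (f : M → M) (S : Set M) : Prop :=
  ∃ κ > 0, ∀ x y : ℤ → M, (∀ j, x j ∈ S) → (∀ j, y j ∈ S) → (∀ j, x (j + 1) = f (x j)) →
    (∀ j, y (j + 1) = f (y j)) → (∀ j, dist (x j) (y j) ≤ κ) → x 0 = y 0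

/-- `f` has the shadowing property on `S`: every two-sided pseudo-orbit in `S` with small jumps
is shadowed by a full orbit in `S`. -/
def ShadowingOn {M : Type*} [MetricSpace M] (f : M → M) (S : Set M) : Prop :=
  ∀ ε > 0, ∃ δ > 0, ∀ x : ℤ → M, (∀ j, x j ∈ S) → (∀ j, dist (f (x j)) (x (j + 1)) < δ) →
    ∃ y : ℤ → M, (∀ j, y j ∈ S) ∧ (∀ j, y (j + 1) = f (y j)) ∧ ∀ j, dist (x j) (y j) < ε

/-- The nonwandering set of `f` is the closure of the set of periodic points, and on it `f` is
expansive and has the shadowing property. -/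
def TopologicallyHyperbolic {M : Type*} [MetricSpace M] (f : M → M) : Prop :=
  Omega f = closure (Function.periodicPts f) ∧ ExpansiveOn f (Omega f) ∧ ShadowingOn f (Omega f)

section

variable {E : Type*} [NormedAddCommGroup E] [NormedSpace ℝ E]
  {M : Type*} [MetricSpace M] [ChartedSpace E M] [MulAction Circle M]

/-- Arbitrarily small rotations of `f` along the circles have the periodic shadowing property on
the whole manifold and have no cycles. -/
def SmallRotationsNoCycles {r : ℕ∞} (f : Diffeo E M r) : Prop :=
  ∀ ε > 0, ∃ t : ℝ, |t| < ε ∧ ∃ g : Diffeo E M r, (∀ y, g y = Circle.exp t • f y) ∧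
    PeriodicShadowing g ∧ HasNoCycles g

end

end Pool.Agent.OmegaStability
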