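import Pool.Agent.Work.MP_814647_an.TH.Final

/-!
# Topological hyperbolicity of Omega-stable circle extensions

Let `M` be a closed manifold with a smooth free circle action, `f` a `C^r` diffeomorphism of `M`
(`1 ≤ r ≤ ∞`) which sends circle orbits to circle orbits and preserves their orientation, and
suppose that the map `A` induced by `f` on the orbit space has the periodic shadowing property and
is expansive on the closure of its periodic points. If `f` is `C^r` Omega-stable then

* the nonwandering set of `f` is the closure of the set of periodic points, and `f` is expansive
  and has the shadowing property on it;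
* the nonwandering set is the union of two disjoint closed sets: the closure of the periodic
  points which contract the circle direction and the closure of those which expand it;
* arbitrarily small rotations of `f` along the circles have the periodic shadowing property on
  the whole of `M` and have no cycles.
-/

open Set Filter Topology
open scoped Manifold ContDiff

namespace Pool.Agent.OmegaStability.OldTopologicalHyperbolicity

open Pool.Agent.OmegaStability

theorem result {m : ℕ} {B M : Type*} [MetricSpace B] [MetricSpace M] [CompactSpace M]
    [ChartedSpace (EuclideanSpace ℝ (Fin m)) M]
    [IsManifold 𝓘(ℝ, EuclideanSpace ℝ (Fin m)) ∞ M] [MulAction Circle M]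
    {π : M → B} (hπ : FreeCircleAction (EuclideanSpace ℝ (Fin m)) π)
    {r : ℕ∞} (hr : 1 ≤ r) {A : B → B} (hA : PeriodicShadowing A) (hA' : ExpansiveOnPeriodic A)
    (f : Diffeo (EuclideanSpace ℝ (Fin m)) M r) (hcov : ∀ y, π (f y) = A (π y))
    (hf : PreservesOrientedCircles f) (hst : OmegaStable f) :
    TopologicallyHyperbolic f ∧ SplitsByCircleIndex (EuclideanSpace ℝ (Fin m)) f ∧
      SmallRotationsNoCycles f :=
  TH.final_main hπ hr hA hA' f hcov hf hst

end Pool.Agent.OmegaStability.OldTopologicalHyperbolicity
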